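import Pool.Agent.Lib.MP_f8fa1d_co.Num.Resum
import Pool.Agent.Lib.MP_f8fa1d_co.Nice

/-!
# From GP-free sets of smooth numbers to exponent vectors
-/

namespace Pool.Agent.Lib.MP_f8fa1d_co.Num

open Pool.Agent.Lib.MP_f8fa1d_co

/-- The odd number with exponent vector `n`. -/
def mv (L : List ℕ) (n : Fin L.length → Fin 9) : ℕ := ∏ i, L[i.1] ^ (n i : ℕ)

/-- The set of exponents of `2` over the odd part `mv L n`. -/
def slice (L : List ℕ) (B : Finset ℕ) (n : Fin L.length → Fin 9) : Finset ℕ :=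
  (Finset.range (B.sup id + 1)).filter (fun i => 2 ^ i * mv L n ∈ B)

theorem mem_slice {L : List ℕ} {B : Finset ℕ} (hL : ∀ q ∈ L, 3 ≤ q)
    {n : Fin L.length → Fin 9} {i : ℕ} : i ∈ slice L B n ↔ 2 ^ i * mv L n ∈ B := by
  unfold slice
  rw [Finset.mem_filter, Finset.mem_range]
  constructor
  · exact fun h => h.2
  · intro h
    refine ⟨?_, h⟩
    have h1 : 2 ^ i * mv L n ≤ B.sup id := Finset.le_sup (f := id) h
    have h2 : 0 < mv L n := by
      unfold mv
      apply Finset.prod_pos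
      intro j _
      have := hL _ (List.getElem_mem (l := L) j.2)
      positivity
    have h3 : i < 2 ^ i := Nat.lt_two_pow_self
    nlinarith

section

variable {L : List ℕ} (hL : ∀ q ∈ L, 3 ≤ q ∧ Odd q)

include hL

theorem mv_pos (n : Fin L.length → Fin 9) : 0 < mv L n := by
  unfold mv
  apply Finset.prod_pos
  intro j _
  have := (hL _ (List.getElem_mem (l := L) j.2)).1
  positivity

theorem mv_odd (n : Fin L.length → Fin 9) : Odd (mv L n) := by
  unfold mv
  apply Finset.prod_induction _ Odd (fun a b => Odd.mul) odd_one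
  intro i _
  exact (hL _ (List.getElem_mem (l := L) i.2)).2.pow

theorem slice_AF {B : Finset ℕ} (hB : GPFree (B : Set ℕ)) (n : Fin L.length → Fin 9) :
    AF (slice L B n) := by
  intro i hi j hj k hk hijk
  rw [mem_slice (fun q hq => (hL q hq).1)] at hi hj hk
  have h := hB.eq (a := 2 ^ i * mv L n) (b := 2 ^ j * mv L n) (c := 2 ^ k * mv L n) hi hj hk (by
    have : 2 ^ i * mv L n * (2 ^ k * mv L n) = 2 ^ (i + k) * (mv L n * mv L n) := by
      rw [pow_add]; ring
    rw [this, hijk]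
    ring)
  have h2 := Nat.eq_of_mul_eq_mul_right (mv_pos hL n) h
  exact Nat.pow_right_injective (le_refl 2) h2

omit hL in
theorem odd_part {i k x y : ℕ} (hx : Odd x) (hy : Odd y) (h : 2 ^ i * x = 2 ^ k * y) : x = y := by
  rcases lt_trichotomy i k with h1 | h1 | h1
  · exfalso
    obtain ⟨d, rfl⟩ := Nat.exists_eq_add_of_lt h1
    have h2 : 2 ^ i * x = 2 ^ i * (2 ^ (d + 1) * y) := by
      rw [h, ← mul_assoc, ← pow_add]; congr 1
    have h3 := Nat.eq_of_mul_eq_mul_left (by positivity) h2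
    rw [h3, pow_succ] at hx
    rw [Nat.odd_iff] at hx
    have : 2 ^ d * 2 * y = 2 * (2 ^ d * y) := by ring
    omega
  · subst h1
    exact Nat.eq_of_mul_eq_mul_left (by positivity) h
  · exfalso
    obtain ⟨d, rfl⟩ := Nat.exists_eq_add_of_lt h1
    have h2 : 2 ^ k * y = 2 ^ k * (2 ^ (d + 1) * x) := by
      rw [← h, ← mul_assoc, ← pow_add]; congr 1
    have h3 := Nat.eq_of_mul_eq_mul_left (by positivity) h2
    rw [h3, pow_succ] at hy
    rw [Nat.odd_iff] at hy
    have : 2 ^ d * 2 * x = 2 * (2 ^ d * x) := by ring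
    omega

omit hL in
theorem mv_gp (n : Fin L.length → Fin 9) :
    mv L (fun i => at' (n i)) * mv L n = mv L (fun i => bt (n i)) * mv L (fun i => bt (n i)) := by
  unfold mv
  rw [← Finset.prod_mul_distrib, ← Finset.prod_mul_distrib]
  apply Finset.prod_congr rfl
  intro i _
  rw [← pow_add, ← pow_add, at_bt]
  congr 1
  ring

theorem mv_lt (n : Fin L.length → Fin 9) (hn : ¬ Gd n) : mv L (fun i => at' (n i)) < mv L n := by
  unfold Gd at hn
  push Not at hn
  obtain ⟨i, hi⟩ := hn
  unfold mv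
  apply Finset.prod_lt_prod
  · intro j _
    have := (hL _ (List.getElem_mem (l := L) j.2)).1
    positivity
  · intro j _
    have := (hL _ (List.getElem_mem (l := L) j.2)).1
    exact Nat.pow_le_pow_right (by omega) (at_le _)
  · refine ⟨i, Finset.mem_univ _, ?_⟩
    have := (hL _ (List.getElem_mem (l := L) i.2)).1
    exact Nat.pow_lt_pow_right (by omega) (at_lt _ (by simpa using hi))

theorem slice_Cross {B : Finset ℕ} (hB : GPFree (B : Set ℕ)) (n : Fin L.length → Fin 9)
    (hn : ¬ Gd n) : Cross (slice L B (fun i => at' (n i))) (slice L B (fun i => bt (n i)))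
      (slice L B n) := by
  intro i hi j hj k hk hijk
  have h3 : ∀ q ∈ L, 3 ≤ q := fun q hq => (hL q hq).1
  rw [mem_slice h3] at hi hj hk
  have e : 2 ^ i * mv L (fun i => at' (n i)) * (2 ^ k * mv L n) =
      2 ^ j * mv L (fun i => bt (n i)) * (2 ^ j * mv L (fun i => bt (n i))) := by
    have e1 : 2 ^ i * mv L (fun i => at' (n i)) * (2 ^ k * mv L n) =
      2 ^ (i + k) * (mv L (fun i => at' (n i)) * mv L n) := by rw [pow_add]; ring
    rw [e1, hijk, mv_gp]
    ring
  have h := hB.eq hi hj hk e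
  rw [← h] at e
  have h4 := Nat.eq_of_mul_eq_mul_left (Nat.mul_pos (by positivity) (mv_pos hL _)) e
  have h5 := odd_part (mv_odd hL _) (mv_odd hL _) h4
  have h6 := mv_lt hL n hn
  omega

end

theorem smooth_eq {K : ℕ} {L : List ℕ} (hnd : L.Nodup)
    (hL : ∀ q, q ∈ L ↔ q.Prime ∧ 3 ≤ q ∧ q < K) {b : ℕ} (hb : b ∈ K.smoothNumbers) :
    b = 2 ^ b.factorization 2 * ∏ i : Fin L.length, L[i.1] ^ b.factorization L[i.1] := by
  have hb0 := Nat.ne_zero_of_mem_smoothNumbers hb
  rw [Fin.prod_univ_fun_getElem L (fun q => q ^ b.factorization q),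
    ← List.prod_toFinset (fun q => q ^ b.factorization q) hnd]
  have h2 : (2 : ℕ) ∉ L.toFinset := by
    rw [List.mem_toFinset, hL]; omega
  rw [← Finset.prod_insert (f := fun q => q ^ b.factorization q) h2]
  have h3 : b.factorization.support ⊆ insert 2 L.toFinset := by
    intro p hp
    rw [Nat.support_factorization, Nat.mem_primeFactors] at hp
    rw [Finset.mem_insert, List.mem_toFinset, hL]
    have h4 := Nat.mem_smoothNumbers'.1 hb p hp.1 hp.2.1
    have h5 := hp.1.two_le
    by_cases h6 : p = 2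
    · left; exact h6
    · right; exact ⟨hp.1, by omega, h4⟩
  conv_lhs => rw [← Nat.prod_factorization_pow_eq_self hb0]
  exact Finsupp.prod_of_support_subset _ h3 _ (by intros; simp)

theorem phi_eq {K : ℕ} (hK : 3 ≤ K) {L : List ℕ} (hnd : L.Nodup)
    (hL : ∀ q, q ∈ L ↔ q.Prime ∧ 3 ≤ q ∧ q < K) :
    phi K = 1 / 2 * ∏ i : Fin L.length, (1 - 1 / (L[i.1] : ℝ)) := by
  rw [Fin.prod_univ_fun_getElem L (fun q : ℕ => (1 - 1 / (q : ℝ))),
    ← List.prod_toFinset (fun q : ℕ => (1 - 1 / (q : ℝ))) hnd]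
  have h2 : (2 : ℕ) ∉ L.toFinset := by
    rw [List.mem_toFinset, hL]; omega
  have h3 : K.primesBelow = insert 2 L.toFinset := by
    ext p
    rw [Nat.mem_primesBelow, Finset.mem_insert, List.mem_toFinset, hL]
    constructor
    · rintro ⟨h4, h5⟩
      have := h5.two_le
      by_cases h6 : p = 2
      · left; exact h6
      · right; exact ⟨h5, by omega, h4⟩
    · rintro (rfl | h)
      · exact ⟨by omega, Nat.prime_two⟩
      · exact ⟨h.2.2, h.1⟩
  unfold phi
  rw [h3, Finset.prod_insert h2]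
  norm_num

theorem prod_inv (L : List ℕ) (n : Fin L.length → Fin 9) :
    ∏ i : Fin L.length, (1 / (L[i.1] : ℝ)) ^ (n i : ℕ) = 1 / (mv L n : ℝ) := by
  unfold mv
  push_cast
  rw [one_div, ← Finset.prod_inv_distrib]
  apply Finset.prod_congr rfl
  intro i _
  rw [one_div, inv_pow]

/-- The contribution of the multiples of ninth powers. -/
theorem rs_dvd {K : ℕ} {B : Finset ℕ} (hB : (B : Set ℕ) ⊆ K.smoothNumbers) {q : ℕ} (hq : 0 < q) :
    rs (B.filter (fun b => q ^ 9 ∣ b)) ≤ (1 / (q : ℝ)) ^ 9 * (phi K)⁻¹ := by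
  have h1 : rs (B.filter (fun b => q ^ 9 ∣ b)) =
      (1 / (q : ℝ)) ^ 9 * rs ((B.filter (fun b => q ^ 9 ∣ b)).image (fun b => b / q ^ 9)) := by
    unfold rs
    rw [Finset.sum_image, Finset.mul_sum]
    · apply Finset.sum_congr rfl
      intro b hb
      obtain ⟨c, rfl⟩ := (Finset.mem_filter.1 hb).2
      rw [Nat.mul_div_cancel_left c (by positivity)]
      push_cast
      rw [one_div, one_div, one_div, mul_inv, inv_pow]
    · intro a ha b hb hab
      obtain ⟨c, rfl⟩ := (Finset.mem_filter.1 ha).2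
      obtain ⟨d, rfl⟩ := (Finset.mem_filter.1 hb).2
      simp only at hab
      rw [Nat.mul_div_cancel_left c (by positivity), Nat.mul_div_cancel_left d (by positivity)] at hab
      rw [hab]
  rw [h1]
  apply mul_le_mul_of_nonneg_left _ (by positivity)
  apply rs_le
  intro c hc
  simp only [Finset.coe_image, Set.mem_image, Finset.mem_coe, Finset.mem_filter] at hc
  obtain ⟨b, ⟨hb, hd⟩, rfl⟩ := hc
  have hb' := hB hb
  rw [Nat.mem_smoothNumbers'] at hb' ⊢
  intro p hp hpd
  exact hb' p hp (dvd_trans hpd (Nat.div_dvd_of_dvd hd))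

theorem rs_box {K : ℕ} {L : List ℕ} (hnd : L.Nodup)
    (hL : ∀ q, q ∈ L ↔ q.Prime ∧ 3 ≤ q ∧ q < K) {B : Finset ℕ}
    (hB : (B : Set ℕ) ⊆ K.smoothNumbers) :
    rs B ≤ (∑ n : Fin L.length → Fin 9,
        (∏ i : Fin L.length, (1 / (L[i.1] : ℝ)) ^ (n i : ℕ)) * wt (slice L B n)) +
      ∑ q ∈ L.toFinset, (1 / (q : ℝ)) ^ 9 * (phi K)⁻¹ := by
  have hL3 : ∀ q ∈ L, 3 ≤ q := fun q hq => ((hL q).1 hq).2.1
  have hnn : ∀ b : ℕ, (0 : ℝ) ≤ 1 / (b : ℝ) := fun b => by positivity
  have h1 : rs B = rs (B.filter (fun b => ∀ q ∈ L, ¬ q ^ 9 ∣ b)) +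
      rs (B.filter (fun b => ¬ ∀ q ∈ L, ¬ q ^ 9 ∣ b)) := by
    unfold rs
    rw [Finset.sum_filter_add_sum_filter_not]
  have h2 : rs (B.filter (fun b => ¬ ∀ q ∈ L, ¬ q ^ 9 ∣ b)) ≤
      ∑ q ∈ L.toFinset, (1 / (q : ℝ)) ^ 9 * (phi K)⁻¹ := by
    have h3 : ∑ q ∈ L.toFinset, rs (B.filter (fun b => q ^ 9 ∣ b)) =
        ∑ b ∈ B, ∑ q ∈ L.toFinset, if q ^ 9 ∣ b then 1 / (b : ℝ) else 0 := by
      rw [Finset.sum_comm]
      apply Finset.sum_congr rfl
      intro q _
      unfold rs
      rw [Finset.sum_filter]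
    have h4 : rs (B.filter (fun b => ¬ ∀ q ∈ L, ¬ q ^ 9 ∣ b)) ≤
        ∑ b ∈ B, ∑ q ∈ L.toFinset, if q ^ 9 ∣ b then 1 / (b : ℝ) else 0 := by
      unfold rs
      rw [Finset.sum_filter]
      apply Finset.sum_le_sum
      intro b _
      have hnn2 : ∀ q ∈ L.toFinset, (0 : ℝ) ≤ if q ^ 9 ∣ b then 1 / (b : ℝ) else 0 := by
        intro q _
        split_ifs
        · exact hnn b
        · exact le_rfl
      by_cases h : ∀ q ∈ L, ¬ q ^ 9 ∣ b
      swap
      · rw [if_pos h]
        push Not at h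
        obtain ⟨q, hq, hqd⟩ := h
        have := Finset.single_le_sum hnn2 (List.mem_toFinset.2 hq)
        rw [if_pos hqd] at this
        exact this
      · rw [if_neg (not_not.2 h)]
        exact Finset.sum_nonneg hnn2
    rw [← h3] at h4
    refine h4.trans (Finset.sum_le_sum ?_)
    intro q hq
    exact rs_dvd hB (by have := hL3 q (List.mem_toFinset.1 hq); omega)
  have h3 : rs (B.filter (fun b => ∀ q ∈ L, ¬ q ^ 9 ∣ b)) ≤
      ∑ n : Fin L.length → Fin 9,
        (∏ i : Fin L.length, (1 / (L[i.1] : ℝ)) ^ (n i : ℕ)) * wt (slice L B n) := by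
    set B' := B.filter (fun b => ∀ q ∈ L, ¬ q ^ 9 ∣ b) with hB'
    let g : ℕ → (Σ _ : (Fin L.length → Fin 9), ℕ) := fun b =>
      ⟨fun i => Fin.ofNat 9 (b.factorization L[i.1]), b.factorization 2⟩
    let val : (Σ _ : (Fin L.length → Fin 9), ℕ) → ℕ := fun z => 2 ^ z.2 * mv L z.1
    have hval : ∀ b ∈ B', val (g b) = b := by
      intro b hb
      obtain ⟨hb1, hb2⟩ := Finset.mem_filter.1 hb
      have h4 := smooth_eq hnd hL (hB hb1)
      have hb0 := Nat.ne_zero_of_mem_smoothNumbers (hB hb1)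
      have h5 : mv L (g b).1 = ∏ i : Fin L.length, L[i.1] ^ b.factorization L[i.1] := by
        unfold mv
        apply Finset.prod_congr rfl
        intro i _
        have hq := List.getElem_mem (l := L) i.2
        have hqp := ((hL _).1 hq).1
        have h6 : b.factorization L[i.1] < 9 := by
          by_contra h7
          push Not at h7
          exact hb2 _ hq ((hqp.pow_dvd_iff_le_factorization hb0).2 h7)
        have h8 : ((g b).1 i : ℕ) = b.factorization L[i.1] := by
          change (b.factorization L[i.1]) % 9 = _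
          exact Nat.mod_eq_of_lt h6
        rw [h8]
      change 2 ^ b.factorization 2 * mv L (g b).1 = b
      rw [h5]
      exact h4.symm
    have hinj : Set.InjOn g (B' : Set ℕ) := by
      intro a ha b hb hab
      rw [← hval a ha, ← hval b hb, hab]
    have h5 : rs B' = ∑ z ∈ B'.image g, 1 / (val z : ℝ) := by
      rw [Finset.sum_image (fun a ha b hb hab => hinj ha hb hab)]
      unfold rs
      apply Finset.sum_congr rfl
      intro b hb
      rw [hval b hb]
    have h6 : B'.image g ⊆ (Finset.univ : Finset (Fin L.length → Fin 9)).sigma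
        (fun n => slice L B n) := by
      intro z hz
      obtain ⟨b, hb, rfl⟩ := Finset.mem_image.1 hz
      rw [Finset.mem_sigma]
      refine ⟨Finset.mem_univ _, ?_⟩
      rw [mem_slice hL3]
      have := hval b hb
      change 2 ^ (g b).2 * mv L (g b).1 = b at this
      rw [this]
      exact (Finset.mem_filter.1 hb).1
    rw [h5]
    refine (Finset.sum_le_sum_of_subset_of_nonneg h6 (fun z _ _ => by positivity)).trans ?_
    rw [Finset.sum_sigma]
    apply le_of_eq
    apply Finset.sum_congr rfl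
    intro n _
    rw [prod_inv]
    unfold wt
    rw [Finset.mul_sum]
    apply Finset.sum_congr rfl
    intro i _
    change 1 / ((2 ^ i * mv L n : ℕ) : ℝ) = _
    push_cast
    rw [one_div, one_div, one_div, mul_inv, inv_pow, mul_comm]
  rw [h1]
  exact add_le_add h3 h2

/-- Weights of the exponents, normalised. -/
noncomputable def wg (x : ℝ) (s : Fin 9) : ℝ := if gd s = true then (1 - x) * x ^ (s : ℕ) else 0

/-- The expectation of `φ (F, G)` over the exponent vectors. -/
noncomputable def ES (L : List ℕ) (φ : ℝ → ℝ → ℝ) : ℝ :=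
  ∑ c : Fin L.length → Fin 9, (∏ i : Fin L.length, wg (1 / (L[i.1] : ℝ)) (c i)) *
    φ (∏ i : Fin L.length, fg (1 / (L[i.1] : ℝ)) (c i))
      (∏ i : Fin L.length, gg (1 / (L[i.1] : ℝ)) (c i))

/-- The function to be averaged. -/
noncomputable def psi (F G : ℝ) : ℝ := 864 / 511 + gn (F - 1) (1 - 9 / 4 * (G - 1))

theorem sK_le {K : ℕ} (hK : 3 ≤ K) {L : List ℕ} (hnd : L.Nodup)
    (hL : ∀ q, q ∈ L ↔ q.Prime ∧ 3 ≤ q ∧ q < K) :
    sK K ≤ 1 / 2 * ES L psi + ∑ q ∈ L.toFinset, (1 / (q : ℝ)) ^ 9 := by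
  have hp := phi_pos K
  have hL3 : ∀ q ∈ L, 3 ≤ q ∧ Odd q := by
    intro q hq
    obtain ⟨h1, h2, h3⟩ := (hL q).1 hq
    exact ⟨h2, h1.odd_of_ne_two (by omega)⟩
  have h1 : W K ≤ (1 / 2 * ES L psi + ∑ q ∈ L.toFinset, (1 / (q : ℝ)) ^ 9) / phi K := by
    apply csSup_le (Wset_nonempty K)
    rintro y ⟨B, hB, hG, rfl⟩
    rw [le_div_iff₀ hp]
    have h2 := rs_box hnd hL hB
    have h3 := resum (fun i : Fin L.length => 1 / (L[i.1] : ℝ)) (fun i => by positivity)
      (slice L B) (slice_AF hL3 hG) (slice_Cross hL3 hG)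
    have h4 := h2.trans (add_le_add_left h3 _)
    have h5 := mul_le_mul_of_nonneg_right h4 hp.le
    refine h5.trans (le_of_eq ?_)
    rw [add_mul]
    congr 1
    · have hphi := phi_eq hK hnd hL
      unfold ES
      rw [Finset.sum_mul, Finset.mul_sum]
      apply Finset.sum_congr rfl
      intro c _
      unfold psi
      by_cases hc : Gd c
      · rw [if_pos hc, hphi]
        have h6 : ∏ i : Fin L.length, wg (1 / (L[i.1] : ℝ)) (c i) =
            (∏ i : Fin L.length, (1 - 1 / (L[i.1] : ℝ))) *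
              ∏ i : Fin L.length, (1 / (L[i.1] : ℝ)) ^ (c i : ℕ) := by
          rw [← Finset.prod_mul_distrib]
          apply Finset.prod_congr rfl
          intro i _
          unfold wg
          rw [if_pos (hc i)]
        rw [h6]
        ring
      · rw [if_neg hc]
        have h6 : ∏ i : Fin L.length, wg (1 / (L[i.1] : ℝ)) (c i) = 0 := by
          unfold Gd at hc
          push Not at hc
          obtain ⟨i, hi⟩ := hc
          apply Finset.prod_eq_zero (Finset.mem_univ i)
          unfold wg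
          rw [if_neg hi]
        rw [h6]
        ring
    · rw [Finset.sum_mul]
      apply Finset.sum_congr rfl
      intro q _
      rw [mul_assoc, inv_mul_cancel₀ hp.ne', mul_one]
  rw [le_div_iff₀ hp] at h1
  unfold sK
  linarith

end Pool.Agent.Lib.MP_f8fa1d_co.Num
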