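import Pool.Agent.Lib.MP_f8fa1d_co.Num.Tail

/-!
# Numerical data: the odd primes below 5000
-/

namespace Pool.Agent.Lib.MP_f8fa1d_co.Num

open Pool.Agent.Lib.MP_f8fa1d_co

/-- The odd primes from 4999 down to 101. -/
def RL24 : List ℕ := [
  4999, 4993, 4987, 4973, 4969, 4967, 4957, 4951, 4943, 4937, 4933, 4931, 4919, 4909, 4903, 4889,
  4877, 4871, 4861, 4831, 4817, 4813, 4801, 4799, 4793, 4789, 4787, 4783, 4759, 4751, 4733, 4729,
  4723, 4721, 4703, 4691, 4679, 4673, 4663, 4657, 4651, 4649, 4643, 4639, 4637, 4621, 4603, 4597,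
  4591, 4583, 4567, 4561, 4549, 4547, 4523, 4519, 4517, 4513, 4507, 4493, 4483, 4481, 4463, 4457,
  4451, 4447, 4441, 4423, 4421, 4409, 4397, 4391, 4373, 4363, 4357, 4349, 4339, 4337, 4327, 4297,
  4289, 4283, 4273, 4271, 4261, 4259, 4253, 4243, 4241, 4231, 4229, 4219, 4217, 4211, 4201, 4177,
  4159, 4157, 4153, 4139, 4133, 4129, 4127, 4111, 4099, 4093, 4091, 4079, 4073, 4057, 4051, 4049,
  4027, 4021, 4019, 4013, 4007, 4003, 4001, 3989, 3967, 3947, 3943, 3931, 3929, 3923, 3919, 3917,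
  3911, 3907, 3889, 3881, 3877, 3863, 3853, 3851, 3847, 3833, 3823, 3821, 3803, 3797, 3793, 3779,
  3769, 3767, 3761, 3739, 3733, 3727, 3719, 3709, 3701, 3697, 3691, 3677, 3673, 3671, 3659, 3643,
  3637, 3631, 3623, 3617, 3613, 3607, 3593, 3583, 3581, 3571, 3559, 3557, 3547, 3541, 3539, 3533,
  3529, 3527, 3517, 3511, 3499, 3491, 3469, 3467, 3463, 3461, 3457, 3449, 3433, 3413, 3407, 3391,
  3389, 3373, 3371, 3361, 3359, 3347, 3343, 3331, 3329, 3323, 3319, 3313, 3307, 3301, 3299, 3271,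
  3259, 3257, 3253, 3251, 3229, 3221, 3217, 3209, 3203, 3191, 3187, 3181, 3169, 3167, 3163, 3137,
  3121, 3119, 3109, 3089, 3083, 3079, 3067, 3061, 3049, 3041, 3037, 3023, 3019, 3011, 3001, 2999,
  2971, 2969, 2963, 2957, 2953, 2939, 2927, 2917, 2909, 2903, 2897, 2887, 2879, 2861, 2857, 2851,
  2843, 2837, 2833, 2819, 2803, 2801, 2797, 2791, 2789, 2777, 2767, 2753, 2749, 2741, 2731, 2729,
  2719, 2713, 2711, 2707, 2699, 2693, 2689, 2687, 2683, 2677, 2671, 2663, 2659, 2657, 2647, 2633,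
  2621, 2617, 2609, 2593, 2591, 2579, 2557, 2551, 2549, 2543, 2539, 2531, 2521, 2503, 2477, 2473,
  2467, 2459, 2447, 2441, 2437, 2423, 2417, 2411, 2399, 2393, 2389, 2383, 2381, 2377, 2371, 2357,
  2351, 2347, 2341, 2339, 2333, 2311, 2309, 2297, 2293, 2287, 2281, 2273, 2269, 2267, 2251, 2243,
  2239, 2237, 2221, 2213, 2207, 2203, 2179, 2161, 2153, 2143, 2141, 2137, 2131, 2129, 2113, 2111,
  2099, 2089, 2087, 2083, 2081, 2069, 2063, 2053, 2039, 2029, 2027, 2017, 2011, 2003, 1999, 1997,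
  1993, 1987, 1979, 1973, 1951, 1949, 1933, 1931, 1913, 1907, 1901, 1889, 1879, 1877, 1873, 1871,
  1867, 1861, 1847, 1831, 1823, 1811, 1801, 1789, 1787, 1783, 1777, 1759, 1753, 1747, 1741, 1733,
  1723, 1721, 1709, 1699, 1697, 1693, 1669, 1667, 1663, 1657, 1637, 1627, 1621, 1619, 1613, 1609,
  1607, 1601, 1597, 1583, 1579, 1571, 1567, 1559, 1553, 1549, 1543, 1531, 1523, 1511, 1499, 1493,
  1489, 1487, 1483, 1481, 1471, 1459, 1453, 1451, 1447, 1439, 1433, 1429, 1427, 1423, 1409, 1399,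
  1381, 1373, 1367, 1361, 1327, 1321, 1319, 1307, 1303, 1301, 1297, 1291, 1289, 1283, 1279, 1277,
  1259, 1249, 1237, 1231, 1229, 1223, 1217, 1213, 1201, 1193, 1187, 1181, 1171, 1163, 1153, 1151,
  1129, 1123, 1117, 1109, 1103, 1097, 1093, 1091, 1087, 1069, 1063, 1061, 1051, 1049, 1039, 1033,
  1031, 1021, 1019, 1013, 1009, 997, 991, 983, 977, 971, 967, 953, 947, 941, 937, 929, 919, 911,
  907, 887, 883, 881, 877, 863, 859, 857, 853, 839, 829, 827, 823, 821, 811, 809, 797, 787, 773,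
  769, 761, 757, 751, 743, 739, 733, 727, 719, 709, 701, 691, 683, 677, 673, 661, 659, 653, 647,
  643, 641, 631, 619, 617, 613, 607, 601, 599, 593, 587, 577, 571, 569, 563, 557, 547, 541, 523,
  521, 509, 503, 499, 491, 487, 479, 467, 463, 461, 457, 449, 443, 439, 433, 431, 421, 419, 409,
  401, 397, 389, 383, 379, 373, 367, 359, 353, 349, 347, 337, 331, 317, 313, 311, 307, 293, 283,
  281, 277, 271, 269, 263, 257, 251, 241, 239, 233, 229, 227, 223, 211, 199, 197, 193, 191, 181,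
  179, 173, 167, 163, 157, 151, 149, 139, 137, 131, 127, 113, 109, 107, 103, 101]

/-- The odd primes from 101 to 4999. -/
def L24 : List ℕ := RL24.reverse

/-- Bounds for the moments of `L24`. -/
def T24 : T4 := ⟨998214154414, 1785846230, 13208651, 1001799126525⟩

/-- Suffix. -/
def L23 : List ℕ := 97 :: L24

/-- Suffix. -/
def L22 : List ℕ := 89 :: L23

/-- Suffix. -/
def L21 : List ℕ := 83 :: L22

/-- Suffix. -/
def L20 : List ℕ := 79 :: L21

/-- Suffix. -/
def L19 : List ℕ := 73 :: L20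

/-- Suffix. -/
def L18 : List ℕ := 71 :: L19

/-- Suffix. -/
def L17 : List ℕ := 67 :: L18

/-- Suffix. -/
def L16 : List ℕ := 61 :: L17

/-- Suffix. -/
def L15 : List ℕ := 59 :: L16

/-- Suffix. -/
def L14 : List ℕ := 53 :: L15

/-- Suffix. -/
def L13 : List ℕ := 47 :: L14

/-- Suffix. -/
def L12 : List ℕ := 43 :: L13

/-- Suffix. -/
def L11 : List ℕ := 41 :: L12

/-- Suffix. -/
def L10 : List ℕ := 37 :: L11

/-- Suffix. -/
def L9 : List ℕ := 31 :: L10

/-- Suffix. -/
def L8 : List ℕ := 29 :: L9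

/-- Suffix. -/
def L7 : List ℕ := 23 :: L8

/-- Suffix. -/
def L6 : List ℕ := 19 :: L7

/-- Suffix. -/
def L5 : List ℕ := 17 :: L6

/-- Suffix. -/
def L4 : List ℕ := 13 :: L5

/-- Suffix. -/
def L3 : List ℕ := 11 :: L4

/-- Suffix. -/
def L2 : List ℕ := 7 :: L3

/-- Suffix. -/
def L1 : List ℕ := 5 :: L2

/-- Suffix. -/
def L0 : List ℕ := 3 :: L1

/-- Boolean version of `Big`. -/
noncomputable def bigB (L : List Nat) : Bool :=
  @List.rec Nat (fun _ => Bool) true (fun p _ ih => @Bool.rec (fun _ => Bool) false ih (Nat.ble 2 p)) L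

theorem bigB_spec : ∀ {L : List ℕ}, bigB L = true → Big L
  | [], _ => fun q hq => absurd hq (by simp)
  | p :: L, h => by
    have h1 : @Bool.rec (fun _ => Bool) false (bigB L) (Nat.ble 2 p) = true := h
    obtain ⟨h2, h3⟩ := band_aux h1
    intro q hq
    rcases List.mem_cons.1 hq with rfl | hq
    · exact Nat.le_of_ble_eq_true h2
    · exact bigB_spec h3 q hq

theorem big0 : Big L0 := bigB_spec (by decide +kernel)

theorem big1 : Big L1 := big0.tail

theorem big2 : Big L2 := big1.tail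

theorem big3 : Big L3 := big2.tail

theorem big4 : Big L4 := big3.tail

theorem big5 : Big L5 := big4.tail

theorem big6 : Big L6 := big5.tail

theorem big7 : Big L7 := big6.tail

theorem big8 : Big L8 := big7.tail

theorem big9 : Big L9 := big8.tail

theorem big10 : Big L10 := big9.tail

theorem big11 : Big L11 := big10.tail

theorem big12 : Big L12 := big11.tail

theorem big13 : Big L13 := big12.tail

theorem big14 : Big L14 := big13.tail

theorem big15 : Big L15 := big14.tail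

theorem big16 : Big L16 := big15.tail

theorem big17 : Big L17 := big16.tail

theorem big18 : Big L18 := big17.tail

theorem big19 : Big L19 := big18.tail

theorem big20 : Big L20 := big19.tail

theorem big21 : Big L21 := big20.tail

theorem big22 : Big L22 := big21.tail

theorem big23 : Big L23 := big22.tail

theorem big24 : Big L24 := big23.tail

theorem tb24 : TB L24 ⟨998214154414, 1785846230, 13208651, 1001799126525⟩ := by
  have h := chkT_spec (s := 998214154414) (m := 1785846230) (v := 13208651) (g := 1001799126525) RL24 [] sc 0 0 sc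
    (by rw [List.append_nil]; exact big24) TB_nil (by decide +kernel)
  rw [List.append_nil] at h
  exact h

theorem tb23 : TB L23 ⟨998109156606, 1890844039, 14672071, 1001905598960⟩ :=
  chkT_one big23 tb24 (by decide +kernel)

theorem tb22 : TB L22 ⟨997984564274, 2015436372, 16551203, 1002032086224⟩ :=
  chkT_one big22 tb23 (by decide +kernel)

theorem tb21 : TB L21 ⟨997841443009, 2158557638, 18862992, 1002177540152⟩ :=
  chkT_one big21 tb22 (by decide +kernel)

theorem tb20 : TB L20 ⟨997683581679, 2316418969, 21555884, 1002338119798⟩ :=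
  chkT_one big20 tb21 (by decide +kernel)

theorem tb19 : TB L19 ⟨997498928039, 2501072610, 24958633, 1002526211027⟩ :=
  chkT_one big19 tb20 (by decide +kernel)

theorem tb18 : TB L18 ⟨997303837297, 2696163353, 28703439, 1002725085507⟩ :=
  chkT_one big18 tb19 (by decide +kernel)

theorem tb17 : TB L17 ⟨997084986324, 2915014327, 33177232, 1002948459340⟩ :=
  chkT_one big17 tb18 (by decide +kernel)

theorem tb16 : TB L16 ⟨996821416391, 3178584261, 39073341, 1003217996705⟩ :=
  chkT_one big16 tb17 (by decide +kernel)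

theorem tb15 : TB L15 ⟨996539907919, 3460092734, 45681625, 1003506194947⟩ :=
  chkT_one big15 tb16 (by decide +kernel)

theorem tb14 : TB L14 ⟨996191832461, 3808168193, 54728059, 1003863441769⟩ :=
  chkT_one big14 tb15 (by decide +kernel)

theorem tb13 : TB L13 ⟨995750453622, 4249547033, 67590200, 1004317884344⟩ :=
  chkT_one big13 tb14 (by decide +kernel)

theorem tb12 : TB L12 ⟨995224436321, 4775564335, 84453856, 1004861052640⟩ :=
  chkT_one big12 tb13 (by decide +kernel)

theorem tb11 : TB L11 ⟨994646824716, 5353175941, 104270669, 1005458828612⟩ :=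
  chkT_one big11 tb12 (by decide +kernel)

theorem tb10 : TB L10 ⟨993939896948, 6060103710, 131267937, 1006193276652⟩ :=
  chkT_one big10 tb11 (by decide +kernel)

theorem tb9 : TB L9 ⟨992938949307, 7061051352, 176292386, 1007240305130⟩ :=
  chkT_one big9 tb10 (by decide +kernel)

theorem tb8 : TB L8 ⟨991798948846, 8201051814, 232584857, 1008437976630⟩ :=
  chkT_one big8 tb9 (by decide +kernel)

theorem tb7 : TB L7 ⟨990005454005, 9994546655, 341951414, 1010344293430⟩ :=
  chkT_one big7 tb8 (by decide +kernel)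

theorem tb6 : TB L6 ⟨987406993506, 12593007152, 534882804, 1013143052621⟩ :=
  chkT_one big6 tb7 (by decide +kernel)

theorem tb5 : TB L5 ⟨984190643307, 15809357343, 812788571, 1016648780044⟩ :=
  chkT_one big5 tb6 (by decide +kernel)

theorem tb4 : TB L4 ⟨978812349574, 21187650983, 1417350779, 1022664665171⟩ :=
  chkT_one big4 tb5 (by decide +kernel)

theorem tb3 : TB L3 ⟨971452309865, 28547690269, 2445630993, 1031117021302⟩ :=
  chkT_one big3 tb4 (by decide +kernel)

theorem tb2 : TB L2 ⟨954401174540, 45598800814, 6075003388, 1052169169033⟩ :=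
  chkT_one big2 tb3 (by decide +kernel)

theorem tb1 : TB L1 ⟨923554928579, 76444534776, 16009082968, 1094325968175⟩ :=
  chkT_one big1 tb2 (by decide +kernel)

theorem tb0 : TB L0 ⟨851342814822, 148605843298, 57533850903, 1217585667990⟩ :=
  chkT_one big0 tb1 (by decide +kernel)

/-- The nodes for the primes 7 to 97. -/
def nodes : List Node := [
  ⟨7, 954401174540, 45598800814, 6075003388, 1052169169033⟩,
  ⟨11, 971452309865, 28547690269, 2445630993, 1031117021302⟩,
  ⟨13, 978812349574, 21187650983, 1417350779, 1022664665171⟩,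
  ⟨17, 984190643307, 15809357343, 812788571, 1016648780044⟩,
  ⟨19, 987406993506, 12593007152, 534882804, 1013143052621⟩,
  ⟨23, 990005454005, 9994546655, 341951414, 1010344293430⟩,
  ⟨29, 991798948846, 8201051814, 232584857, 1008437976630⟩,
  ⟨31, 992938949307, 7061051352, 176292386, 1007240305130⟩,
  ⟨37, 993939896948, 6060103710, 131267937, 1006193276652⟩,
  ⟨41, 994646824716, 5353175941, 104270669, 1005458828612⟩,
  ⟨43, 995224436321, 4775564335, 84453856, 1004861052640⟩,
  ⟨47, 995750453622, 4249547033, 67590200, 1004317884344⟩,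
  ⟨53, 996191832461, 3808168193, 54728059, 1003863441769⟩,
  ⟨59, 996539907919, 3460092734, 45681625, 1003506194947⟩,
  ⟨61, 996821416391, 3178584261, 39073341, 1003217996705⟩,
  ⟨67, 997084986324, 2915014327, 33177232, 1002948459340⟩,
  ⟨71, 997303837297, 2696163353, 28703439, 1002725085507⟩,
  ⟨73, 997498928039, 2501072610, 24958633, 1002526211027⟩,
  ⟨79, 997683581679, 2316418969, 21555884, 1002338119798⟩,
  ⟨83, 997841443009, 2158557638, 18862992, 1002177540152⟩,
  ⟨89, 997984564274, 2015436372, 16551203, 1002032086224⟩,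
  ⟨97, 998109156606, 1890844039, 14672071, 1001905598960⟩]

theorem valid : Valid T24 nodes L2 :=
  ⟨L3, rfl, tb2, 
  ⟨L4, rfl, tb3, 
  ⟨L5, rfl, tb4, 
  ⟨L6, rfl, tb5, 
  ⟨L7, rfl, tb6, 
  ⟨L8, rfl, tb7, 
  ⟨L9, rfl, tb8, 
  ⟨L10, rfl, tb9, 
  ⟨L11, rfl, tb10, 
  ⟨L12, rfl, tb11, 
  ⟨L13, rfl, tb12, 
  ⟨L14, rfl, tb13, 
  ⟨L15, rfl, tb14, 
  ⟨L16, rfl, tb15, 
  ⟨L17, rfl, tb16, 
  ⟨L18, rfl, tb17, 
  ⟨L19, rfl, tb18, 
  ⟨L20, rfl, tb19, 
  ⟨L21, rfl, tb20, 
  ⟨L22, rfl, tb21, 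
  ⟨L23, rfl, tb22, 
  ⟨L24, rfl, tb23, tb24⟩⟩⟩⟩⟩⟩⟩⟩⟩⟩⟩⟩⟩⟩⟩⟩⟩⟩⟩⟩⟩⟩

theorem L0_eq : L0 = (List.range 5000).filter tp := by decide +kernel

theorem L0_nodup : L0.Nodup := by
  rw [L0_eq]
  exact List.Nodup.filter _ List.nodup_range

theorem L0_mem (q : ℕ) : q ∈ L0 ↔ q.Prime ∧ 3 ≤ q ∧ q < 5000 := by
  rw [L0_eq, List.mem_filter, List.mem_range]
  constructor
  · rintro ⟨h1, h2⟩
    obtain ⟨h3, h4⟩ := (tp_iff h1).1 h2
    exact ⟨h3, h4, h1⟩
  · rintro ⟨h1, h2, h3⟩
    exact ⟨h3, (tp_iff h3).2 ⟨h1, h2⟩⟩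

end Pool.Agent.Lib.MP_f8fa1d_co.Num
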