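import Pool.Agent.Lib.MP_f8fa1d_co.Num.Expect

/-!
# The enumeration and its soundness
-/

namespace Pool.Agent.Lib.MP_f8fa1d_co.Num

open Pool.Agent.Lib.MP_f8fa1d_co

/-! ### Raw definitions (fast in the kernel) -/

/-- Maximum. -/
def mx (a b : Nat) : Nat := @Bool.rec (fun _ => Nat) a b (Nat.ble a b)

/-- Minimum. -/
def mn (a b : Nat) : Nat := @Bool.rec (fun _ => Nat) b a (Nat.ble a b)

theorem le_mx_left (a b : ℕ) : a ≤ mx a b := by
  unfold mx
  cases h : Nat.ble a b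
  · exact le_rfl
  · exact Nat.le_of_ble_eq_true h

theorem le_mx_right (a b : ℕ) : b ≤ mx a b := by
  unfold mx
  cases h : Nat.ble a b
  · have : ¬ a ≤ b := fun h' => by rw [Nat.ble_eq_true_of_le h'] at h; exact absurd h (by decide)
    exact (not_le.1 this).le
  · exact le_rfl

theorem mn_cases (a b : ℕ) : mn a b = a ∨ mn a b = b := by
  unfold mn
  cases Nat.ble a b
  · right; rfl
  · left; rfl

/-- `⌈(u H)² / (4 n)⌉`. -/
def gj (u H n : Nat) : Nat := cdiv (Nat.mul (Nat.mul u H) (Nat.mul u H)) (Nat.mul 4 n)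

/-- All five differences are negative. -/
def c5 (du kap nk : Nat) : Bool :=
  @Bool.rec (fun _ => Bool) false
    (@Bool.rec (fun _ => Bool) false
      (@Bool.rec (fun _ => Bool) false
        (@Bool.rec (fun _ => Bool) false
          (@Bool.rec (fun _ => Bool) false
            (Nat.beq nk 0)
            (Nat.blt (Nat.mul du 1995) (Nat.mul kap 1364)))
          (Nat.blt (Nat.mul du 15117) (Nat.mul kap 10679)))
        (Nat.blt (Nat.mul du 17547) (Nat.mul kap 12683)))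
      (Nat.blt (Nat.mul du 21724) (Nat.mul kap 16384)))
    (Nat.blt (Nat.mul du 43285) (Nat.mul kap 41937))

theorem band_aux {a b : Bool} (h : @Bool.rec (fun _ => Bool) false a b = true) :
    b = true ∧ a = true := by
  cases b
  · exact absurd h Bool.false_ne_true
  · exact ⟨rfl, h⟩

/-- The positive parts. -/
def g5 (du kap : Nat) : Nat :=
  mx (Nat.sub (Nat.mul du 1995) (Nat.mul kap 1364))
    (mx (Nat.sub (Nat.mul du 15117) (Nat.mul kap 10679))
      (mx (Nat.sub (Nat.mul du 17547) (Nat.mul kap 12683))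
        (mx (Nat.sub (Nat.mul du 21724) (Nat.mul kap 16384))
          (Nat.sub (Nat.mul du 43285) (Nat.mul kap 41937)))))

/-- The quadratic coefficient. -/
def q5 (u du kap : Nat) : Nat :=
  mx (gj u 1995 (Nat.sub (Nat.mul kap 1364) (Nat.mul du 1995)))
    (mx (gj u 15117 (Nat.sub (Nat.mul kap 10679) (Nat.mul du 15117)))
      (mx (gj u 17547 (Nat.sub (Nat.mul kap 12683) (Nat.mul du 17547)))
        (mx (gj u 21724 (Nat.sub (Nat.mul kap 16384) (Nat.mul du 21724)))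
          (gj u 43285 (Nat.sub (Nat.mul kap 41937) (Nat.mul du 43285))))))

/-- The leaf value before multiplication with the weight. -/
def leaf2 (S0 M V u du kap nk : Nat) : Nat :=
  @Bool.rec (fun _ => Nat)
    (Nat.add (Nat.mul (Nat.add (g5 du kap) (Nat.mul nk 43285)) S0)
      (Nat.mul (Nat.mul u 43285) M))
    (mn (Nat.mul (Nat.mul u 43285) M) (Nat.mul (q5 u du kap) V))
    (c5 du kap nk)

/-- The same, with the auxiliary quantities. -/
def leaf1 (S0 M V u vG : Nat) : Nat :=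
  leaf2 S0 M V u (Nat.sub u sc) (Nat.div (Nat.sub (Nat.mul 13 sc) (Nat.mul 9 vG)) 4)
    (cdiv (Nat.sub (Nat.mul 9 vG) (Nat.mul 13 sc)) 4)

/-- The leaf value. -/
def leaf (S0 M V G w u v : Nat) : Nat :=
  cdiv (Nat.mul w (cdiv (leaf1 S0 M V u (cdiv (Nat.mul v G) sc)) sc)) sc

/-! ### The function to be bounded -/

/-- `25600` times the gain. -/
noncomputable def gn' (F G : ℝ) : ℝ := 25600 * gn (F - 1) (1 - 9 / 4 * (G - 1))

theorem gn'_nonneg (F G : ℝ) : 0 ≤ gn' F G := by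
  unfold gn' gn
  positivity

theorem gn'_le_iff {F G b : ℝ} (h0 : 0 ≤ b)
    (h1 : (F - 1) * 1995 - max (1 - 9 / 4 * (G - 1)) 0 * 1364 ≤ b)
    (h2 : (F - 1) * 15117 - max (1 - 9 / 4 * (G - 1)) 0 * 10679 ≤ b)
    (h3 : (F - 1) * 17547 - max (1 - 9 / 4 * (G - 1)) 0 * 12683 ≤ b)
    (h4 : (F - 1) * 21724 - max (1 - 9 / 4 * (G - 1)) 0 * 16384 ≤ b)
    (h5 : (F - 1) * 43285 - max (1 - 9 / 4 * (G - 1)) 0 * 41937 ≤ b) {n : ℝ}
    (hn : -(1 - 9 / 4 * (G - 1)) ≤ n) (hn0 : 0 ≤ n) : gn' F G ≤ b + n * 43285 := by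
  unfold gn' gn
  have h6 : max 0 (max ((F - 1) * 1995 - max (1 - 9 / 4 * (G - 1)) 0 * 1364)
    (max ((F - 1) * 15117 - max (1 - 9 / 4 * (G - 1)) 0 * 10679)
    (max ((F - 1) * 17547 - max (1 - 9 / 4 * (G - 1)) 0 * 12683)
    (max ((F - 1) * 21724 - max (1 - 9 / 4 * (G - 1)) 0 * 16384)
      ((F - 1) * 43285 - max (1 - 9 / 4 * (G - 1)) 0 * 41937))))) ≤ b :=
    max_le h0 (max_le h1 (max_le h2 (max_le h3 (max_le h4 h5))))
  have h7 : max (-(1 - 9 / 4 * (G - 1))) 0 ≤ n := max_le hn hn0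
  linarith

theorem gn_mono {F F' κ κ' : ℝ} (hF : F ≤ F') (hκ : κ' ≤ κ) : gn F κ ≤ gn F' κ' := by
  unfold gn
  have h1 : max κ' 0 ≤ max κ 0 := max_le_max hκ le_rfl
  have h2 : max (-κ) 0 ≤ max (-κ') 0 := max_le_max (by linarith) le_rfl
  have h3 : max 0 (max (F * 1995 - max κ 0 * 1364) (max (F * 15117 - max κ 0 * 10679)
    (max (F * 17547 - max κ 0 * 12683) (max (F * 21724 - max κ 0 * 16384)
      (F * 43285 - max κ 0 * 41937))))) ≤
    max 0 (max (F' * 1995 - max κ' 0 * 1364) (max (F' * 15117 - max κ' 0 * 10679)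
    (max (F' * 17547 - max κ' 0 * 12683) (max (F' * 21724 - max κ' 0 * 16384)
      (F' * 43285 - max κ' 0 * 41937))))) := by
    apply max_le_max le_rfl
    apply max_le_max (by linarith)
    apply max_le_max (by linarith)
    apply max_le_max (by linarith)
    apply max_le_max (by linarith) (by linarith)
  linarith

theorem gn'_mono {F F' G G' : ℝ} (hF : F ≤ F') (hG : G ≤ G') : gn' F G ≤ gn' F' G' := by
  unfold gn'
  have := gn_mono (F := F - 1) (F' := F' - 1) (κ := 1 - 9 / 4 * (G - 1))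
    (κ' := 1 - 9 / 4 * (G' - 1)) (by linarith) (by linarith)
  linarith

/-! ### Leaf bound -/

theorem term_lin {A d H D k κp δ U F : ℝ} (hF : F ≤ d + U * δ) (hH : 0 ≤ H) (hD : 0 ≤ D)
    (hk : k ≤ κp) (hA : d * H - k * D ≤ A) : F * H - κp * D ≤ A + U * H * δ := by
  have h1 : F * H ≤ (d + U * δ) * H := mul_le_mul_of_nonneg_right hF hH
  have h2 : k * D ≤ κp * D := mul_le_mul_of_nonneg_right hk hD
  nlinarith

/-- Arithmetic–geometric mean step. -/
theorem term_quad {n B δ : ℝ} (hn : 0 < n) : -n + B * δ ≤ B ^ 2 / (4 * n) * δ ^ 2 := by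
  have h : 0 ≤ (B * δ - 2 * n) ^ 2 := sq_nonneg _
  have h4 : 0 < 4 * n := by linarith
  have : B ^ 2 / (4 * n) * δ ^ 2 = (B * δ) ^ 2 / (4 * n) := by ring
  rw [this, le_div_iff₀ h4]
  nlinarith

theorem nat_sub_ge (a b : ℕ) : (a : ℝ) - b ≤ ((Nat.sub a b : ℕ) : ℝ) := by
  change (a : ℝ) - b ≤ ((a - b : ℕ) : ℝ)
  rcases le_total b a with h | h
  · rw [Nat.cast_sub h]
  · rw [Nat.sub_eq_zero_of_le h]
    have : (a : ℝ) ≤ b := by exact_mod_cast h
    push_cast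
    linarith

theorem nat_sub_eq {a b : ℕ} (h : Nat.blt b a = true) :
    ((Nat.sub a b : ℕ) : ℝ) = (a : ℝ) - b ∧ 0 < Nat.sub a b := by
  have h1 : b < a := by simpa [Nat.blt_eq] using h
  constructor
  · change ((a - b : ℕ) : ℝ) = _
    rw [Nat.cast_sub h1.le]
  · change 0 < a - b
    omega

theorem c5_spec {du kap nk : ℕ} (h : c5 du kap nk = true) :
    nk = 0 ∧ Nat.blt (du * 1995) (kap * 1364) = true ∧ Nat.blt (du * 15117) (kap * 10679) = true ∧
    Nat.blt (du * 17547) (kap * 12683) = true ∧ Nat.blt (du * 21724) (kap * 16384) = true ∧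
    Nat.blt (du * 43285) (kap * 41937) = true := by
  unfold c5 at h
  obtain ⟨e5, h⟩ := band_aux h
  obtain ⟨e4, h⟩ := band_aux h
  obtain ⟨e3, h⟩ := band_aux h
  obtain ⟨e2, h⟩ := band_aux h
  obtain ⟨e1, h⟩ := band_aux h
  exact ⟨by simpa using h, e1, e2, e3, e4, e5⟩

theorem du_le (u S : ℕ) (hS : 0 < S) : (u : ℝ) / S - 1 ≤ ((Nat.sub u S : ℕ) : ℝ) / S := by
  have hs : (0 : ℝ) < S := by exact_mod_cast hS
  have h := nat_sub_ge u S
  have : (u : ℝ) / S - 1 = ((u : ℝ) - S) / S := by field_simp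
  rw [this]
  exact div_le_div_of_nonneg_right h hs.le

theorem vG_le (v G S : ℕ) (hS : 0 < S) :
    (v : ℝ) / S * ((G : ℝ) / S) ≤ ((cdiv (Nat.mul v G) S : ℕ) : ℝ) / S := by
  have hs : (0 : ℝ) < S := by exact_mod_cast hS
  have h := le_cdiv (v * G) hS
  have e : (v : ℝ) / S * ((G : ℝ) / S) = (((v * G : ℕ) : ℝ) / S) / S := by
    push_cast; field_simp
  rw [e]
  exact div_le_div_of_nonneg_right h hs.le

theorem kap_le (vG S : ℕ) (hS : 0 < S) :
    ((Nat.div (Nat.sub (Nat.mul 13 S) (Nat.mul 9 vG)) 4 : ℕ) : ℝ) / S ≤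
      max ((13 - 9 * ((vG : ℝ) / S)) / 4) 0 := by
  have hs : (0 : ℝ) < S := by exact_mod_cast hS
  change (((13 * S - 9 * vG) / 4 : ℕ) : ℝ) / S ≤ _
  rcases le_total (9 * vG) (13 * S) with h | h
  · have h1 : (13 * S - 9 * vG) / 4 * 4 ≤ 13 * S - 9 * vG := Nat.div_mul_le_self _ _
    have h2 : (((13 * S - 9 * vG) / 4 * 4 : ℕ) : ℝ) ≤ ((13 * S - 9 * vG : ℕ) : ℝ) := by
      exact_mod_cast h1
    rw [Nat.cast_sub h, Nat.cast_mul] at h2
    push_cast at h2
    refine le_trans ?_ (le_max_left _ _)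
    rw [div_le_iff₀ hs]
    have : (13 - 9 * ((vG : ℝ) / S)) / 4 * S = (13 * S - 9 * vG) / 4 := by field_simp
    rw [this]
    linarith
  · rw [Nat.sub_eq_zero_of_le h]
    simp

theorem nk_ge (vG S : ℕ) (hS : 0 < S) : -((13 - 9 * ((vG : ℝ) / S)) / 4) ≤
    ((cdiv (Nat.sub (Nat.mul 9 vG) (Nat.mul 13 S)) 4 : ℕ) : ℝ) / S := by
  have hs : (0 : ℝ) < S := by exact_mod_cast hS
  have h1 := le_cdiv (9 * vG - 13 * S) (b := 4) (by norm_num)
  have h2 := nat_sub_ge (9 * vG) (13 * S)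
  change _ ≤ ((cdiv (9 * vG - 13 * S) 4 : ℕ) : ℝ) / S
  change _ ≤ ((9 * vG - 13 * S : ℕ) : ℝ) at h2
  rw [le_div_iff₀ hs]
  have : -((13 - 9 * ((vG : ℝ) / S)) / 4) * S = (9 * vG - 13 * S) / 4 := by field_simp; ring
  rw [this]
  rw [Nat.cast_mul, Nat.cast_mul] at h2
  push_cast at h2
  have h3 : ((9 * vG - 13 * S : ℝ)) / 4 ≤ ((9 * vG - 13 * S : ℕ) : ℝ) / 4 :=
    div_le_div_of_nonneg_right h2 (by norm_num)
  have h4 : ((4 : ℕ) : ℝ) = 4 := by norm_num
  rw [h4] at h1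
  linarith

/-- The pointwise hypotheses of the leaf bound. -/
structure Pt (L : List ℕ) (u v du kap nk S : ℕ) : Prop where
  hF : (u : ℝ) / S - 1 ≤ (du : ℝ) / S
  hk : ∀ G : ℝ, 0 ≤ G → G ≤ Gm L →
    (kap : ℝ) / S ≤ max (1 - 9 / 4 * ((v : ℝ) / S * G - 1)) 0
  hn : ∀ G : ℝ, 0 ≤ G → G ≤ Gm L →
    -(1 - 9 / 4 * ((v : ℝ) / S * G - 1)) ≤ (nk : ℝ) / S

theorem pt_of {L : List ℕ} {G0 S : ℕ} (hS : 0 < S) (hG : Gm L ≤ (G0 : ℝ) / S) (u v : ℕ) :
    Pt L u v (Nat.sub u S)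
      (Nat.div (Nat.sub (Nat.mul 13 S) (Nat.mul 9 (cdiv (Nat.mul v G0) S))) 4)
      (cdiv (Nat.sub (Nat.mul 9 (cdiv (Nat.mul v G0) S)) (Nat.mul 13 S)) 4) S := by
  have h1 := vG_le v G0 S hS
  have h2 := kap_le (cdiv (Nat.mul v G0) S) S hS
  have h3 := nk_ge (cdiv (Nat.mul v G0) S) S hS
  have e1 : ∀ G : ℝ, 0 ≤ G → G ≤ Gm L →
      (v : ℝ) / S * G ≤ ((cdiv (Nat.mul v G0) S : ℕ) : ℝ) / S := by
    intro G hG0 hGm
    refine le_trans ?_ h1
    apply mul_le_mul_of_nonneg_left _ (by positivity)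
    exact le_trans hGm hG
  refine ⟨du_le u S hS, ?_, ?_⟩
  · intro G hG0 hGm
    have := e1 G hG0 hGm
    exact le_trans h2 (max_le_max (by linarith) le_rfl)
  · intro G hG0 hGm
    have := e1 G hG0 hGm
    linarith

theorem hdk {du kap S : ℕ} (hS : 0 < S) (H D : ℕ) :
    (du : ℝ) / S * H - (kap : ℝ) / S * D ≤ ((Nat.sub (du * H) (kap * D) : ℕ) : ℝ) / S := by
  have hs : (0 : ℝ) < S := by exact_mod_cast hS
  have h := nat_sub_ge (du * H) (kap * D)
  have e : (du : ℝ) / S * H - (kap : ℝ) / S * D =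
    (((du * H : ℕ) : ℝ) - ((kap * D : ℕ) : ℝ)) / S := by push_cast; field_simp
  rw [e]
  exact div_le_div_of_nonneg_right h hs.le

theorem tm_lin {L : List ℕ} {u v du kap nk S : ℕ} (hS : 0 < S) (hp : Pt L u v du kap nk S)
    {F G : ℝ} (hF : 1 ≤ F) (hG : 0 ≤ G) (hGm : G ≤ Gm L) {g : ℕ} (H D : ℕ) (hH : H ≤ 43285)
    (hg : Nat.sub (du * H) (kap * D) ≤ g) :
    ((u : ℝ) / S * F - 1) * H - max (1 - 9 / 4 * ((v : ℝ) / S * G - 1)) 0 * D ≤
      (g : ℝ) / S + (u : ℝ) * 43285 / S * (F - 1) := by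
  have hs : (0 : ℝ) < S := by exact_mod_cast hS
  have hδ : 0 ≤ F - 1 := by linarith
  have p1 : (u : ℝ) / S * F - 1 ≤ (du : ℝ) / S + (u : ℝ) / S * (F - 1) := by
    linarith [hp.hF]
  have hg' : ((Nat.sub (du * H) (kap * D) : ℕ) : ℝ) ≤ g := by exact_mod_cast hg
  have h2 := term_lin (A := (g : ℝ) / S) p1 (Nat.cast_nonneg H) (Nat.cast_nonneg D)
    (hp.hk G hG hGm) ((hdk hS H D).trans (div_le_div_of_nonneg_right hg' hs.le))
  refine h2.trans ?_
  have hH' : (H : ℝ) ≤ 43285 := by exact_mod_cast hH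
  have h3 : (u : ℝ) / S * H * (F - 1) ≤ (u : ℝ) / S * 43285 * (F - 1) := by
    apply mul_le_mul_of_nonneg_right _ hδ
    exact mul_le_mul_of_nonneg_left hH' (by positivity)
  have h4 : (u : ℝ) / S * 43285 * (F - 1) = (u : ℝ) * 43285 / S * (F - 1) := by ring
  linarith

theorem bound_one {L : List ℕ} (hL : Big L) {S0 M u v du kap nk S g : ℕ} (hS : 0 < S)
    (hp : Pt L u v du kap nk S) (h0 : m0 L ≤ (S0 : ℝ) / S) (h1 : m1 L ≤ (M : ℝ) / S)
    (g1 : Nat.sub (du * 1995) (kap * 1364) ≤ g) (g2 : Nat.sub (du * 15117) (kap * 10679) ≤ g)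
    (g3 : Nat.sub (du * 17547) (kap * 12683) ≤ g) (g4 : Nat.sub (du * 21724) (kap * 16384) ≤ g)
    (g5 : Nat.sub (du * 43285) (kap * 41937) ≤ g) :
    ES L (fun F G => gn' ((u : ℝ) / S * F) ((v : ℝ) / S * G)) ≤
      (((g + nk * 43285) * S0 + u * 43285 * M : ℕ) : ℝ) / (S : ℝ) ^ 2 := by
  have hs : (0 : ℝ) < S := by exact_mod_cast hS
  have e1 : ES L (fun F G => gn' ((u : ℝ) / S * F) ((v : ℝ) / S * G)) ≤
      ES L (fun F _ => (((g : ℝ) + nk * 43285) / S) * 1 + ((u : ℝ) * 43285 / S) * (F - 1)) := by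
    apply ES_mono hL
    intro F G hF hG hGm
    have hδ : 0 ≤ F - 1 := by linarith
    have hb0 : 0 ≤ (g : ℝ) / S + (u : ℝ) * 43285 / S * (F - 1) := by positivity
    have t1 := tm_lin hS hp hF hG hGm 1995 1364 (by norm_num) g1
    have t2 := tm_lin hS hp hF hG hGm 15117 10679 (by norm_num) g2
    have t3 := tm_lin hS hp hF hG hGm 17547 12683 (by norm_num) g3
    have t4 := tm_lin hS hp hF hG hGm 21724 16384 (by norm_num) g4
    have t5 := tm_lin hS hp hF hG hGm 43285 41937 (by norm_num) g5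
    push_cast at t1 t2 t3 t4 t5
    have := gn'_le_iff (F := (u : ℝ) / S * F) (G := (v : ℝ) / S * G) hb0 t1 t2 t3 t4 t5
      (hp.hn G hG hGm) (by positivity)
    refine this.trans (le_of_eq ?_)
    ring
  refine e1.trans ?_
  rw [ES_add, ES_mul, ES_mul]
  change ((g : ℝ) + nk * 43285) / S * m0 L + (u : ℝ) * 43285 / S * m1 L ≤ _
  have h2 : ((g : ℝ) + nk * 43285) / S * m0 L ≤ ((g : ℝ) + nk * 43285) / S * (S0 / S) :=
    mul_le_mul_of_nonneg_left h0 (by positivity)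
  have h3 : (u : ℝ) * 43285 / S * m1 L ≤ (u : ℝ) * 43285 / S * (M / S) :=
    mul_le_mul_of_nonneg_left h1 (by positivity)
  refine (add_le_add h2 h3).trans (le_of_eq ?_)
  push_cast
  field_simp

theorem quad_term {u H n S : ℕ} (hS : 0 < S) (hn : 0 < n) {δ : ℝ} :
    -((n : ℝ) / S) + (u : ℝ) / S * H * δ ≤ (gj u H n : ℝ) / S * δ ^ 2 := by
  have hs : (0 : ℝ) < S := by exact_mod_cast hS
  have hn' : (0 : ℝ) < n := by exact_mod_cast hn
  refine (term_quad (n := (n : ℝ) / S) (B := (u : ℝ) / S * H) (δ := δ) (by positivity)).trans ?_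
  apply mul_le_mul_of_nonneg_right _ (sq_nonneg δ)
  have h := le_cdiv (u * H * (u * H)) (b := 4 * n) (by omega)
  change _ ≤ (gj u H n : ℝ) at h
  have e : ((u : ℝ) / S * H) ^ 2 / (4 * ((n : ℝ) / S)) =
      (((u * H * (u * H) : ℕ) : ℝ) / ((4 * n : ℕ) : ℝ)) / S := by
    push_cast
    field_simp
  rw [e]
  exact div_le_div_of_nonneg_right h hs.le

theorem tm_quad {L : List ℕ} {u v du kap nk S : ℕ} (hS : 0 < S) (hp : Pt L u v du kap nk S)
    {F G : ℝ} (hG : 0 ≤ G) (hGm : G ≤ Gm L) {q : ℕ} (H D : ℕ)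
    (hlt : Nat.blt (du * H) (kap * D) = true)
    (hq : gj u H (Nat.sub (kap * D) (du * H)) ≤ q) :
    ((u : ℝ) / S * F - 1) * H - max (1 - 9 / 4 * ((v : ℝ) / S * G - 1)) 0 * D ≤
      (q : ℝ) / S * (F - 1) ^ 2 := by
  have hs : (0 : ℝ) < S := by exact_mod_cast hS
  have p1 : (u : ℝ) / S * F - 1 ≤ (du : ℝ) / S + (u : ℝ) / S * (F - 1) := by
    linarith [hp.hF]
  obtain ⟨s1, s2⟩ := nat_sub_eq hlt
  have h2 := term_lin (A := -(((Nat.sub (kap * D) (du * H) : ℕ) : ℝ) / S)) p1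
    (Nat.cast_nonneg H) (Nat.cast_nonneg D) (hp.hk G hG hGm) (by
      rw [s1]; push_cast
      apply le_of_eq
      field_simp
      ring)
  refine h2.trans ((quad_term hS s2).trans ?_)
  apply mul_le_mul_of_nonneg_right _ (sq_nonneg _)
  apply div_le_div_of_nonneg_right _ hs.le
  exact_mod_cast hq

theorem bound_two {L : List ℕ} (hL : Big L) {V u v du kap S q : ℕ} (hS : 0 < S)
    (hp : Pt L u v du kap 0 S) (h2 : m2 L ≤ (V : ℝ) / S)
    (e1 : Nat.blt (du * 1995) (kap * 1364) = true)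
    (e2 : Nat.blt (du * 15117) (kap * 10679) = true)
    (e3 : Nat.blt (du * 17547) (kap * 12683) = true)
    (e4 : Nat.blt (du * 21724) (kap * 16384) = true)
    (e5 : Nat.blt (du * 43285) (kap * 41937) = true)
    (q1 : gj u 1995 (Nat.sub (kap * 1364) (du * 1995)) ≤ q)
    (q2 : gj u 15117 (Nat.sub (kap * 10679) (du * 15117)) ≤ q)
    (q3 : gj u 17547 (Nat.sub (kap * 12683) (du * 17547)) ≤ q)
    (q4 : gj u 21724 (Nat.sub (kap * 16384) (du * 21724)) ≤ q)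
    (q5 : gj u 43285 (Nat.sub (kap * 41937) (du * 43285)) ≤ q) :
    ES L (fun F G => gn' ((u : ℝ) / S * F) ((v : ℝ) / S * G)) ≤
      ((q * V : ℕ) : ℝ) / (S : ℝ) ^ 2 := by
  have hs : (0 : ℝ) < S := by exact_mod_cast hS
  have h1 : ES L (fun F G => gn' ((u : ℝ) / S * F) ((v : ℝ) / S * G)) ≤
      ES L (fun F _ => ((q : ℝ) / S) * (F - 1) ^ 2) := by
    apply ES_mono hL
    intro F G hF hG hGm
    have t1 := tm_quad (F := F) hS hp hG hGm 1995 1364 e1 q1
    have t2 := tm_quad (F := F) hS hp hG hGm 15117 10679 e2 q2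
    have t3 := tm_quad (F := F) hS hp hG hGm 17547 12683 e3 q3
    have t4 := tm_quad (F := F) hS hp hG hGm 21724 16384 e4 q4
    have t5 := tm_quad (F := F) hS hp hG hGm 43285 41937 e5 q5
    push_cast at t1 t2 t3 t4 t5
    have hb0 : 0 ≤ (q : ℝ) / S * (F - 1) ^ 2 := by positivity
    have := gn'_le_iff (F := (u : ℝ) / S * F) (G := (v : ℝ) / S * G) hb0 t1 t2 t3 t4 t5
      (hp.hn G hG hGm) (by positivity)
    simpa using this
  refine h1.trans ?_
  rw [ES_mul]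
  change (q : ℝ) / S * m2 L ≤ _
  refine (mul_le_mul_of_nonneg_left h2 (by positivity)).trans (le_of_eq ?_)
  push_cast
  field_simp

theorem leaf2_sound {L : List ℕ} (hL : Big L) {S0 M V u v du kap nk S : ℕ} (hS : 0 < S)
    (hp : Pt L u v du kap nk S) (h0 : m0 L ≤ (S0 : ℝ) / S) (h1 : m1 L ≤ (M : ℝ) / S)
    (h2 : m2 L ≤ (V : ℝ) / S) :
    ES L (fun F G => gn' ((u : ℝ) / S * F) ((v : ℝ) / S * G)) ≤
      (leaf2 S0 M V u du kap nk : ℝ) / (S : ℝ) ^ 2 := by
  have z1 := bound_one (g := g5 du kap) hL hS hp h0 h1 (le_mx_left _ _)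
    ((le_mx_left _ _).trans (le_mx_right _ _))
    ((le_mx_left _ _).trans ((le_mx_right _ _).trans (le_mx_right _ _)))
    ((le_mx_left _ _).trans ((le_mx_right _ _).trans ((le_mx_right _ _).trans
        (le_mx_right _ _))))
    ((le_mx_right _ _).trans ((le_mx_right _ _).trans ((le_mx_right _ _).trans
        (le_mx_right _ _))))
  cases hc : c5 du kap nk
  · have e : leaf2 S0 M V u du kap nk = (g5 du kap + nk * 43285) * S0 + u * 43285 * M := by
      unfold leaf2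
      rw [hc]
      rfl
    rw [e]
    exact z1
  · obtain ⟨n0, e1, e2, e3, e4, e5⟩ := c5_spec hc
    subst n0
    have e : leaf2 S0 M V u du kap 0 = mn (u * 43285 * M) (q5 u du kap * V) := by
      unfold leaf2
      rw [hc]
      rfl
    rw [e]
    have z : ∀ H D : ℕ, Nat.blt (du * H) (kap * D) = true → Nat.sub (du * H) (kap * D) ≤ 0 := by
      intro H D h
      have h1 : du * H < kap * D := by simpa [Nat.blt_eq] using h
      change du * H - kap * D ≤ 0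
      omega
    rcases mn_cases (u * 43285 * M) (q5 u du kap * V) with h | h
    · rw [h]
      have := bound_one (g := 0) hL hS hp h0 h1 (z _ _ e1) (z _ _ e2) (z _ _ e3) (z _ _ e4)
        (z _ _ e5)
      simpa using this
    · rw [h]
      exact bound_two hL hS hp h2 e1 e2 e3 e4 e5 (le_mx_left _ _)
        ((le_mx_left _ _).trans (le_mx_right _ _))
        ((le_mx_left _ _).trans ((le_mx_right _ _).trans (le_mx_right _ _)))
        ((le_mx_left _ _).trans ((le_mx_right _ _).trans ((le_mx_right _ _).trans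
          (le_mx_right _ _))))
        ((le_mx_right _ _).trans ((le_mx_right _ _).trans ((le_mx_right _ _).trans
          (le_mx_right _ _))))

theorem sc_posn : 0 < sc := by unfold sc; norm_num

theorem leaf_core {L : List ℕ} (hL : Big L) {t : T4} (ht : TB L t) (u v : ℕ) :
    ES L (fun F G => gn' ((u : ℝ) / sc * F) ((v : ℝ) / sc * G)) ≤
      (leaf1 t.S0 t.M t.V u (cdiv (Nat.mul v t.G) sc) : ℝ) / (sc : ℝ) ^ 2 :=
  leaf2_sound hL sc_posn (pt_of sc_posn ht.hG u v) ht.h0 ht.h1 ht.h2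

/-- The statement proved by the enumeration. -/
def Ok (L : List ℕ) (w u v r : ℕ) : Prop :=
  (w : ℝ) / sc * ES L (fun F G => gn' ((u : ℝ) / sc * F) ((v : ℝ) / sc * G)) ≤ (r : ℝ) / sc

theorem leaf_ok {L : List ℕ} (hL : Big L) {t : T4} (ht : TB L t) (w u v : ℕ) :
    Ok L w u v (leaf t.S0 t.M t.V t.G w u v) := by
  have hs := sc_pos
  have hsn : 0 < sc := sc_posn
  unfold Ok leaf
  set l1 := leaf1 t.S0 t.M t.V u (cdiv (Nat.mul v t.G) sc) with hl1
  have h1 := leaf_core hL ht u v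
  rw [← hl1] at h1
  have h2 := le_cdiv l1 hsn
  have h3 := le_cdiv (Nat.mul w (cdiv l1 sc)) hsn
  have h4 : (w : ℝ) / sc * ((l1 : ℝ) / (sc : ℝ) ^ 2) = ((w : ℝ) * ((l1 : ℝ) / sc) / sc) / sc := by
    field_simp
  refine (mul_le_mul_of_nonneg_left h1 (by positivity)).trans ?_
  rw [h4]
  apply div_le_div_of_nonneg_right _ hs.le
  refine le_trans ?_ h3
  change _ ≤ ((w * cdiv l1 sc : ℕ) : ℝ) / sc
  push_cast
  apply div_le_div_of_nonneg_right _ hs.le
  exact mul_le_mul_of_nonneg_left h2 (by positivity)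

/-! ### The enumeration -/

/-- A node: a prime with the moment bounds of the list starting with it. -/
structure Node where
  p : Nat
  S0 : Nat
  M : Nat
  V : Nat
  G : Nat

/-- The enumeration with three states per prime. -/
noncomputable def dfs (fS fM fV fG : Nat) (l : List Node) : Nat → Nat → Nat → Nat :=
  @List.rec Node (fun _ => Nat → Nat → Nat → Nat) (fun w u v => leaf fS fM fV fG w u v)
    (fun nd _ ih w u v => @Bool.rec (fun _ => Nat)
      (Nat.add (ih (cdiv (Nat.mul w (Nat.sub nd.p 1)) nd.p) u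
          (cdiv (Nat.mul v (Nat.add (Nat.pow nd.p 8) (Nat.add (Nat.pow nd.p 6)
            (Nat.add (Nat.pow nd.p 2) 1)))) (Nat.pow nd.p 8)))
        (Nat.add (ih (cdiv (Nat.mul w (Nat.sub nd.p 1)) (Nat.pow nd.p 2))
          (cdiv (Nat.mul u (Nat.add nd.p 1)) nd.p)
          (cdiv (Nat.mul v (Nat.add (Nat.pow nd.p 6) 1)) (Nat.pow nd.p 6)))
         (ih (cdiv (Nat.mul w (Nat.mul (Nat.sub nd.p 1) (Nat.add nd.p 1))) (Nat.pow nd.p 5))
          (cdiv (Nat.mul u (Nat.mul (Nat.add nd.p 1) (Nat.add (Nat.pow nd.p 3) 1))) (Nat.pow nd.p 4))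
          (cdiv (Nat.mul v (Nat.add (Nat.pow nd.p 2) 1)) (Nat.pow nd.p 2)))))
      (leaf nd.S0 nd.M nd.V nd.G w u v)
      (Nat.blt w 1000000)) l

theorem mulr {a num den : ℕ} {r : ℝ} (hden : 0 < den) (hr : r * den = num) :
    (a : ℝ) / sc * r ≤ (cdiv (a * num) den : ℝ) / sc := by
  have hs := sc_pos
  have hd : (0 : ℝ) < den := by exact_mod_cast hden
  have h := le_cdiv (a * num) hden
  have e : (a : ℝ) / sc * r = (((a * num : ℕ) : ℝ) / den) / sc := by
    push_cast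
    rw [← hr]
    field_simp
  rw [e]
  exact div_le_div_of_nonneg_right h hs.le

/-- Monotonicity of the expectation in the scaling factors. -/
theorem ES_scale {L : List ℕ} (hL : Big L) {u v u' v' : ℝ} (hu : u ≤ u') (hv : v ≤ v') :
    ES L (fun F G => gn' (u * F) (v * G)) ≤ ES L (fun F G => gn' (u' * F) (v' * G)) := by
  apply ES_mono hL
  intro F G hF hG _
  exact gn'_mono (mul_le_mul_of_nonneg_right hu (by linarith)) (mul_le_mul_of_nonneg_right hv hG)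

theorem ES_gn_nonneg {L : List ℕ} (hL : Big L) (u v : ℝ) :
    0 ≤ ES L (fun F G => gn' (u * F) (v * G)) :=
  ES_nonneg hL (fun _ _ _ _ _ => gn'_nonneg _ _)

/-- One summand of a step. -/
theorem one_state {L : List ℕ} (hL : Big L) {w u v w' u' v' r : ℕ} {a b c : ℝ}
    (hw : (w : ℝ) / sc * a ≤ (w' : ℝ) / sc) (hu : (u : ℝ) / sc * b ≤ (u' : ℝ) / sc)
    (hv : (v : ℝ) / sc * c ≤ (v' : ℝ) / sc) (h : Ok L w' u' v' r) :
    (w : ℝ) / sc * (a * ES L (fun F G => gn' ((u : ℝ) / sc * (b * F)) ((v : ℝ) / sc * (c * G)))) ≤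
      (r : ℝ) / sc := by
  have hs := sc_pos
  have e : (fun F G => gn' ((u : ℝ) / sc * (b * F)) ((v : ℝ) / sc * (c * G))) =
      (fun F G => gn' ((u : ℝ) / sc * b * F) ((v : ℝ) / sc * c * G)) := by
    funext F G
    rw [mul_assoc, mul_assoc]
  rw [e, ← mul_assoc]
  refine le_trans ?_ h
  apply mul_le_mul hw (ES_scale hL hu hv) (ES_gn_nonneg hL _ _) (by positivity)

theorem step_expand (p : ℕ) (L : List ℕ) (w u v : ℝ) (x : ℝ) (hx : x = 1 / (p : ℝ)) :
    w * ES (p :: L) (fun F G => gn' (u * F) (v * G)) =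
      w * ((1 - x) * ES L (fun F G => gn' (u * (1 * F)) (v * ((1 + x ^ 2 + x ^ 6 + x ^ 8) * G)))) +
      w * ((1 - x) * x * ES L (fun F G => gn' (u * ((1 + x) * F)) (v * ((1 + x ^ 6) * G)))) +
      w * ((1 - x) * x ^ 3 * ES L (fun F G => gn' (u * ((1 + x ^ 3) * F)) (v * ((1 + x ^ 2) * G)))) +
      w * ((1 - x) * x ^ 4 * ES L (fun F G => gn' (u * ((1 + x) * (1 + x ^ 3) * F))
        (v * (1 * G)))) := by
  rw [ES_cons, ← hx, sum_states (fun s => ES L (fun F G => gn' (u * (fg x s * F)) (v * (gg x s * G))))]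
  simp only [fg0, fg1, fg3, fg4, gg0, gg1, gg3, gg4]
  ring

theorem pcast {p : ℕ} (hp : 2 ≤ p) : ((p - 1 : ℕ) : ℝ) = p - 1 := by
  rw [Nat.cast_sub (by omega)]; norm_num

/-- The step with four states. -/
theorem step4 {p : ℕ} (hp : 2 ≤ p) {L : List ℕ} (hL : Big L) {w u v r0 r1 r3 r4 : ℕ}
    (h0 : Ok L (cdiv (w * (p - 1)) p) u (cdiv (v * (p ^ 8 + (p ^ 6 + (p ^ 2 + 1)))) (p ^ 8)) r0)
    (h1 : Ok L (cdiv (w * (p - 1)) (p ^ 2)) (cdiv (u * (p + 1)) p)
      (cdiv (v * (p ^ 6 + 1)) (p ^ 6)) r1)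
    (h3 : Ok L (cdiv (w * (p - 1)) (p ^ 4)) (cdiv (u * (p ^ 3 + 1)) (p ^ 3))
      (cdiv (v * (p ^ 2 + 1)) (p ^ 2)) r3)
    (h4 : Ok L (cdiv (w * (p - 1)) (p ^ 5)) (cdiv (u * ((p + 1) * (p ^ 3 + 1))) (p ^ 4)) v r4) :
    Ok (p :: L) w u v (r0 + r1 + r3 + r4) := by
  have hs := sc_pos
  have hp0 : 0 < p := by omega
  have hpr : (0 : ℝ) < p := by exact_mod_cast hp0
  have hpc := pcast hp
  unfold Ok
  rw [step_expand p L _ _ _ (1 / (p : ℝ)) rfl]
  have a0 := one_state hL (w := w) (u := u) (v := v) (a := 1 - 1 / (p : ℝ)) (b := 1)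
    (c := 1 + (1 / (p : ℝ)) ^ 2 + (1 / (p : ℝ)) ^ 6 + (1 / (p : ℝ)) ^ 8)
    (mulr hp0 (by rw [hpc]; field_simp)) (by rw [mul_one])
    (mulr (by positivity) (by push_cast; field_simp; ring)) h0
  have a1 := one_state hL (w := w) (u := u) (v := v) (a := (1 - 1 / (p : ℝ)) * (1 / (p : ℝ)))
    (b := 1 + 1 / (p : ℝ)) (c := 1 + (1 / (p : ℝ)) ^ 6)
    (mulr (by positivity) (by rw [hpc]; push_cast; field_simp))
    (mulr hp0 (by push_cast; field_simp))
    (mulr (by positivity) (by push_cast; field_simp)) h1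
  have a3 := one_state hL (w := w) (u := u) (v := v)
    (a := (1 - 1 / (p : ℝ)) * (1 / (p : ℝ)) ^ 3)
    (b := 1 + (1 / (p : ℝ)) ^ 3) (c := 1 + (1 / (p : ℝ)) ^ 2)
    (mulr (by positivity) (by rw [hpc]; push_cast; field_simp))
    (mulr (by positivity) (by push_cast; field_simp))
    (mulr (by positivity) (by push_cast; field_simp)) h3
  have a4 := one_state hL (w := w) (u := u) (v := v)
    (a := (1 - 1 / (p : ℝ)) * (1 / (p : ℝ)) ^ 4)
    (b := (1 + 1 / (p : ℝ)) * (1 + (1 / (p : ℝ)) ^ 3)) (c := 1)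
    (mulr (by positivity) (by rw [hpc]; push_cast; field_simp))
    (mulr (by positivity) (by push_cast; field_simp))
    (by rw [mul_one]) h4
  push_cast
  rw [add_div, add_div, add_div]
  exact add_le_add (add_le_add (add_le_add a0 a1) a3) a4

/-- The step with three states. -/
theorem step3 {p : ℕ} (hp : 2 ≤ p) {L : List ℕ} (hL : Big L) {w u v r0 r1 r3 : ℕ}
    (h0 : Ok L (cdiv (w * (p - 1)) p) u (cdiv (v * (p ^ 8 + (p ^ 6 + (p ^ 2 + 1)))) (p ^ 8)) r0)
    (h1 : Ok L (cdiv (w * (p - 1)) (p ^ 2)) (cdiv (u * (p + 1)) p)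
      (cdiv (v * (p ^ 6 + 1)) (p ^ 6)) r1)
    (h3 : Ok L (cdiv (w * ((p - 1) * (p + 1))) (p ^ 5)) (cdiv (u * ((p + 1) * (p ^ 3 + 1))) (p ^ 4))
      (cdiv (v * (p ^ 2 + 1)) (p ^ 2)) r3) :
    Ok (p :: L) w u v (r0 + (r1 + r3)) := by
  have hs := sc_pos
  have hp0 : 0 < p := by omega
  have hpr : (0 : ℝ) < p := by exact_mod_cast hp0
  have hpc := pcast hp
  unfold Ok
  rw [step_expand p L _ _ _ (1 / (p : ℝ)) rfl]
  have a0 := one_state hL (w := w) (u := u) (v := v) (a := 1 - 1 / (p : ℝ)) (b := 1)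
    (c := 1 + (1 / (p : ℝ)) ^ 2 + (1 / (p : ℝ)) ^ 6 + (1 / (p : ℝ)) ^ 8)
    (mulr hp0 (by rw [hpc]; field_simp)) (by rw [mul_one])
    (mulr (by positivity) (by push_cast; field_simp; ring)) h0
  have a1 := one_state hL (w := w) (u := u) (v := v) (a := (1 - 1 / (p : ℝ)) * (1 / (p : ℝ)))
    (b := 1 + 1 / (p : ℝ)) (c := 1 + (1 / (p : ℝ)) ^ 6)
    (mulr (by positivity) (by rw [hpc]; push_cast; field_simp))
    (mulr hp0 (by push_cast; field_simp))
    (mulr (by positivity) (by push_cast; field_simp)) h1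
  set x : ℝ := 1 / (p : ℝ) with hx
  have hx0 : 0 ≤ x := by positivity
  have hx1 : 0 ≤ 1 - x := by have := (inv_mem hp).2; rw [hx]; linarith
  have a3 := one_state hL (w := w) (u := u) (v := v)
    (a := (1 - x) * x ^ 3 + (1 - x) * x ^ 4)
    (b := (1 + x) * (1 + x ^ 3)) (c := 1 + x ^ 2)
    (mulr (by positivity) (by rw [hx]; push_cast; rw [hpc]; field_simp))
    (mulr (by positivity) (by rw [hx]; push_cast; field_simp))
    (mulr (by positivity) (by rw [hx]; push_cast; field_simp)) h3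
  have hw : 0 ≤ (w : ℝ) / sc := by positivity
  have hu : 0 ≤ (u : ℝ) / sc := by positivity
  have hv : 0 ≤ (v : ℝ) / sc := by positivity
  have b3 : ES L (fun F G => gn' ((u : ℝ) / sc * ((1 + x ^ 3) * F))
        ((v : ℝ) / sc * ((1 + x ^ 2) * G))) ≤
      ES L (fun F G => gn' ((u : ℝ) / sc * ((1 + x) * (1 + x ^ 3) * F))
        ((v : ℝ) / sc * ((1 + x ^ 2) * G))) := by
    apply ES_mono hL
    intro F G hF hG _
    apply gn'_mono _ le_rfl
    apply mul_le_mul_of_nonneg_left _ hu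
    apply mul_le_mul_of_nonneg_right _ (by linarith)
    have : 0 ≤ x * (1 + x ^ 3) := by positivity
    linarith
  have b4 : ES L (fun F G => gn' ((u : ℝ) / sc * ((1 + x) * (1 + x ^ 3) * F))
        ((v : ℝ) / sc * (1 * G))) ≤
      ES L (fun F G => gn' ((u : ℝ) / sc * ((1 + x) * (1 + x ^ 3) * F))
        ((v : ℝ) / sc * ((1 + x ^ 2) * G))) := by
    apply ES_mono hL
    intro F G hF hG _
    apply gn'_mono le_rfl
    apply mul_le_mul_of_nonneg_left _ hv
    apply mul_le_mul_of_nonneg_right _ hG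
    have : 0 ≤ x ^ 2 := by positivity
    linarith
  have c3 := mul_le_mul_of_nonneg_left (mul_le_mul_of_nonneg_left b3
    (by positivity : 0 ≤ (1 - x) * x ^ 3)) hw
  have c4 := mul_le_mul_of_nonneg_left (mul_le_mul_of_nonneg_left b4
    (by positivity : 0 ≤ (1 - x) * x ^ 4)) hw
  push_cast
  rw [add_div, add_div]
  have c5 : (w : ℝ) / sc * (((1 - x) * x ^ 3 + (1 - x) * x ^ 4) *
      ES L (fun F G => gn' ((u : ℝ) / sc * ((1 + x) * (1 + x ^ 3) * F))
        ((v : ℝ) / sc * ((1 + x ^ 2) * G)))) =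
      (w : ℝ) / sc * ((1 - x) * x ^ 3 *
      ES L (fun F G => gn' ((u : ℝ) / sc * ((1 + x) * (1 + x ^ 3) * F))
        ((v : ℝ) / sc * ((1 + x ^ 2) * G)))) +
      (w : ℝ) / sc * ((1 - x) * x ^ 4 *
      ES L (fun F G => gn' ((u : ℝ) / sc * ((1 + x) * (1 + x ^ 3) * F))
        ((v : ℝ) / sc * ((1 + x ^ 2) * G)))) := by ring
  rw [c5] at a3
  linarith

/-- The nodes are valid for the list `L`. -/
def Valid (fin : T4) : List Node → List ℕ → Prop
  | [], L => TB L fin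
  | nd :: ns, L => ∃ L', L = nd.p :: L' ∧ TB L ⟨nd.S0, nd.M, nd.V, nd.G⟩ ∧ Valid fin ns L'

theorem dfs_ok (fin : T4) (ns : List Node) : ∀ (L : List ℕ), Big L → Valid fin ns L →
    ∀ w u v : ℕ, Ok L w u v (dfs fin.S0 fin.M fin.V fin.G ns w u v) := by
  induction ns with
  | nil =>
    intro L hL hV w u v
    exact leaf_ok hL hV w u v
  | cons nd ns ih =>
    intro L hL hV w u v
    obtain ⟨L', rfl, hT, hV'⟩ := hV
    have hp : 2 ≤ nd.p := hL _ (by simp)
    have hL' : Big L' := fun q hq => hL q (by simp [hq])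
    have e : dfs fin.S0 fin.M fin.V fin.G (nd :: ns) w u v = @Bool.rec (fun _ => Nat)
      (dfs fin.S0 fin.M fin.V fin.G ns (cdiv (w * (nd.p - 1)) nd.p) u
          (cdiv (v * (nd.p ^ 8 + (nd.p ^ 6 + (nd.p ^ 2 + 1)))) (nd.p ^ 8)) +
        (dfs fin.S0 fin.M fin.V fin.G ns (cdiv (w * (nd.p - 1)) (nd.p ^ 2))
          (cdiv (u * (nd.p + 1)) nd.p)
          (cdiv (v * (nd.p ^ 6 + 1)) (nd.p ^ 6)) +
         dfs fin.S0 fin.M fin.V fin.G ns (cdiv (w * ((nd.p - 1) * (nd.p + 1))) (nd.p ^ 5))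
          (cdiv (u * ((nd.p + 1) * (nd.p ^ 3 + 1))) (nd.p ^ 4))
          (cdiv (v * (nd.p ^ 2 + 1)) (nd.p ^ 2))))
      (leaf nd.S0 nd.M nd.V nd.G w u v)
      (Nat.blt w 1000000) := rfl
    rw [e]
    cases Nat.blt w 1000000
    · exact step3 hp hL' (ih L' hL' hV' _ _ _) (ih L' hL' hV' _ _ _) (ih L' hL' hV' _ _ _)
    · exact leaf_ok hL hT w u v

theorem Ok.mono {L : List ℕ} {w u v r r' : ℕ} (h : Ok L w u v r) (hr : r ≤ r') :
    Ok L w u v r' := by
  have hs := sc_pos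
  unfold Ok at h ⊢
  refine h.trans (div_le_div_of_nonneg_right ?_ hs.le)
  exact_mod_cast hr

end Pool.Agent.Lib.MP_f8fa1d_co.Num
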