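import Pool.Agent.Lib.MP_f8fa1d_co.Num.Bridge

/-!
# Expectations over exponent vectors: recursion, monotonicity, leaf bound
-/

namespace Pool.Agent.Lib.MP_f8fa1d_co.Num

open Pool.Agent.Lib.MP_f8fa1d_co

/-- All entries are at least `2`. -/
def Big (L : List ℕ) : Prop := ∀ q ∈ L, 2 ≤ q

theorem inv_mem {q : ℕ} (hq : 2 ≤ q) : 0 ≤ 1 / (q : ℝ) ∧ 1 / (q : ℝ) ≤ 1 / 2 := by
  have h : (2 : ℝ) ≤ q := by exact_mod_cast hq
  refine ⟨by positivity, ?_⟩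
  exact one_div_le_one_div_of_le (by norm_num) h

theorem wg_nonneg {x : ℝ} (h0 : 0 ≤ x) (h1 : x ≤ 1 / 2) (s : Fin 9) : 0 ≤ wg x s := by
  unfold wg
  split_ifs
  · exact mul_nonneg (by linarith) (pow_nonneg h0 _)
  · exact le_rfl

/-- Upper bound for the products of `gg`. -/
noncomputable def Gm (L : List ℕ) : ℝ := (L.map (fun q : ℕ => gg (1 / (q : ℝ)) 0)).prod

set_option linter.unusedVariables false in
theorem gg_nonneg {x : ℝ} (h0 : 0 ≤ x) (s : Fin 9) : 0 ≤ gg x s := by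
  fin_cases s <;> simp [gg] <;> positivity

set_option linter.unusedVariables false in
theorem gg_le {x : ℝ} (h0 : 0 ≤ x) (h1 : x ≤ 1 / 2) (s : Fin 9) : gg x s ≤ gg x 0 := by
  have e2 : 0 ≤ x ^ 2 := by positivity
  have e6 : 0 ≤ x ^ 6 := by positivity
  have e8 : 0 ≤ x ^ 8 := by positivity
  fin_cases s <;> simp [gg] <;> nlinarith

theorem Gm_nonneg (L : List ℕ) : 0 ≤ Gm L := by
  unfold Gm
  apply List.prod_nonneg
  intro a ha
  obtain ⟨q, _, rfl⟩ := List.mem_map.1 ha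
  exact gg_nonneg (by positivity) _

theorem prod_gg_le {L : List ℕ} (hL : Big L) (c : Fin L.length → Fin 9) :
    ∏ i : Fin L.length, gg (1 / (L[i.1] : ℝ)) (c i) ≤ Gm L := by
  unfold Gm
  rw [← Fin.prod_univ_fun_getElem L (fun q : ℕ => gg (1 / (q : ℝ)) 0)]
  apply Finset.prod_le_prod
  · intro i _
    exact gg_nonneg (by positivity) _
  · intro i _
    obtain ⟨h0, h1⟩ := inv_mem (hL _ (List.getElem_mem (l := L) i.2))
    exact gg_le h0 h1 _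

theorem prod_gg_nonneg {L : List ℕ} (c : Fin L.length → Fin 9) :
    0 ≤ ∏ i : Fin L.length, gg (1 / (L[i.1] : ℝ)) (c i) :=
  Finset.prod_nonneg fun i _ => gg_nonneg (by positivity) _

theorem prod_wg_nonneg {L : List ℕ} (hL : Big L) (c : Fin L.length → Fin 9) :
    0 ≤ ∏ i : Fin L.length, wg (1 / (L[i.1] : ℝ)) (c i) := by
  apply Finset.prod_nonneg
  intro i _
  obtain ⟨h0, h1⟩ := inv_mem (hL _ (List.getElem_mem (l := L) i.2))
  exact wg_nonneg h0 h1 _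

theorem prod_wg_bad {L : List ℕ} {c : Fin L.length → Fin 9} (hc : ¬ Gd c) :
    ∏ i : Fin L.length, wg (1 / (L[i.1] : ℝ)) (c i) = 0 := by
  unfold Gd at hc
  push Not at hc
  obtain ⟨i, hi⟩ := hc
  apply Finset.prod_eq_zero (Finset.mem_univ i)
  unfold wg
  rw [if_neg hi]

theorem ES_mono {L : List ℕ} (hL : Big L) {φ ψ : ℝ → ℝ → ℝ}
    (h : ∀ F G : ℝ, 1 ≤ F → 0 ≤ G → G ≤ Gm L → φ F G ≤ ψ F G) : ES L φ ≤ ES L ψ := by
  unfold ES
  apply Finset.sum_le_sum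
  intro c _
  by_cases hc : Gd c
  · apply mul_le_mul_of_nonneg_left _ (prod_wg_nonneg hL c)
    apply h
    · exact prod_fg_ge (x := fun i : Fin L.length => 1 / (L[i.1] : ℝ)) (fun i => by positivity) hc
    · exact prod_gg_nonneg c
    · exact prod_gg_le hL c
  · rw [prod_wg_bad hc]
    simp

theorem ES_nonneg {L : List ℕ} (hL : Big L) {φ : ℝ → ℝ → ℝ}
    (h : ∀ F G : ℝ, 1 ≤ F → 0 ≤ G → G ≤ Gm L → 0 ≤ φ F G) : 0 ≤ ES L φ := by
  have h1 := ES_mono hL (φ := fun _ _ => 0) (ψ := φ) h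
  have h2 : ES L (fun _ _ => 0) = 0 := by unfold ES; simp
  linarith

theorem ES_add (L : List ℕ) (φ ψ : ℝ → ℝ → ℝ) :
    ES L (fun F G => φ F G + ψ F G) = ES L φ + ES L ψ := by
  unfold ES
  rw [← Finset.sum_add_distrib]
  exact Finset.sum_congr rfl fun c _ => mul_add _ _ _

theorem ES_mul (L : List ℕ) (a : ℝ) (φ : ℝ → ℝ → ℝ) :
    ES L (fun F G => a * φ F G) = a * ES L φ := by
  unfold ES
  rw [Finset.mul_sum]
  exact Finset.sum_congr rfl fun c _ => by ring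

theorem ES_nil (φ : ℝ → ℝ → ℝ) : ES [] φ = φ 1 1 := by
  unfold ES
  simp

theorem prod_cons_aux (p : ℕ) (L : List ℕ) (g : ℕ → Fin 9 → ℝ) (s : Fin 9)
    (c : Fin L.length → Fin 9) :
    ∏ i : Fin (p :: L).length, g ((p :: L)[i.1]) ((Fin.cons s c : Fin (L.length + 1) → Fin 9) i) =
      g p s * ∏ i : Fin L.length, g (L[i.1]) (c i) := by
  change ∏ i : Fin (L.length + 1), g ((p :: L)[i.1]) ((Fin.cons s c : Fin (L.length + 1) → Fin 9) i)
    = _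
  rw [Fin.prod_univ_succ]
  rfl

theorem ES_cons (p : ℕ) (L : List ℕ) (φ : ℝ → ℝ → ℝ) :
    ES (p :: L) φ = ∑ s : Fin 9, wg (1 / (p : ℝ)) s *
      ES L (fun F G => φ (fg (1 / (p : ℝ)) s * F) (gg (1 / (p : ℝ)) s * G)) := by
  have key : ∀ f : (Fin (L.length + 1) → Fin 9) → ℝ,
      ∑ c : Fin (L.length + 1) → Fin 9, f c =
        ∑ s : Fin 9, ∑ c : Fin L.length → Fin 9, f (Fin.cons s c) := by
    intro f
    rw [← Fintype.sum_prod_type' (f := fun s c => f (Fin.cons s c))]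
    exact (Fintype.sum_equiv (Fin.consEquiv (fun _ : Fin (L.length + 1) => Fin 9)) _ _
      (fun z => rfl)).symm
  unfold ES
  change ∑ c : Fin (L.length + 1) → Fin 9, _ = _
  rw [key]
  apply Finset.sum_congr rfl
  intro s _
  rw [Finset.mul_sum]
  apply Finset.sum_congr rfl
  intro c _
  rw [prod_cons_aux p L (fun q t => wg (1 / (q : ℝ)) t) s c,
    prod_cons_aux p L (fun q t => fg (1 / (q : ℝ)) t) s c,
    prod_cons_aux p L (fun q t => gg (1 / (q : ℝ)) t) s c]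
  ring

/-! ### Moments -/

/-- Zeroth moment. -/
noncomputable def m0 (L : List ℕ) : ℝ := ES L (fun _ _ => 1)

/-- First moment of `F - 1`. -/
noncomputable def m1 (L : List ℕ) : ℝ := ES L (fun F _ => F - 1)

/-- Second moment of `F - 1`. -/
noncomputable def m2 (L : List ℕ) : ℝ := ES L (fun F _ => (F - 1) ^ 2)

theorem sum_states (f : Fin 9 → ℝ) (x : ℝ) : ∑ s : Fin 9, wg x s * f s =
    (1 - x) * f 0 + (1 - x) * x * f 1 + (1 - x) * x ^ 3 * f 3 + (1 - x) * x ^ 4 * f 4 := by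
  simp [Fin.sum_univ_succ, wg, gd]
  ring_nf

theorem m0_cons (p : ℕ) (L : List ℕ) : m0 (p :: L) =
    (1 - 1 / (p : ℝ)) * (1 + 1 / (p : ℝ) + (1 / (p : ℝ)) ^ 3 + (1 / (p : ℝ)) ^ 4) * m0 L := by
  unfold m0
  rw [ES_cons, sum_states (fun _ => ES L (fun _ _ => 1))]
  ring

theorem fg0 (x : ℝ) : fg x 0 = 1 := rfl
theorem fg1 (x : ℝ) : fg x 1 = 1 + x := rfl
theorem fg3 (x : ℝ) : fg x 3 = 1 + x ^ 3 := rfl
theorem fg4 (x : ℝ) : fg x 4 = (1 + x) * (1 + x ^ 3) := rfl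
theorem gg0 (x : ℝ) : gg x 0 = 1 + x ^ 2 + x ^ 6 + x ^ 8 := rfl
theorem gg1 (x : ℝ) : gg x 1 = 1 + x ^ 6 := rfl
theorem gg3 (x : ℝ) : gg x 3 = 1 + x ^ 2 := rfl
theorem gg4 (x : ℝ) : gg x 4 = 1 := rfl

theorem ES_m1 (L : List ℕ) (a : ℝ) : ES L (fun F _ => a * F - 1) = a * m1 L + (a - 1) * m0 L := by
  unfold m1 m0
  rw [← ES_mul, ← ES_mul, ← ES_add]
  congr 1
  funext F G
  ring

theorem ES_m2 (L : List ℕ) (a : ℝ) : ES L (fun F _ => (a * F - 1) ^ 2) =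
    a ^ 2 * m2 L + 2 * a * (a - 1) * m1 L + (a - 1) ^ 2 * m0 L := by
  unfold m2 m1 m0
  rw [← ES_mul, ← ES_mul, ← ES_mul, ← ES_add, ← ES_add]
  congr 1
  funext F G
  ring

theorem m1_cons (p : ℕ) (L : List ℕ) (x : ℝ) (hx : x = 1 / (p : ℝ)) : m1 (p :: L) =
    (1 - x) * m1 L + (1 - x) * x * ((1 + x) * m1 L + x * m0 L) +
      (1 - x) * x ^ 3 * ((1 + x ^ 3) * m1 L + x ^ 3 * m0 L) +
      (1 - x) * x ^ 4 * ((1 + x) * (1 + x ^ 3) * m1 L + ((1 + x) * (1 + x ^ 3) - 1) * m0 L) := by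
  conv_lhs => unfold m1
  rw [ES_cons, ← hx, sum_states (fun s => ES L (fun F _ => fg x s * F - 1))]
  simp only [ES_m1, fg0, fg1, fg3, fg4]
  ring

theorem m2_cons (p : ℕ) (L : List ℕ) (x : ℝ) (hx : x = 1 / (p : ℝ)) : m2 (p :: L) =
    (1 - x) * m2 L +
      (1 - x) * x * ((1 + x) ^ 2 * m2 L + 2 * (1 + x) * x * m1 L + x ^ 2 * m0 L) +
      (1 - x) * x ^ 3 * ((1 + x ^ 3) ^ 2 * m2 L + 2 * (1 + x ^ 3) * x ^ 3 * m1 L +
        (x ^ 3) ^ 2 * m0 L) +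
      (1 - x) * x ^ 4 * (((1 + x) * (1 + x ^ 3)) ^ 2 * m2 L + 2 * ((1 + x) * (1 + x ^ 3)) *
        ((1 + x) * (1 + x ^ 3) - 1) * m1 L + ((1 + x) * (1 + x ^ 3) - 1) ^ 2 * m0 L) := by
  conv_lhs => unfold m2
  rw [ES_cons, ← hx, sum_states (fun s => ES L (fun F _ => (fg x s * F - 1) ^ 2))]
  simp only [ES_m2, fg0, fg1, fg3, fg4]
  ring

theorem m0_nonneg {L : List ℕ} (hL : Big L) : 0 ≤ m0 L := ES_nonneg hL (fun _ _ _ _ _ => by norm_num)

theorem m1_nonneg {L : List ℕ} (hL : Big L) : 0 ≤ m1 L :=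
  ES_nonneg hL (fun _ _ h _ _ => by linarith)

theorem m2_nonneg {L : List ℕ} (hL : Big L) : 0 ≤ m2 L :=
  ES_nonneg hL (fun _ _ _ _ _ => by positivity)

/-! ### Rounded arithmetic -/

/-- Ceiling division. -/
def cdiv (a b : Nat) : Nat := Nat.div (Nat.add a (Nat.sub b 1)) b

theorem cdiv_spec (a : ℕ) {b : ℕ} (hb : 0 < b) : a ≤ b * cdiv a b := by
  have h1 : cdiv a b = (a + (b - 1)) / b := rfl
  rw [h1]
  have h2 := Nat.div_add_mod (a + (b - 1)) b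
  have h3 := Nat.mod_lt (a + (b - 1)) hb
  omega

theorem le_cdiv (a : ℕ) {b : ℕ} (hb : 0 < b) : (a : ℝ) / b ≤ (cdiv a b : ℝ) := by
  have h1 : (0 : ℝ) < b := by exact_mod_cast hb
  rw [div_le_iff₀ h1, mul_comm]
  exact_mod_cast cdiv_spec a hb

/-- The scale. -/
@[irreducible] def sc : Nat := 1000000000000

/-- Bounds for the moments. -/
structure T4 where
  S0 : Nat
  M : Nat
  V : Nat
  G : Nat
  deriving DecidableEq

/-- One step of the moment recursion. -/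
def tstep (p : ℕ) (t : T4) : T4 :=
  let D := p ^ 13
  let R := (p - 1) * (p ^ 4 + p ^ 3 + p + 1) * p ^ 8
  let b1 := (p - 1) * (p ^ 6 + p ^ 3 + p ^ 2 + p + 1) * p ^ 4
  let b2 := (p - 1) * (p ^ 9 + p ^ 3 + (p ^ 3 + p + 1) ^ 2)
  ⟨cdiv (R * t.S0) D, cdiv ((R + b1) * t.M + b1 * t.S0) D,
    cdiv ((R + 2 * b1 + b2) * t.V + 2 * (b1 + b2) * t.M + b2 * t.S0) D,
    cdiv ((p ^ 8 + p ^ 6 + p ^ 2 + 1) * t.G) (p ^ 8)⟩

/-- `t` bounds the moments of `L`. -/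
structure TB (L : List ℕ) (t : T4) : Prop where
  h0 : m0 L ≤ (t.S0 : ℝ) / sc
  h1 : m1 L ≤ (t.M : ℝ) / sc
  h2 : m2 L ≤ (t.V : ℝ) / sc
  hG : Gm L ≤ (t.G : ℝ) / sc

theorem sc_pos : (0 : ℝ) < (sc : ℝ) := by unfold sc; norm_num

theorem TB_nil : TB [] ⟨sc, 0, 0, sc⟩ := by
  have h := sc_pos.ne'
  constructor
  · unfold m0; rw [ES_nil]; simp [h]
  · unfold m1; rw [ES_nil]; simp
  · unfold m2; rw [ES_nil]; simp
  · unfold Gm; simp [h]

theorem TB_step {p : ℕ} {L : List ℕ} (hp : 2 ≤ p) (hL : Big L) {t : T4} (h : TB L t) :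
    TB (p :: L) (tstep p t) := by
  have hp0 : (0 : ℝ) < p := by exact_mod_cast (by omega : 0 < p)
  have hs := sc_pos
  set x : ℝ := 1 / (p : ℝ) with hx
  have hpx : (p : ℝ) * x = 1 := by rw [hx]; field_simp
  have hp1 : ((p - 1 : ℕ) : ℝ) = p - 1 := by
    rw [Nat.cast_sub (by omega)]; norm_num
  have hx0 : 0 ≤ x := by positivity
  have hx1 : 0 ≤ 1 - x := by
    have := (inv_mem hp).2
    rw [hx]; linarith
  have a0 := m0_nonneg hL
  have a1 := m1_nonneg hL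
  have a2 := m2_nonneg hL
  have hD : 0 < p ^ 13 := by positivity
  have hD8 : 0 < p ^ 8 := by positivity
  -- real coefficients
  set rR : ℝ := (1 - x) * (1 + x + x ^ 3 + x ^ 4) with hrR
  set r1 : ℝ := (1 - x) * (x * x + x ^ 3 * x ^ 3 + x ^ 4 * ((1 + x) * (1 + x ^ 3) - 1)) with hr1
  set r2 : ℝ := (1 - x) * (x * x ^ 2 + x ^ 3 * (x ^ 3) ^ 2 +
    x ^ 4 * ((1 + x) * (1 + x ^ 3) - 1) ^ 2) with hr2
  have hrR0 : 0 ≤ rR := by rw [hrR]; positivity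
  have hr10 : 0 ≤ r1 := by
    rw [hr1]
    have : 0 ≤ (1 + x) * (1 + x ^ 3) - 1 := by
      have : (1 + x) * (1 + x ^ 3) - 1 = x + x ^ 3 + x * x ^ 3 := by ring
      rw [this]; positivity
    positivity
  have hr20 : 0 ≤ r2 := by rw [hr2]; positivity
  have eR : (((p - 1) * (p ^ 4 + p ^ 3 + p + 1) * p ^ 8 : ℕ) : ℝ) = rR * (p : ℝ) ^ 13 := by
    push_cast
    rw [hp1, hrR]
    have : x = 1 / (p : ℝ) := hx
    rw [this]
    field_simp
  have e1 : (((p - 1) * (p ^ 6 + p ^ 3 + p ^ 2 + p + 1) * p ^ 4 : ℕ) : ℝ) =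
      r1 * (p : ℝ) ^ 13 := by
    push_cast
    rw [hp1, hr1]
    have : x = 1 / (p : ℝ) := hx
    rw [this]
    field_simp
    ring
  have e2 : (((p - 1) * (p ^ 9 + p ^ 3 + (p ^ 3 + p + 1) ^ 2) : ℕ) : ℝ) =
      r2 * (p : ℝ) ^ 13 := by
    push_cast
    rw [hp1, hr2]
    have : x = 1 / (p : ℝ) := hx
    rw [this]
    field_simp
    ring
  have hpp : (0 : ℝ) < (p : ℝ) ^ 13 := by positivity
  constructor
  · rw [m0_cons, ← hx, ← hrR]
    refine (mul_le_mul_of_nonneg_left h.h0 hrR0).trans ?_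
    have h3 := le_cdiv ((p - 1) * (p ^ 4 + p ^ 3 + p + 1) * p ^ 8 * t.S0) hD
    rw [Nat.cast_mul, eR] at h3
    push_cast at h3
    rw [mul_div_assoc', div_le_div_iff_of_pos_right hs]
    refine le_trans (le_of_eq ?_) h3
    field_simp
  · have : m1 (p :: L) = (rR + r1) * m1 L + r1 * m0 L := by
      rw [m1_cons p L x hx, hrR, hr1]; ring
    rw [this]
    have h3 := le_cdiv (((p - 1) * (p ^ 4 + p ^ 3 + p + 1) * p ^ 8 +
      (p - 1) * (p ^ 6 + p ^ 3 + p ^ 2 + p + 1) * p ^ 4) * t.M +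
      (p - 1) * (p ^ 6 + p ^ 3 + p ^ 2 + p + 1) * p ^ 4 * t.S0) hD
    rw [Nat.cast_add, Nat.cast_mul, Nat.cast_add, eR, Nat.cast_mul _ t.S0, e1] at h3
    have h4 : (rR + r1) * m1 L + r1 * m0 L ≤ (rR + r1) * (t.M / sc) + r1 * (t.S0 / sc) :=
      add_le_add (mul_le_mul_of_nonneg_left h.h1 (by positivity))
        (mul_le_mul_of_nonneg_left h.h0 hr10)
    refine h4.trans ?_
    have h5 : (rR + r1) * (t.M / sc) + r1 * ((t.S0 : ℝ) / sc) =
      ((rR + r1) * t.M + r1 * t.S0) / sc := by ring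
    rw [h5, div_le_div_iff_of_pos_right hs]
    refine le_trans (le_of_eq ?_) h3
    push_cast
    field_simp
  · have : m2 (p :: L) = (rR + 2 * r1 + r2) * m2 L + 2 * (r1 + r2) * m1 L + r2 * m0 L := by
      rw [m2_cons p L x hx, hrR, hr1, hr2]; ring
    rw [this]
    have h3 := le_cdiv (((p - 1) * (p ^ 4 + p ^ 3 + p + 1) * p ^ 8 +
      2 * ((p - 1) * (p ^ 6 + p ^ 3 + p ^ 2 + p + 1) * p ^ 4) +
      (p - 1) * (p ^ 9 + p ^ 3 + (p ^ 3 + p + 1) ^ 2)) * t.V +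
      2 * ((p - 1) * (p ^ 6 + p ^ 3 + p ^ 2 + p + 1) * p ^ 4 +
      (p - 1) * (p ^ 9 + p ^ 3 + (p ^ 3 + p + 1) ^ 2)) * t.M +
      (p - 1) * (p ^ 9 + p ^ 3 + (p ^ 3 + p + 1) ^ 2) * t.S0) hD
    rw [Nat.cast_add, Nat.cast_add, Nat.cast_mul _ t.V, Nat.cast_add, Nat.cast_add,
      Nat.cast_mul 2 ((p - 1) * (p ^ 6 + p ^ 3 + p ^ 2 + p + 1) * p ^ 4), Nat.cast_mul _ t.M,
      Nat.cast_mul 2 (_ + _), Nat.cast_add, Nat.cast_mul _ t.S0, eR, e1, e2] at h3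
    have h4 : (rR + 2 * r1 + r2) * m2 L + 2 * (r1 + r2) * m1 L + r2 * m0 L ≤
        (rR + 2 * r1 + r2) * (t.V / sc) + 2 * (r1 + r2) * (t.M / sc) + r2 * (t.S0 / sc) :=
      add_le_add (add_le_add (mul_le_mul_of_nonneg_left h.h2 (by positivity))
        (mul_le_mul_of_nonneg_left h.h1 (by positivity)))
        (mul_le_mul_of_nonneg_left h.h0 hr20)
    refine h4.trans ?_
    have h5 : (rR + 2 * r1 + r2) * ((t.V : ℝ) / sc) + 2 * (r1 + r2) * (t.M / sc) +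
      r2 * (t.S0 / sc) = ((rR + 2 * r1 + r2) * t.V + 2 * (r1 + r2) * t.M + r2 * t.S0) / sc := by
      ring
    rw [h5, div_le_div_iff_of_pos_right hs]
    refine le_trans (le_of_eq ?_) h3
    push_cast
    field_simp
  · have : Gm (p :: L) = gg x 0 * Gm L := by unfold Gm; simp [hx]
    rw [this, gg0]
    have h3 := le_cdiv ((p ^ 8 + p ^ 6 + p ^ 2 + 1) * t.G) hD8
    have h4 : (1 + x ^ 2 + x ^ 6 + x ^ 8) * Gm L ≤ (1 + x ^ 2 + x ^ 6 + x ^ 8) * (t.G / sc) :=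
      mul_le_mul_of_nonneg_left h.hG (by positivity)
    refine h4.trans ?_
    rw [mul_div_assoc', div_le_div_iff_of_pos_right hs]
    refine le_trans (le_of_eq ?_) h3
    push_cast
    rw [hx]
    field_simp

end Pool.Agent.Lib.MP_f8fa1d_co.Num
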