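import Pool.Agent.Lib.MP_f8fa1d_co.Num.Tail
import Pool.Agent.Lib.MP_f8fa1d_co.Rankin

/-!
# The numerical lower bound
-/

namespace Pool.Agent.Lib.MP_f8fa1d_co.Num

open Pool.Agent.Lib.MP_f8fa1d_co

/-- The exponents below `27` without digit `2` in base `3` and below `14`. -/
def E8 : Finset ℕ := {0, 1, 3, 4, 9, 10, 12, 13}

theorem E8_good : ∀ e ∈ E8, Good e := by
  intro e he
  simp only [E8, Finset.mem_insert, Finset.mem_singleton] at he
  unfold Good
  rcases he with rfl | rfl | rfl | rfl | rfl | rfl | rfl | rfl <;> norm_num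

open Classical in
/-- `1/n` if all exponents of `n` lie in `E8`, and `0` otherwise. -/
noncomputable def f8 (n : ℕ) : ℝ :=
  if ∀ p, p.Prime → n.factorization p ∈ E8 then 1 / (n : ℝ) else 0

theorem f8_nonneg (n : ℕ) : 0 ≤ f8 n := by
  unfold f8; split_ifs <;> positivity

theorem E8_zero : 0 ∈ E8 := by decide

theorem f8_one : f8 1 = 1 := by
  unfold f8
  rw [if_pos]
  · simp
  · intro p _; simp [E8_zero]

theorem f8_mul {m n : ℕ} (h : Nat.Coprime m n) : f8 (m * n) = f8 m * f8 n := by
  by_cases hm : m = 0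
  · subst hm
    rw [Nat.coprime_zero_left] at h
    subst h
    simp [f8_one]
  by_cases hn : n = 0
  · subst hn
    rw [Nat.coprime_zero_right] at h
    subst h
    simp [f8_one]
  have hfac : ∀ p, p.Prime → (m * n).factorization p = m.factorization p + n.factorization p := by
    intro p _
    rw [Nat.factorization_mul hm hn, Finsupp.add_apply]
  have hzero : ∀ p, p.Prime → m.factorization p = 0 ∨ n.factorization p = 0 := by
    intro p hp
    by_contra hcon
    push Not at hcon
    have h1 : p ∣ m := (hp.dvd_iff_one_le_factorization hm).2 (by omega)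
    have h2 : p ∣ n := (hp.dvd_iff_one_le_factorization hn).2 (by omega)
    exact Nat.not_coprime_of_dvd_of_dvd hp.one_lt h1 h2 h
  have hiff : (∀ p, p.Prime → (m * n).factorization p ∈ E8) ↔
      (∀ p, p.Prime → m.factorization p ∈ E8) ∧ (∀ p, p.Prime → n.factorization p ∈ E8) := by
    constructor
    · intro h1
      constructor
      · intro p hp
        have h3 := h1 p hp
        rw [hfac p hp] at h3
        rcases hzero p hp with h4 | h4
        · rw [h4]; exact E8_zero
        · rw [h4, add_zero] at h3; exact h3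
      · intro p hp
        have h3 := h1 p hp
        rw [hfac p hp] at h3
        rcases hzero p hp with h4 | h4
        · rw [h4, zero_add] at h3; exact h3
        · rw [h4]; exact E8_zero
    · rintro ⟨h1, h2⟩ p hp
      rw [hfac p hp]
      have h5 := h1 p hp
      have h6 := h2 p hp
      rcases hzero p hp with h4 | h4
      · rw [h4, zero_add]; exact h6
      · rw [h4, add_zero]; exact h5
  unfold f8
  by_cases h1 : ∀ p, p.Prime → m.factorization p ∈ E8
  · by_cases h2 : ∀ p, p.Prime → n.factorization p ∈ E8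
    · rw [if_pos (hiff.2 ⟨h1, h2⟩), if_pos h1, if_pos h2]
      push_cast
      rw [one_div, one_div, one_div, mul_inv]
    · rw [if_neg (fun h => h2 (hiff.1 h).2), if_neg h2, mul_zero]
  · rw [if_neg (fun h => h1 (hiff.1 h).1), if_neg h1, zero_mul]

theorem f8_prime_pow {p : ℕ} (hp : p.Prime) (n : ℕ) :
    f8 (p ^ n) = if n ∈ E8 then (1 / (p : ℝ)) ^ n else 0 := by
  unfold f8
  by_cases hn : n ∈ E8
  · rw [if_pos, if_pos hn]
    · push_cast
      rw [one_div_pow]
    · intro q _
      rw [hp.factorization_pow, Finsupp.single_apply]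
      split_ifs
      · exact hn
      · exact E8_zero
  · rw [if_neg, if_neg hn]
    intro h
    apply hn
    have := h p hp
    rwa [hp.factorization_pow, Finsupp.single_eq_same] at this

theorem f8_hasSum {p : ℕ} (hp : p.Prime) :
    HasSum (fun n : ℕ => f8 (p ^ n))
      ((1 + 1 / (p : ℝ)) * (1 + (1 / (p : ℝ)) ^ 3) * (1 + (1 / (p : ℝ)) ^ 9)) := by
  have h1 : HasSum (fun n : ℕ => f8 (p ^ n)) (∑ n ∈ E8, f8 (p ^ n)) := by
    apply hasSum_sum_of_ne_finset_zero
    intro n hn
    rw [f8_prime_pow hp, if_neg hn]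
  have h2 : ∑ n ∈ E8, f8 (p ^ n) =
      (1 + 1 / (p : ℝ)) * (1 + (1 / (p : ℝ)) ^ 3) * (1 + (1 / (p : ℝ)) ^ 9) := by
    have h3 : ∑ n ∈ E8, f8 (p ^ n) = ∑ n ∈ E8, (1 / (p : ℝ)) ^ n := by
      apply Finset.sum_congr rfl
      intro n hn
      rw [f8_prime_pow hp, if_pos hn]
    rw [h3]
    simp only [E8]
    rw [Finset.sum_insert (by decide), Finset.sum_insert (by decide), Finset.sum_insert (by decide),
      Finset.sum_insert (by decide), Finset.sum_insert (by decide), Finset.sum_insert (by decide),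
      Finset.sum_insert (by decide), Finset.sum_singleton]
    ring
  rw [← h2]
  exact h1

/-- The Euler product is a lower bound for `W`. -/
theorem prod_le_W (k : ℕ) : ∏ p ∈ k.primesBelow,
    ((1 + 1 / (p : ℝ)) * (1 + (1 / (p : ℝ)) ^ 3) * (1 + (1 / (p : ℝ)) ^ 9)) ≤ W k := by
  have h1 := (EulerProduct.summable_and_hasSum_smoothNumbers_prod_primesBelow_tsum
    (f := f8) f8_one (fun h => f8_mul h) (fun hp => by
      have := (f8_hasSum hp).summable
      simpa [Real.norm_eq_abs, abs_of_nonneg (f8_nonneg _)] using this) k).2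
  have h5 : ∏ p ∈ k.primesBelow, ∑' n : ℕ, f8 (p ^ n) = ∏ p ∈ k.primesBelow,
      ((1 + 1 / (p : ℝ)) * (1 + (1 / (p : ℝ)) ^ 3) * (1 + (1 / (p : ℝ)) ^ 9)) := by
    apply Finset.prod_congr rfl
    intro p hp
    exact (f8_hasSum (Nat.prime_of_mem_primesBelow hp)).tsum_eq
  rw [h5] at h1
  refine hasSum_le_of_sum_le h1 ?_
  intro F
  classical
  set B : Finset ℕ := (F.image (fun m : k.smoothNumbers => (m : ℕ))).filter
    (fun n => ∀ p, p.Prime → n.factorization p ∈ E8) with hBd
  have hB1 : (B : Set ℕ) ⊆ k.smoothNumbers := by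
    intro n hn
    rw [hBd, Finset.mem_coe, Finset.mem_filter, Finset.mem_image] at hn
    obtain ⟨⟨m, _, rfl⟩, _⟩ := hn
    exact m.2
  have hB2 : GPFree (B : Set ℕ) := by
    apply Rankin_free.mono
    intro n hn
    have hn' := hB1 hn
    rw [hBd, Finset.mem_coe, Finset.mem_filter] at hn
    exact ⟨Nat.pos_of_ne_zero (Nat.ne_zero_of_mem_smoothNumbers hn'),
      fun p hp => E8_good _ (hn.2 p hp)⟩
  have h6 : ∑ i ∈ F, f8 (i : ℕ) = rs B := by
    unfold rs
    rw [hBd, Finset.sum_filter, Finset.sum_image (fun a _ b _ h => Subtype.ext h)]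
    apply Finset.sum_congr rfl
    intro i _
    rfl
  change ∑ i ∈ F, f8 (i : ℕ) ≤ _
  rw [h6]
  exact rs_le_W hB1 hB2

/-- The local factor. -/
noncomputable def lfac (p : ℕ) : ℝ :=
  (1 - 1 / (p : ℝ)) * ((1 + 1 / (p : ℝ)) * (1 + (1 / (p : ℝ)) ^ 3) * (1 + (1 / (p : ℝ)) ^ 9))

theorem prod_lfac_le (k : ℕ) : ∏ p ∈ k.primesBelow, lfac p ≤ sK k := by
  unfold lfac
  rw [Finset.prod_mul_distrib]
  exact mul_le_mul_of_nonneg_left (prod_le_W k) (phi_pos k).le

theorem lfac_eq {p : ℕ} (hp : 1 ≤ p) : lfac p * (p : ℝ) ^ 14 =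
    (((p ^ 2 - 1) * ((p ^ 3 + 1) * (p ^ 9 + 1)) : ℕ) : ℝ) := by
  have h0 : (0 : ℝ) < p := by exact_mod_cast (by omega : 0 < p)
  have h1 : 1 ≤ p ^ 2 := Nat.one_le_pow _ _ (by omega)
  push_cast [Nat.cast_sub h1]
  unfold lfac
  field_simp
  ring

theorem lfac_nonneg {p : ℕ} (hp : 1 ≤ p) : 0 ≤ lfac p := by
  have h0 : (0 : ℝ) < p := by exact_mod_cast (by omega : 0 < p)
  have h1 : 1 / (p : ℝ) ≤ 1 := by
    rw [div_le_one h0]
    exact_mod_cast hp
  unfold lfac
  have : 0 ≤ 1 - 1 / (p : ℝ) := by linarith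
  positivity

theorem lfac_le_one {p : ℕ} (hp : 2 ≤ p) : lfac p ≤ 1 := by
  obtain ⟨h0, h1⟩ := inv_mem hp
  unfold lfac
  set x := 1 / (p : ℝ)
  have e : (1 - x) * ((1 + x) * (1 + x ^ 3) * (1 + x ^ 9)) =
      1 - x ^ 2 * ((1 - x) + x ^ 3 - x ^ 7 + x ^ 9 - x ^ 10 + x ^ 12) := by ring
  rw [e]
  have h2 : x ^ 3 * x ^ 4 ≤ x ^ 3 * 1 :=
    mul_le_mul_of_nonneg_left (pow_le_one₀ h0 (by linarith)) (by positivity)
  have h3 : x ^ 9 * x ≤ x ^ 9 * 1 :=
    mul_le_mul_of_nonneg_left (by linarith) (by positivity)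
  have h4 : 0 ≤ (1 - x) + x ^ 3 - x ^ 7 + x ^ 9 - x ^ 10 + x ^ 12 := by
    have e7 : x ^ 7 = x ^ 3 * x ^ 4 := by ring
    have e10 : x ^ 10 = x ^ 9 * x := by ring
    have : 0 ≤ x ^ 12 := by positivity
    rw [e7, e10]
    linarith
  have : 0 ≤ x ^ 2 * ((1 - x) + x ^ 3 - x ^ 7 + x ^ 9 - x ^ 10 + x ^ 12) := by positivity
  linarith

/-! ### Evaluation -/

/-- Trial division. -/
noncomputable def tr (n : Nat) (l : List Nat) : Bool :=
  @List.rec Nat (fun _ => Bool) true
    (fun q _ ih => @Bool.rec (fun _ => Bool) ih (Nat.beq n q) (Nat.beq (Nat.mod n q) 0)) l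

theorem tr_prime {n : ℕ} (hn : n.Prime) : ∀ l : List ℕ, (∀ q ∈ l, 2 ≤ q) → tr n l = true
  | [], _ => rfl
  | q :: l, h => by
    have e : tr n (q :: l) = @Bool.rec (fun _ => Bool) (tr n l) (Nat.beq n q)
      (Nat.beq (Nat.mod n q) 0) := rfl
    rw [e]
    cases hb : Nat.beq (Nat.mod n q) 0
    · exact tr_prime hn l (fun q hq => h q (by simp [hq]))
    · have h1 : n % q = 0 := Nat.eq_of_beq_eq_true hb
      have h2 : 2 ≤ q := h q (by simp)
      rcases (Nat.dvd_prime hn).1 (Nat.dvd_of_mod_eq_zero h1) with h3 | h3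
      · omega
      · rw [h3]; exact Nat.beq_refl n

/-- Multiplication by the local factor, rounded down. -/
def hm (n S : Nat) : Nat :=
  Nat.div (Nat.mul S (Nat.mul (Nat.sub (Nat.pow n 2) 1)
    (Nat.mul (Nat.add (Nat.pow n 3) 1) (Nat.add (Nat.pow n 9) 1)))) (Nat.pow n 14)

theorem hm_le {n : ℕ} (hn : 1 ≤ n) (S : ℕ) : (hm n S : ℝ) ≤ lfac n * S := by
  have h0 : (0 : ℝ) < n := by exact_mod_cast (by omega : 0 < n)
  have h1 : hm n S * n ^ 14 ≤ S * ((n ^ 2 - 1) * ((n ^ 3 + 1) * (n ^ 9 + 1))) :=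
    Nat.div_mul_le_self _ _
  have h2 : (hm n S : ℝ) * (n : ℝ) ^ 14 ≤
      S * (((n ^ 2 - 1) * ((n ^ 3 + 1) * (n ^ 9 + 1)) : ℕ) : ℝ) := by exact_mod_cast h1
  rw [← lfac_eq hn] at h2
  have h3 : (0 : ℝ) < (n : ℝ) ^ 14 := by positivity
  by_contra hcon
  push Not at hcon
  have := mul_lt_mul_of_pos_right hcon h3
  linarith

/-- The product over a block of length `2 ^ d`. -/
noncomputable def lowB (d : Nat) : Nat → Nat → Nat :=
  @Nat.rec (fun _ => Nat → Nat → Nat)
    (fun n S => @Bool.rec (fun _ => Nat) S (hm n S) (tr n sp))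
    (fun d ih n S => ih (Nat.add n (Nat.pow 2 d)) (ih n S)) d

/-- The product of the local factors over the primes in `[a, b)`. -/
noncomputable def PR (a b : ℕ) : ℝ := ∏ p ∈ (Finset.Ico a b).filter Nat.Prime, lfac p

theorem PR_nonneg {a b : ℕ} (ha : 1 ≤ a) : 0 ≤ PR a b := by
  unfold PR
  apply Finset.prod_nonneg
  intro p hp
  rw [Finset.mem_filter, Finset.mem_Ico] at hp
  exact lfac_nonneg (by omega)

theorem PR_mul {a b c : ℕ} (hab : a ≤ b) (hbc : b ≤ c) : PR a b * PR b c = PR a c := by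
  unfold PR
  rw [← Finset.prod_union, ← Finset.filter_union, Finset.Ico_union_Ico_eq_Ico hab hbc]
  apply Finset.disjoint_filter_filter
  exact Finset.Ico_disjoint_Ico_consecutive a b c

theorem PR_one (a : ℕ) : PR a (a + 1) = if a.Prime then lfac a else 1 := by
  unfold PR
  rw [Nat.Ico_succ_singleton, Finset.filter_singleton]
  split_ifs <;> simp

theorem sp_two : ∀ q ∈ sp, 2 ≤ q := by decide

theorem lowB_spec (d : ℕ) : ∀ n S : ℕ, 2 ≤ n → (lowB d n S : ℝ) ≤ S * PR n (n + 2 ^ d) := by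
  induction d with
  | zero =>
    intro n S hn
    have e : lowB 0 n S = @Bool.rec (fun _ => Nat) S (hm n S) (tr n sp) := rfl
    have hS : (0 : ℝ) ≤ S := by positivity
    rw [e, pow_zero, PR_one]
    cases hb : tr n sp
    · have hp : ¬ n.Prime := fun hp => by
        rw [tr_prime hp sp sp_two] at hb
        exact absurd hb (by decide)
      rw [if_neg hp, mul_one]
    · change (hm n S : ℝ) ≤ _
      have h1 := hm_le (n := n) (by omega) S
      split_ifs
      · rw [mul_comm]; exact h1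
      · rw [mul_one]
        have h2 := lfac_le_one hn
        nlinarith
  | succ d ih =>
    intro n S hn
    have e : lowB (d + 1) n S = lowB d (n + 2 ^ d) (lowB d n S) := rfl
    rw [e]
    have h1 := ih n S hn
    have h2 := ih (n + 2 ^ d) (lowB d n S) (hn.trans (Nat.le_add_right _ _))
    have e2 : n + 2 ^ d + 2 ^ d = n + 2 ^ (d + 1) := by rw [pow_succ]; omega
    rw [e2] at h2
    rw [← PR_mul (Nat.le_add_right n (2 ^ d)) (e2 ▸ Nat.le_add_right (n + 2 ^ d) (2 ^ d))]
    refine h2.trans ?_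
    rw [← mul_assoc]
    exact mul_le_mul_of_nonneg_right h1
      (PR_nonneg ((show 1 ≤ n by omega).trans (Nat.le_add_right _ _)))

/-- The statement proved by blocks. -/
def Lo (n S : ℕ) : Prop := (S : ℝ) ≤ 10 ^ 12 * PR 2 n

theorem Lo.step {n S S' : ℕ} (hn : 2 ≤ n) (h : Lo n S) (h' : Nat.beq (lowB 10 n S) S' = true) :
    Lo (n + 1024) S' := by
  unfold Lo at h ⊢
  have h1 := lowB_spec 10 n S hn
  rw [Nat.eq_of_beq_eq_true h'] at h1
  have e : 2 ^ 10 = 1024 := by norm_num
  rw [e] at h1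
  rw [← PR_mul hn (show n ≤ n + 1024 by omega), ← mul_assoc]
  exact h1.trans (mul_le_mul_of_nonneg_right h (PR_nonneg (by omega)))

theorem lo0 : Lo 2 1000000000000 := by
  unfold Lo PR
  norm_num

theorem lo1 : Lo 1026 719833814976 := Lo.step (by norm_num) lo0 (by decide +kernel)

theorem lo2 : Lo 2050 719786151274 := Lo.step (by norm_num) lo1 (by decide +kernel)

theorem lo3 : Lo 3074 719771215580 := Lo.step (by norm_num) lo2 (by decide +kernel)

theorem lo4 : Lo 4098 719764104435 := Lo.step (by norm_num) lo3 (by decide +kernel)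

theorem lo5 : Lo 5122 719759943971 := Lo.step (by norm_num) lo4 (by decide +kernel)

theorem lo6 : Lo 6146 719757168247 := Lo.step (by norm_num) lo5 (by decide +kernel)

theorem lo7 : Lo 7170 719755155667 := Lo.step (by norm_num) lo6 (by decide +kernel)

theorem lo8 : Lo 8194 719753599946 := Lo.step (by norm_num) lo7 (by decide +kernel)

theorem lo9 : Lo 9218 719752401042 := Lo.step (by norm_num) lo8 (by decide +kernel)

theorem lo10 : Lo 10242 719751422785 := Lo.step (by norm_num) lo9 (by decide +kernel)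

theorem lo11 : Lo 11266 719750629581 := Lo.step (by norm_num) lo10 (by decide +kernel)

theorem lo12 : Lo 12290 719749970623 := Lo.step (by norm_num) lo11 (by decide +kernel)

theorem lo13 : Lo 13314 719749390056 := Lo.step (by norm_num) lo12 (by decide +kernel)

theorem lo14 : Lo 14338 719748926212 := Lo.step (by norm_num) lo13 (by decide +kernel)

theorem lo15 : Lo 15362 719748482029 := Lo.step (by norm_num) lo14 (by decide +kernel)

theorem lo16 : Lo 16386 719748113121 := Lo.step (by norm_num) lo15 (by decide +kernel)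

theorem lo17 : Lo 17410 719747795446 := Lo.step (by norm_num) lo16 (by decide +kernel)

theorem lo18 : Lo 18434 719747492515 := Lo.step (by norm_num) lo17 (by decide +kernel)

theorem lo19 : Lo 19458 719747244167 := Lo.step (by norm_num) lo18 (by decide +kernel)

theorem lo20 : Lo 20482 719746998504 := Lo.step (by norm_num) lo19 (by decide +kernel)

theorem lo21 : Lo 21506 719746789515 := Lo.step (by norm_num) lo20 (by decide +kernel)

theorem lo22 : Lo 22530 719746591831 := Lo.step (by norm_num) lo21 (by decide +kernel)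

theorem lo23 : Lo 23554 719746415184 := Lo.step (by norm_num) lo22 (by decide +kernel)

theorem lo24 : Lo 24578 719746250790 := Lo.step (by norm_num) lo23 (by decide +kernel)

theorem lo25 : Lo 25602 719746102077 := Lo.step (by norm_num) lo24 (by decide +kernel)

theorem lo26 : Lo 26626 719745964645 := Lo.step (by norm_num) lo25 (by decide +kernel)

theorem lo27 : Lo 27650 719745837266 := Lo.step (by norm_num) lo26 (by decide +kernel)

theorem lo28 : Lo 28674 719745712876 := Lo.step (by norm_num) lo27 (by decide +kernel)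

theorem lo29 : Lo 29698 719745603755 := Lo.step (by norm_num) lo28 (by decide +kernel)

theorem lo30 : Lo 30722 719745503503 := Lo.step (by norm_num) lo29 (by decide +kernel)

theorem lo31 : Lo 31746 719745403796 := Lo.step (by norm_num) lo30 (by decide +kernel)

theorem lo32 : Lo 32770 719745313103 := Lo.step (by norm_num) lo31 (by decide +kernel)

theorem prod_primesBelow : ∏ p ∈ Nat.primesBelow 32770, lfac p = PR 2 32770 := by
  unfold PR
  apply Finset.prod_congr _ (fun _ _ => rfl)
  ext p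
  rw [Nat.mem_primesBelow, Finset.mem_filter, Finset.mem_Ico]
  constructor
  · rintro ⟨h1, h2⟩
    exact ⟨⟨h2.two_le, h1⟩, h2⟩
  · rintro ⟨⟨_, h1⟩, h2⟩
    exact ⟨h1, h2⟩

theorem lt_supDensity : 0.7197 < supDensity := by
  rw [supDensity_eq]
  have h1 := lo32
  unfold Lo at h1
  rw [← prod_primesBelow] at h1
  have h2 := prod_lfac_le 32770
  have h3 := sK_sub_le_sigma (K := 32770) (by norm_num)
  push_cast at h1 h3
  norm_num at h1 h3 ⊢
  linarith

end Pool.Agent.Lib.MP_f8fa1d_co.Num
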