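import Pool.Agent.Lib.MP_f8fa1d_co.Num.Slice

/-!
# Resummation over exponent vectors
-/

namespace Pool.Agent.Lib.MP_f8fa1d_co.Num

/-- First term of the chosen progression with third term `s`. -/
def at' : Fin 9 → Fin 9 := ![0, 1, 0, 3, 4, 3, 0, 1, 0]

/-- Middle term of the chosen progression with third term `s`. -/
def bt : Fin 9 → Fin 9 := ![0, 1, 1, 3, 4, 4, 3, 4, 4]

/-- The exponents `0, 1, 3, 4`. -/
def gd : Fin 9 → Bool := ![true, true, false, true, true, false, false, false, false]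

theorem at_bt : ∀ s : Fin 9, (at' s : ℕ) + s = 2 * bt s := by decide

theorem at_gd : ∀ s : Fin 9, gd s = true → at' s = s := by decide

theorem bt_gd : ∀ s : Fin 9, gd s = true → bt s = s := by decide

theorem at_lt : ∀ s : Fin 9, gd s = false → (at' s : ℕ) < s := by decide

theorem at_le : ∀ s : Fin 9, (at' s : ℕ) ≤ s := by decide

/-- Weight factor of the exponents with middle term `s`. -/
noncomputable def fg (x : ℝ) : Fin 9 → ℝ :=
  ![1, 1 + x, 0, 1 + x ^ 3, (1 + x) * (1 + x ^ 3), 0, 0, 0, 0]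

/-- Weight factor of the exponents with first term `s`. -/
noncomputable def gg (x : ℝ) : Fin 9 → ℝ :=
  ![1 + x ^ 2 + x ^ 6 + x ^ 8, 1 + x ^ 6, 0, 1 + x ^ 2, 1, 0, 0, 0, 0]

theorem fg_spec (x : ℝ) (s : Fin 9) :
    (∑ t : Fin 9, if bt t = s then x ^ (t : ℕ) else 0) = x ^ (s : ℕ) * fg x s := by
  fin_cases s <;> simp [Fin.sum_univ_succ, bt, fg] <;> ring

theorem gg_spec (x : ℝ) (s : Fin 9) :
    (∑ t : Fin 9, if at' t = s then x ^ (t : ℕ) else 0) = x ^ (s : ℕ) * gg x s := by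
  fin_cases s <;> simp [Fin.sum_univ_succ, at', gg] <;> ring

section

set_option linter.unusedSectionVars false

variable {ι : Type*} [Fintype ι] [DecidableEq ι]

theorem sum_comp (x : ι → ℝ) (t : Fin 9 → Fin 9) (h : ι → Fin 9 → ℝ)
    (ht : ∀ i s, (∑ u : Fin 9, if t u = s then x i ^ (u : ℕ) else 0) = x i ^ (s : ℕ) * h i s)
    (φ : (ι → Fin 9) → ℝ) :
    ∑ n : ι → Fin 9, (∏ i, x i ^ (n i : ℕ)) * φ (fun i => t (n i)) =
      ∑ c : ι → Fin 9, (∏ i, x i ^ (c i : ℕ)) * (∏ i, h i (c i)) * φ c := by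
  have h1 : ∀ c : ι → Fin 9, (∏ i, x i ^ (c i : ℕ)) * (∏ i, h i (c i)) =
      ∑ n : ι → Fin 9, if (fun i => t (n i)) = c then ∏ i, x i ^ (n i : ℕ) else 0 := by
    intro c
    rw [← Finset.prod_mul_distrib]
    simp only [← ht]
    rw [Finset.prod_univ_sum, Fintype.piFinset_univ]
    apply Finset.sum_congr rfl
    intro n _
    rw [Finset.prod_ite_zero]
    simp only [Finset.mem_univ, forall_true_left, funext_iff]
  simp only [h1, Finset.sum_mul]
  rw [Finset.sum_comm]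
  apply Finset.sum_congr rfl
  intro n _
  rw [Finset.sum_eq_single (fun i => t (n i))]
  · simp
  · intro c _ hc
    rw [if_neg (fun h => hc h.symm)]
    simp
  · intro h; exact absurd (Finset.mem_univ _) h

/-- `c` has all its exponents in `{0, 1, 3, 4}`. -/
def Gd (c : ι → Fin 9) : Prop := ∀ i, gd (c i) = true

instance (c : ι → Fin 9) : Decidable (Gd c) := by unfold Gd; infer_instance

theorem fg_ge {x : ℝ} (hx : 0 ≤ x) {s : Fin 9} (hs : gd s = true) : 1 ≤ fg x s := by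
  have h3 : 0 ≤ x ^ 3 := by positivity
  have h4 : 0 ≤ x * x ^ 3 := by positivity
  fin_cases s <;> simp [gd] at hs <;> simp [fg] <;> nlinarith

theorem fg_bad {x : ℝ} {s : Fin 9} (hs : gd s = false) : fg x s = 0 := by
  fin_cases s <;> simp [gd] at hs <;> simp [fg]

theorem gg_bad {x : ℝ} {s : Fin 9} (hs : gd s = false) : gg x s = 0 := by
  fin_cases s <;> simp [gd] at hs <;> simp [gg]

theorem prod_fg_ge {x : ι → ℝ} (hx : ∀ i, 0 ≤ x i) {c : ι → Fin 9} (hc : Gd c) :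
    1 ≤ ∏ i, fg (x i) (c i) := by
  have : ∏ i : ι, (1 : ℝ) ≤ ∏ i, fg (x i) (c i) :=
    Finset.prod_le_prod (fun i _ => by norm_num) (fun i _ => fg_ge (hx i) (hc i))
  simpa using this

theorem prod_fg_bad {x : ι → ℝ} {c : ι → Fin 9} (hc : ¬ Gd c) : ∏ i, fg (x i) (c i) = 0 := by
  unfold Gd at hc
  push Not at hc
  obtain ⟨i, hi⟩ := hc
  exact Finset.prod_eq_zero (Finset.mem_univ i) (fg_bad (by simpa using hi))

theorem prod_gg_bad {x : ι → ℝ} {c : ι → Fin 9} (hc : ¬ Gd c) : ∏ i, gg (x i) (c i) = 0 := by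
  unfold Gd at hc
  push Not at hc
  obtain ⟨i, hi⟩ := hc
  exact Finset.prod_eq_zero (Finset.mem_univ i) (gg_bad (by simpa using hi))

theorem resum (x : ι → ℝ) (hx : ∀ i, 0 ≤ x i) (A : (ι → Fin 9) → Finset ℕ)
    (hA : ∀ n, AF (A n))
    (hC : ∀ n, ¬ Gd n → Cross (A (fun i => at' (n i))) (A (fun i => bt (n i))) (A n)) :
    ∑ n : ι → Fin 9, (∏ i, x i ^ (n i : ℕ)) * wt (A n) ≤
      ∑ c : ι → Fin 9, if Gd c then (∏ i, x i ^ (c i : ℕ)) * (864 / 511 +
        gn ((∏ i, fg (x i) (c i)) - 1) (1 - 9 / 4 * ((∏ i, gg (x i) (c i)) - 1))) else 0 := by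
  have hX : ∀ n : ι → Fin 9, 0 ≤ ∏ i, x i ^ (n i : ℕ) := fun n =>
    Finset.prod_nonneg fun i _ => pow_nonneg (hx i) _
  have s1 : ∀ n : ι → Fin 9, (∏ i, x i ^ (n i : ℕ)) * wt (A n) ≤
      (if Gd n then (∏ i, x i ^ (n i : ℕ)) *
        (864 / 511 - dfc (A n) - (9 / 4 * dfc (A n) + hf (dfc (A n)))) else 0) +
      ((∏ i, x i ^ (n i : ℕ)) * (9 / 4 * dfc (A (fun i => at' (n i)))) +
       (∏ i, x i ^ (n i : ℕ)) * hf (dfc (A (fun i => bt (n i))))) := by
    intro n
    by_cases hn : Gd n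
    · rw [if_pos hn]
      have e1 : (fun i => at' (n i)) = n := by funext i; exact at_gd _ (hn i)
      have e2 : (fun i => bt (n i)) = n := by funext i; exact bt_gd _ (hn i)
      rw [e1, e2]
      have : wt (A n) = 864 / 511 - dfc (A n) := by unfold dfc; ring
      rw [this]
      apply le_of_eq
      ring
    · rw [if_neg hn, zero_add, ← mul_add]
      exact mul_le_mul_of_nonneg_left (cross_hf (hA _) (hA _) (hA _) (hC n hn)) (hX n)
  refine (Finset.sum_le_sum fun n _ => s1 n).trans ?_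
  rw [Finset.sum_add_distrib, Finset.sum_add_distrib,
    sum_comp x at' (fun i s => gg (x i) s) (fun i s => gg_spec _ _) (fun c => 9 / 4 * dfc (A c)),
    sum_comp x bt (fun i s => fg (x i) s) (fun i s => fg_spec _ _) (fun c => hf (dfc (A c))),
    ← Finset.sum_add_distrib, ← Finset.sum_add_distrib]
  apply Finset.sum_le_sum
  intro c _
  by_cases hc : Gd c
  · rw [if_pos hc, if_pos hc]
    have hF := prod_fg_ge hx hc
    have hD := dfc_nonneg (hA c)
    have hD2 : dfc (A c) ≤ 864 / 511 := by unfold dfc; linarith [wt_nonneg (A c)]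
    have hg := gain_le (F := (∏ i, fg (x i) (c i)) - 1)
      (κ := 1 - 9 / 4 * ((∏ i, gg (x i) (c i)) - 1)) (by linarith) hD hD2
    have : (∏ i, x i ^ (c i : ℕ)) * (864 / 511 - dfc (A c) - (9 / 4 * dfc (A c) +
        hf (dfc (A c)))) + ((∏ i, x i ^ (c i : ℕ)) * (∏ i, gg (x i) (c i)) *
        (9 / 4 * dfc (A c)) + (∏ i, x i ^ (c i : ℕ)) * (∏ i, fg (x i) (c i)) *
        hf (dfc (A c))) = (∏ i, x i ^ (c i : ℕ)) * (864 / 511 +
        (((∏ i, fg (x i) (c i)) - 1) * hf (dfc (A c)) -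
          (1 - 9 / 4 * ((∏ i, gg (x i) (c i)) - 1)) * dfc (A c))) := by ring
    rw [this]
    exact mul_le_mul_of_nonneg_left (by linarith) (hX c)
  · rw [if_neg hc, if_neg hc, prod_fg_bad hc, prod_gg_bad hc]
    simp

end

end Pool.Agent.Lib.MP_f8fa1d_co.Num
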