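import Pool.Agent.Lib.MP_f8fa1d_co.Num.Data

/-!
# Kernel evaluation of the enumeration (part 0)
-/

namespace Pool.Agent.Lib.MP_f8fa1d_co.Num

open Pool.Agent.Lib.MP_f8fa1d_co

/-- Weight after exponent `0`. -/
def W0 (p w : ℕ) : ℕ := cdiv (w * (p - 1)) p
/-- Weight after exponent `1`. -/
def W1 (p w : ℕ) : ℕ := cdiv (w * (p - 1)) (p ^ 2)
/-- Weight after exponent `3`. -/
def W3 (p w : ℕ) : ℕ := cdiv (w * (p - 1)) (p ^ 4)
/-- Weight after exponent `4`. -/
def W4 (p w : ℕ) : ℕ := cdiv (w * (p - 1)) (p ^ 5)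
/-- Factor after exponent `1`. -/
def U1 (p u : ℕ) : ℕ := cdiv (u * (p + 1)) p
/-- Factor after exponent `3`. -/
def U3 (p u : ℕ) : ℕ := cdiv (u * (p ^ 3 + 1)) (p ^ 3)
/-- Factor after exponent `4`. -/
def U4 (p u : ℕ) : ℕ := cdiv (u * ((p + 1) * (p ^ 3 + 1))) (p ^ 4)
/-- Factor after exponent `0`. -/
def V0 (p v : ℕ) : ℕ := cdiv (v * (p ^ 8 + (p ^ 6 + (p ^ 2 + 1)))) (p ^ 8)
/-- Factor after exponent `1`. -/
def V1 (p v : ℕ) : ℕ := cdiv (v * (p ^ 6 + 1)) (p ^ 6)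
/-- Factor after exponent `3`. -/
def V3 (p v : ℕ) : ℕ := cdiv (v * (p ^ 2 + 1)) (p ^ 2)

/-- The enumeration with the given data. -/
noncomputable def run (w u v : ℕ) : ℕ := dfs T24.S0 T24.M T24.V T24.G nodes w u v

theorem r00 : Nat.ble (run 533333333334 1000000000000 1157214736779) 199715046583 = true := by decide +kernel

theorem r00_w : W0 5 (W0 3 sc) = 533333333334 := by decide +kernel

theorem r00_u : sc = 1000000000000 := by decide +kernel

theorem r00_v : V0 5 (V0 3 sc) = 1157214736779 := by decide +kernel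

end Pool.Agent.Lib.MP_f8fa1d_co.Num
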