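import Pool.Agent.Lib.MP_f8fa1d_co.Num.Run0

/-!
# Kernel evaluation of the enumeration (part 1)
-/

namespace Pool.Agent.Lib.MP_f8fa1d_co.Num

open Pool.Agent.Lib.MP_f8fa1d_co

theorem r01 : Nat.ble (run 106666666667 1200000000000 1112706477672) 1468193164118 = true := by decide +kernel

theorem r01_w : W1 5 (W0 3 sc) = 106666666667 := by decide +kernel

theorem r01_u : U1 5 sc = 1200000000000 := by decide +kernel

theorem r01_v : V1 5 (V0 3 sc) = 1112706477672 := by decide +kernel

theorem r03 : Nat.ble (run 4266666667 1008000000000 1157140679775) 2375026533 = true := by decide +kernel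

theorem r03_w : W3 5 (W0 3 sc) = 4266666667 := by decide +kernel

theorem r03_u : U3 5 sc = 1008000000000 := by decide +kernel

theorem r03_v : V3 5 (V0 3 sc) = 1157140679775 := by decide +kernel

theorem r04 : Nat.ble (run 853333334 1209600000000 1112635269014) 18426163693 = true := by decide +kernel

theorem r04_w : W4 5 (W0 3 sc) = 853333334 := by decide +kernel

theorem r04_u : U4 5 sc = 1209600000000 := by decide +kernel

theorem r04_v : V0 3 sc = 1112635269014 := by decide +kernel

end Pool.Agent.Lib.MP_f8fa1d_co.Num
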