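import Pool.Agent.Lib.MP_f8fa1d_co.Num.Run0

/-!
# Kernel evaluation of the enumeration (part 2)
-/

namespace Pool.Agent.Lib.MP_f8fa1d_co.Num

open Pool.Agent.Lib.MP_f8fa1d_co

theorem r10 : Nat.ble (run 177777777779 1333333333334 1041493263101) 6835612915178 = true := by decide +kernel

theorem r10_w : W0 5 (W1 3 sc) = 177777777779 := by decide +kernel

theorem r10_u : U1 3 sc = 1333333333334 := by decide +kernel

theorem r10_v : V0 5 (V1 3 sc) = 1041493263101 := by decide +kernel

end Pool.Agent.Lib.MP_f8fa1d_co.Num
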