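import Pool.Agent.Lib.MP_f8fa1d_co.Num.Run0

/-!
# Kernel evaluation of the enumeration (part 3)
-/

namespace Pool.Agent.Lib.MP_f8fa1d_co.Num

open Pool.Agent.Lib.MP_f8fa1d_co

theorem r11 : Nat.ble (run 35555555556 1600000000001 1001435829905) 34337407752571 = true := by decide +kernel

theorem r11_w : W1 5 (W1 3 sc) = 35555555556 := by decide +kernel

theorem r11_u : U1 5 (U1 3 sc) = 1600000000001 := by decide +kernel

theorem r11_v : V1 5 (V1 3 sc) = 1001435829905 := by decide +kernel

theorem r13 : Nat.ble (run 1422222223 1344000000001 1041426611798) 73614167699 = true := by decide +kernel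

theorem r13_w : W3 5 (W1 3 sc) = 1422222223 := by decide +kernel

theorem r13_u : U3 5 (U1 3 sc) = 1344000000001 := by decide +kernel

theorem r13_v : V3 5 (V1 3 sc) = 1041426611798 := by decide +kernel

theorem r14 : Nat.ble (run 284444445 1612800000001 1001371742113) 332651137810 = true := by decide +kernel

theorem r14_w : W4 5 (W1 3 sc) = 284444445 := by decide +kernel

theorem r14_u : U4 5 (U1 3 sc) = 1612800000001 := by decide +kernel

theorem r14_v : V1 3 sc = 1001371742113 := by decide +kernel

end Pool.Agent.Lib.MP_f8fa1d_co.Num
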