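import Pool.Agent.Lib.MP_f8fa1d_co.Num.Run0

/-!
# Kernel evaluation of the enumeration (part 4)
-/

namespace Pool.Agent.Lib.MP_f8fa1d_co.Num

open Pool.Agent.Lib.MP_f8fa1d_co

theorem r30 : Nat.ble (run 19753086420 1037037037038 1155629511113) 14126886675 = true := by decide +kernel

theorem r30_w : W0 5 (W3 3 sc) = 19753086420 := by decide +kernel

theorem r30_u : U3 3 sc = 1037037037038 := by decide +kernel

theorem r30_v : V0 5 (V3 3 sc) = 1155629511113 := by decide +kernel

theorem r31 : Nat.ble (run 3950617284 1244444444446 1111182222224) 173709335200 = true := by decide +kernel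

theorem r31_w : W1 5 (W3 3 sc) = 3950617284 := by decide +kernel

theorem r31_u : U1 5 (U3 3 sc) = 1244444444446 := by decide +kernel

theorem r31_v : V1 5 (V3 3 sc) = 1111182222224 := by decide +kernel

theorem r33 : Nat.ble (run 158024692 1045333333335 1155555555557) 362891118 = true := by decide +kernel

theorem r33_w : W3 5 (W3 3 sc) = 158024692 := by decide +kernel

theorem r33_u : U3 5 (U3 3 sc) = 1045333333335 := by decide +kernel

theorem r33_v : V3 5 (V3 3 sc) = 1155555555557 := by decide +kernel

theorem r34 : Nat.ble (run 31604939 1254400000002 1111111111112) 2557172972 = true := by decide +kernel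

theorem r34_w : W4 5 (W3 3 sc) = 31604939 := by decide +kernel

theorem r34_u : U4 5 (U3 3 sc) = 1254400000002 := by decide +kernel

theorem r34_v : V3 3 sc = 1111111111112 := by decide +kernel

theorem r40 : Nat.ble (run 6584362140 1382716049383 1040066560000) 690300275625 = true := by decide +kernel

theorem r40_w : W0 5 (W4 3 sc) = 6584362140 := by decide +kernel

theorem r40_u : U4 3 sc = 1382716049383 := by decide +kernel

theorem r40_v : V0 5 sc = 1040066560000 := by decide +kernel

theorem r41 : Nat.ble (run 1316872428 1659259259260 1000064000000) 2420599081332 = true := by decide +kernel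

theorem r41_w : W1 5 (W4 3 sc) = 1316872428 := by decide +kernel

theorem r41_u : U1 5 (U4 3 sc) = 1659259259260 := by decide +kernel

theorem r41_v : V1 5 sc = 1000064000000 := by decide +kernel

theorem r43 : Nat.ble (run 52674898 1393777777779 1040000000000) 8427422424 = true := by decide +kernel

theorem r43_w : W3 5 (W4 3 sc) = 52674898 := by decide +kernel

theorem r43_u : U3 5 (U4 3 sc) = 1393777777779 := by decide +kernel

theorem r43_v : V3 5 sc = 1040000000000 := by decide +kernel

theorem r44 : Nat.ble (run 10534980 1672533333334 1000000000000) 23730470881 = true := by decide +kernel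

theorem r44_w : W4 5 (W4 3 sc) = 10534980 := by decide +kernel

theorem r44_u : U4 5 (U4 3 sc) = 1672533333334 := by decide +kernel

theorem r44_v : sc = 1000000000000 := by decide +kernel

end Pool.Agent.Lib.MP_f8fa1d_co.Num
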