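import Pool.Agent.Lib.MP_f8fa1d_co.Num.SliceCheck

/-!
# The slice inequality: soundness of the check
-/

namespace Pool.Agent.Lib.MP_f8fa1d_co.Num

/-! ### Masks -/

/-- Mask of a predicate on `{0, …, n-1}`. -/
def mk (p : ℕ → Bool) : ℕ → ℕ
  | 0 => 0
  | n + 1 => bif p n then 2 ^ n + mk p n else mk p n

theorem mk_lt (p : ℕ → Bool) (n : ℕ) : mk p n < 2 ^ n := by
  induction n with
  | zero => simp [mk]
  | succ n ih =>
    rw [mk, pow_succ]
    cases p n <;> simp <;> omega

theorem mk_testBit (p : ℕ → Bool) (n : ℕ) : ∀ c < n, (mk p n).testBit c = p c := by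
  induction n with
  | zero => intro c hc; omega
  | succ n ih =>
    intro c hc
    rw [mk]
    rcases Nat.lt_succ_iff_lt_or_eq.1 hc with h | h
    · cases hp : p n
      · simp only [cond_false]; exact ih c h
      · simp only [cond_true]
        rw [Nat.testBit_two_pow_add_gt h]
        exact ih c h
    · subst h
      cases hp : p c
      · simp only [cond_false]
        exact Nat.testBit_lt_two_pow (mk_lt p c)
      · simp only [cond_true]
        rw [Nat.testBit_two_pow_add_eq, Nat.testBit_lt_two_pow (mk_lt p c)]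
        rfl

theorem mk_testBit_ge (p : ℕ → Bool) {n c : ℕ} (h : n ≤ c) : (mk p n).testBit c = false := by
  apply Nat.testBit_lt_two_pow
  exact lt_of_lt_of_le (mk_lt p n) (Nat.pow_le_pow_right (by norm_num) h)

theorem mk_sum (p : ℕ → Bool) (n : ℕ) : mk p n = ∑ c ∈ Finset.range n, bif p c then 2 ^ c else 0 := by
  induction n with
  | zero => simp [mk]
  | succ n ih =>
    rw [mk, Finset.sum_range_succ, ih]
    cases p n <;> simp [add_comm]

/-- The mask of the exponents `< 9` of `A`: bit `8 - i` for the exponent `i`. -/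
def low (A : Finset ℕ) : ℕ := mk (fun c => decide (8 - c ∈ A)) 9

/-- The part of `A` above `9`, shifted. -/
def sh (A : Finset ℕ) : Finset ℕ := (A.filter (fun i => 9 ≤ i)).image (fun i => i - 9)

theorem mem_sh {A : Finset ℕ} {i : ℕ} : i ∈ sh A ↔ i + 9 ∈ A := by
  unfold sh
  simp only [Finset.mem_image, Finset.mem_filter]
  constructor
  · rintro ⟨j, ⟨h1, h2⟩, h3⟩
    have : i + 9 = j := by omega
    rw [this]; exact h1
  · intro h
    exact ⟨i + 9, ⟨h, by omega⟩, by omega⟩

theorem low_lt (A : Finset ℕ) : low A < 512 := mk_lt _ 9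

theorem low_testBit {A : Finset ℕ} {c : ℕ} : (low A).testBit c = true ↔ c < 9 ∧ 8 - c ∈ A := by
  unfold low
  by_cases h : c < 9
  · rw [mk_testBit _ _ _ h]; simp [h]
  · rw [mk_testBit_ge _ (by omega)]; simp [h]

theorem wt_split (A : Finset ℕ) : wt A = (low A : ℝ) / 256 + wt (sh A) / 512 := by
  have h1 : wt A = ∑ i ∈ A.filter (fun i => ¬ 9 ≤ i), (1 / 2 : ℝ) ^ i +
      ∑ i ∈ A.filter (fun i => 9 ≤ i), (1 / 2 : ℝ) ^ i := by
    unfold wt
    rw [add_comm, Finset.sum_filter_add_sum_filter_not]
  have h2 : wt (sh A) / 512 = ∑ i ∈ A.filter (fun i => 9 ≤ i), (1 / 2 : ℝ) ^ i := by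
    unfold wt sh
    rw [Finset.sum_image, Finset.sum_div]
    · apply Finset.sum_congr rfl
      intro i hi
      have h9 : 9 ≤ i := (Finset.mem_filter.1 hi).2
      obtain ⟨j, rfl⟩ := Nat.exists_eq_add_of_le h9
      rw [Nat.add_sub_cancel_left, pow_add]
      norm_num
      ring
    · intro i hi j hj hij
      have h9 : 9 ≤ i := (Finset.mem_filter.1 hi).2
      have h9' : 9 ≤ j := (Finset.mem_filter.1 hj).2
      simp only at hij
      omega
  have h3 : (low A : ℝ) / 256 = ∑ i ∈ A.filter (fun i => ¬ 9 ≤ i), (1 / 2 : ℝ) ^ i := by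
    have h4 : A.filter (fun i => ¬ 9 ≤ i) = (Finset.range 9).filter (fun i => i ∈ A) := by
      ext i
      simp only [Finset.mem_filter, Finset.mem_range]
      constructor
      · rintro ⟨h, h'⟩; exact ⟨by omega, h⟩
      · rintro ⟨h, h'⟩; exact ⟨h', by omega⟩
    rw [h4, Finset.sum_filter]
    unfold low
    rw [mk_sum]
    have h5 : ∀ f : ℕ → ℝ, ∑ i ∈ Finset.range 9, f i = ∑ i ∈ Finset.range 9, f (8 - i) := by
      intro f
      rw [← Finset.sum_range_reflect]
    rw [h5]
    push_cast
    rw [Finset.sum_div]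
    apply Finset.sum_congr rfl
    intro c hc
    have hc9 : c < 9 := Finset.mem_range.1 hc
    by_cases h : 8 - c ∈ A
    · simp only [h, decide_true, cond_true, if_true]
      push_cast
      interval_cases c <;> norm_num
    · simp [h]
  rw [h1, ← h2, ← h3]

theorem AF.sh {A : Finset ℕ} (h : AF A) : AF (sh A) := by
  intro i hi j hj k hk hijk
  have := h _ (mem_sh.1 hi) _ (mem_sh.1 hj) _ (mem_sh.1 hk) (by omega)
  omega

theorem Cross.sh {A B C : Finset ℕ} (h : Cross A B C) :
    Cross (Num.sh A) (Num.sh B) (Num.sh C) := by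
  intro i hi j hj k hk hijk
  exact h _ (mem_sh.1 hi) _ (mem_sh.1 hj) _ (mem_sh.1 hk) (by omega)

theorem prs_spec : ∀ q ∈ prs, q.1 < 9 ∧ q.2 < 9 ∧ q.1 ≤ 2 * q.2 ∧ 2 * q.2 - q.1 < 9 := by decide

theorem AF.mem {A : Finset ℕ} (h : AF A) : low A ∈ afList := by
  apply af_mem _ (low_lt A)
  unfold afB
  rw [List.all_eq_true]
  intro q hq
  obtain ⟨h1, h2, h3, h4⟩ := prs_spec q hq
  by_contra hc
  simp only [Bool.not_eq_true, Bool.not_eq_false', Bool.and_eq_true, bne_iff_ne, ne_eq] at hc
  obtain ⟨⟨⟨ha, hb⟩, hd⟩, hne⟩ := hc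
  have h5 := (low_testBit.1 ha).2
  have h6 := (low_testBit.1 hb).2
  have h7 := (low_testBit.1 hd).2
  have := h _ h5 _ h6 _ h7 (by omega)
  omega

theorem forb_spec {x y c : ℕ} (h : (forb x y).testBit c = true) :
    ∃ a b, x.testBit a = true ∧ y.testBit b = true ∧ a + c = 2 * b := by
  have key : ∀ (l : List (ℕ × ℕ)) (f : ℕ), (∀ q ∈ l, q ∈ prs) →
      (l.foldl (fun f q => bif (x.testBit q.1 && y.testBit q.2) then f ||| 2 ^ (2 * q.2 - q.1)
        else f) f).testBit c = true →
      f.testBit c = true ∨ ∃ a b, x.testBit a = true ∧ y.testBit b = true ∧ a + c = 2 * b := by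
    intro l
    induction l with
    | nil => intro f _ h; left; simpa using h
    | cons q l ih =>
      intro f hl h
      rw [List.foldl_cons] at h
      rcases ih _ (fun q' hq' => hl q' (List.mem_cons_of_mem _ hq')) h with h1 | h1
      · cases hq : (x.testBit q.1 && y.testBit q.2)
        · rw [hq] at h1; left; simpa using h1
        · rw [hq] at h1
          simp only [cond_true, Nat.testBit_or, Bool.or_eq_true] at h1
          rcases h1 with h1 | h1
          · left; exact h1
          · right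
            rw [Nat.testBit_two_pow] at h1
            have h2 : 2 * q.2 - q.1 = c := by simpa using h1
            rw [Bool.and_eq_true] at hq
            obtain ⟨_, _, h3, _⟩ := prs_spec q (hl q (by simp))
            exact ⟨q.1, q.2, hq.1, hq.2, by omega⟩
      · right; exact h1
  rcases key prs 0 (fun q hq => hq) h with h1 | h1
  · simp at h1
  · exact h1

theorem Cross.land {A B C : Finset ℕ} (h : Cross A B C) :
    Nat.land (low C) (forb (low A) (low B)) = 0 := by
  apply Nat.eq_of_testBit_eq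
  intro c
  rw [Nat.zero_testBit]
  change (low C &&& forb (low A) (low B)).testBit c = false
  rw [Nat.testBit_and]
  by_contra hc
  rw [Bool.not_eq_false, Bool.and_eq_true] at hc
  obtain ⟨h1, h2⟩ := low_testBit.1 hc.1
  obtain ⟨a, b, ha, hb, hab⟩ := forb_spec hc.2
  obtain ⟨h3, h4⟩ := low_testBit.1 ha
  obtain ⟨h5, h6⟩ := low_testBit.1 hb
  exact h _ h4 _ h6 _ h2 (by omega)

theorem low_bd {A B C : Finset ℕ} (hA : AF A) (hB : AF B) (hC : AF C) (h : Cross A B C) :
    low C * 10000 ≤ bd (432 - low A) (432 - low B) := by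
  have h1 := chk_true
  unfold chk at h1
  rw [List.all_eq_true] at h1
  have h2 := h1 _ hA.mem
  rw [List.all_eq_true] at h2
  have h3 := h2 _ hB.mem
  rw [Bool.or_eq_true] at h3
  rcases h3 with h3 | h3
  · have h4 := Nat.le_of_ble_eq_true h3
    have h5 := af_le _ hC.mem
    omega
  · rw [List.all_eq_true] at h3
    have h4 := h3 _ hC.mem
    rw [Bool.or_eq_true] at h4
    rcases h4 with h4 | h4
    · exact Nat.le_of_ble_eq_true h4
    · rw [h.land] at h4
      simp at h4

theorem wt_nonneg (A : Finset ℕ) : 0 ≤ wt A := Finset.sum_nonneg fun i _ => by positivity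

theorem sh_lt {A : Finset ℕ} {N : ℕ} (h : ∀ i ∈ A, i < N + 1) : ∀ i ∈ sh A, i < N := by
  intro i hi
  have := h _ (mem_sh.1 hi)
  omega

theorem wt_le {A : Finset ℕ} (h : AF A) : wt A ≤ 864 / 511 := by
  have key : ∀ N : ℕ, ∀ A : Finset ℕ, AF A → (∀ i ∈ A, i < N) → wt A ≤ 864 / 511 := by
    intro N
    induction N with
    | zero =>
      intro A _ hN
      have : A = ∅ := Finset.eq_empty_of_forall_notMem fun i hi => by have := hN i hi; omega
      subst this
      unfold wt; norm_num
    | succ N ih =>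
      intro A hA hN
      have h1 := ih (sh A) hA.sh (sh_lt hN)
      have h2 := af_le _ hA.mem
      have h3 : (low A : ℝ) ≤ 432 := by exact_mod_cast h2
      rw [wt_split]
      linarith
  exact key (A.sup id + 1) A h (fun i hi => Nat.lt_succ_of_le (Finset.le_sup (f := id) hi))

/-- The deficit. -/
noncomputable def dfc (A : Finset ℕ) : ℝ := 864 / 511 - wt A

theorem dfc_nonneg {A : Finset ℕ} (h : AF A) : 0 ≤ dfc A := by
  unfold dfc; linarith [wt_le h]

theorem dfc_split (A : Finset ℕ) :
    dfc A = (432 - low A : ℝ) / 256 + dfc (sh A) / 512 := by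
  unfold dfc
  rw [wt_split A]
  ring

theorem bd_le (dx dy : ℕ) : bd dx dy ≤ 22500 * dx + 14624 * dy ∧
    bd dx dy ≤ 22500 * dx + 14087 * dy + 6876 ∧
    bd dx dy ≤ 22500 * dx + 12125 * dy + 214757 ∧
    bd dx dy ≤ 22500 * dx + 11284 * dy + 320716 ∧
    bd dx dy ≤ 22500 * dx + 8438 * dy + 784610 := by
  unfold bd
  simp only [min_le_iff, le_refl, true_or, or_true, and_true]

theorem low_real {A B C : Finset ℕ} (hA : AF A) (hB : AF B) (hC : AF C) (h : Cross A B C)
    {s k : ℕ} (hs : bd (432 - low A) (432 - low B) ≤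
      22500 * (432 - low A) + s * (432 - low B) + k) :
    (low C : ℝ) * 10000 ≤ 22500 * (432 - low A) + s * (432 - low B) + k := by
  have h1 := low_bd hA hB hC h
  have h2 : low C * 10000 ≤ 22500 * (432 - low A) + s * (432 - low B) + k := le_trans h1 hs
  have h3 : ((low C * 10000 : ℕ) : ℝ) ≤
      ((22500 * (432 - low A) + s * (432 - low B) + k : ℕ) : ℝ) := by exact_mod_cast h2
  push_cast [Nat.cast_sub (af_le _ hA.mem), Nat.cast_sub (af_le _ hB.mem)] at h3
  exact h3

/-- The basic inequality, with the line through the origin. -/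
theorem cross_one {A B C : Finset ℕ} (hA : AF A) (hB : AF B) (hC : AF C) (h : Cross A B C) :
    wt C ≤ 9 / 4 * dfc A + 14624 / 10000 * dfc B := by
  have key : ∀ N : ℕ, ∀ A B C : Finset ℕ, AF A → AF B → AF C → Cross A B C →
      (∀ i ∈ C, i < N) → wt C ≤ 9 / 4 * dfc A + 14624 / 10000 * dfc B := by
    intro N
    induction N with
    | zero =>
      intro A B C hA hB _ _ hN
      have : C = ∅ := Finset.eq_empty_of_forall_notMem fun i hi => by have := hN i hi; omega
      subst this
      have h1 := dfc_nonneg hA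
      have h2 := dfc_nonneg hB
      unfold wt
      simp only [Finset.sum_empty]
      positivity
    | succ N ih =>
      intro A B C hA hB hC h hN
      have h1 := ih (sh A) (sh B) (sh C) hA.sh hB.sh hC.sh h.sh (sh_lt hN)
      have h2 := low_real hA hB hC h (s := 14624) (k := 0) (by simpa using (bd_le _ _).1)
      rw [wt_split C, dfc_split A, dfc_split B]
      push_cast at h2
      linarith
  exact key (C.sup id + 1) A B C hA hB hC h
    (fun i hi => Nat.lt_succ_of_le (Finset.le_sup (f := id) hi))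

theorem cross_gen {A B C : Finset ℕ} (hA : AF A) (hB : AF B) (hC : AF C) (h : Cross A B C)
    {s k : ℕ} (hk : s ≤ 14624) (hs : bd (432 - low A) (432 - low B) ≤
      22500 * (432 - low A) + s * (432 - low B) + k) :
    wt C ≤ 9 / 4 * dfc A + s / 10000 * dfc B + k / 2560000 +
      (14624 - s) / 10000 * (864 / 511) / 512 := by
  have h1 := cross_one hA.sh hB.sh hC.sh h.sh
  have h2 := low_real hA hB hC h hs
  rw [wt_split C, dfc_split A, dfc_split B]
  have h3 : dfc (sh B) ≤ 864 / 511 := by
    unfold dfc; linarith [wt_nonneg (sh B)]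
  have h4 : (0 : ℝ) ≤ (14624 - s) / 10000 := by
    have : (s : ℝ) ≤ 14624 := by exact_mod_cast hk
    linarith
  have h5 : (14624 - (s : ℝ)) / 10000 * dfc (sh B) ≤ (14624 - s) / 10000 * (864 / 511) :=
    mul_le_mul_of_nonneg_left h3 h4
  nlinarith

/-- The concave bound for the third weight in terms of the deficit of the middle set. -/
noncomputable def hf (D : ℝ) : ℝ :=
  min (14624 / 10000 * D) (min (14087 / 10000 * D + 733 / 256000)
    (min (12125 / 10000 * D + 21687 / 256000) (min (11284 / 10000 * D + 32354 / 256000)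
      (min (8438 / 10000 * D + 78984 / 256000) (864 / 511)))))

theorem cross_hf {A B C : Finset ℕ} (hA : AF A) (hB : AF B) (hC : AF C) (h : Cross A B C) :
    wt C ≤ 9 / 4 * dfc A + hf (dfc B) := by
  obtain ⟨b1, b2, b3, b4, b5⟩ := bd_le (432 - low A) (432 - low B)
  have h1 := cross_one hA hB hC h
  have h2 := cross_gen hA hB hC h (s := 14087) (by norm_num) b2
  have h3 := cross_gen hA hB hC h (s := 12125) (by norm_num) b3
  have h4 := cross_gen hA hB hC h (s := 11284) (by norm_num) b4
  have h5 := cross_gen hA hB hC h (s := 8438) (by norm_num) b5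
  have h6 := wt_le hC
  have h7 := dfc_nonneg hA
  push_cast at h2 h3 h4 h5
  have : wt C - 9 / 4 * dfc A ≤ hf (dfc B) := by
    unfold hf
    refine le_min ?_ (le_min ?_ (le_min ?_ (le_min ?_ (le_min ?_ ?_))))
    · linarith
    · linarith
    · linarith
    · linarith
    · linarith
    · linarith
  linarith

/-! ### The gain -/

/-- The positive part of `F · h(D) - κ · D`, maximised over `D`. -/
noncomputable def gn (F κ : ℝ) : ℝ :=
  max 0 (max (F * 1995 - max κ 0 * 1364) (max (F * 15117 - max κ 0 * 10679)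
    (max (F * 17547 - max κ 0 * 12683) (max (F * 21724 - max κ 0 * 16384)
      (F * 43285 - max κ 0 * 41937))))) / 25600 + max (-κ) 0 * (864 / 511)

theorem seg {a b Ha Hb D y F κ s k : ℝ} (hab : a < b) (ha : a ≤ D) (hb : D ≤ b)
    (hy : y ≤ s * D + k) (h1 : s * a + k ≤ Ha) (h2 : s * b + k ≤ Hb) (hF : 0 ≤ F) :
    F * y - κ * D ≤ max (F * Ha - κ * a) (F * Hb - κ * b) := by
  set l : ℝ := (D - a) / (b - a) with hl
  have hba : 0 < b - a := by linarith
  have hl0 : 0 ≤ l := div_nonneg (by linarith) hba.le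
  have hl1 : l ≤ 1 := by rw [hl, div_le_one hba]; linarith
  have hD : D = (1 - l) * a + l * b := by
    have : l * (b - a) = D - a := by rw [hl]; field_simp
    linarith
  have hy2 : y ≤ (1 - l) * Ha + l * Hb := by
    have h3 : (1 - l) * (s * a + k) ≤ (1 - l) * Ha := mul_le_mul_of_nonneg_left h1 (by linarith)
    have h4 : l * (s * b + k) ≤ l * Hb := mul_le_mul_of_nonneg_left h2 hl0
    have h5 : s * D + k = (1 - l) * (s * a + k) + l * (s * b + k) := by rw [hD]; ring
    linarith
  have h3 : F * y ≤ F * ((1 - l) * Ha + l * Hb) := mul_le_mul_of_nonneg_left hy2 hF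
  have h4 : (1 - l) * (F * Ha - κ * a) ≤ (1 - l) * max (F * Ha - κ * a) (F * Hb - κ * b) :=
    mul_le_mul_of_nonneg_left (le_max_left _ _) (by linarith)
  have h5 : l * (F * Hb - κ * b) ≤ l * max (F * Ha - κ * a) (F * Hb - κ * b) :=
    mul_le_mul_of_nonneg_left (le_max_right _ _) hl0
  have h6 : F * ((1 - l) * Ha + l * Hb) - κ * ((1 - l) * a + l * b) =
    (1 - l) * (F * Ha - κ * a) + l * (F * Hb - κ * b) := by ring
  calc F * y - κ * D ≤ F * ((1 - l) * Ha + l * Hb) - κ * ((1 - l) * a + l * b) := by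
        rw [← hD]; linarith
    _ ≤ _ := by rw [h6]; linarith

theorem hf_le (D : ℝ) : hf D ≤ 14624 / 10000 * D ∧ hf D ≤ 14087 / 10000 * D + 733 / 256000 ∧
    hf D ≤ 12125 / 10000 * D + 21687 / 256000 ∧ hf D ≤ 11284 / 10000 * D + 32354 / 256000 ∧
    hf D ≤ 8438 / 10000 * D + 78984 / 256000 ∧ hf D ≤ 864 / 511 := by
  unfold hf
  simp only [min_le_iff, le_refl, true_or, or_true, and_true]

theorem gain_le {F κ D : ℝ} (hF : 0 ≤ F) (hD : 0 ≤ D) (hD2 : D ≤ 864 / 511) :
    F * hf D - κ * D ≤ gn F κ := by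
  obtain ⟨h1, h2, h3, h4, h5, h6⟩ := hf_le D
  set q := max κ 0 with hq
  have hq0 : 0 ≤ q := le_max_right _ _
  have hr0 : 0 ≤ max (-κ) 0 := le_max_right _ _
  have hqk : κ = q - max (-κ) 0 := by
    rcases le_total κ 0 with h | h
    · rw [hq, max_eq_right h, max_eq_left (by linarith)]; ring
    · rw [hq, max_eq_left h, max_eq_right (by linarith)]; ring
  have h7 : max (-κ) 0 * D ≤ max (-κ) 0 * (864 / 511) := mul_le_mul_of_nonneg_left hD2 hr0
  have h8 : F * hf D - κ * D = F * hf D - q * D + max (-κ) 0 * D := by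
    conv_lhs => rw [hqk]
    ring
  set M := max 0 (max (F * 1995 - q * 1364) (max (F * 15117 - q * 10679)
    (max (F * 17547 - q * 12683) (max (F * 21724 - q * 16384)
      (F * 43285 - q * 41937))))) with hM
  have m0 : 0 ≤ M := by rw [hM]; simp
  have m1 : F * 1995 - q * 1364 ≤ M := by rw [hM]; simp
  have m2 : F * 15117 - q * 10679 ≤ M := by rw [hM]; simp
  have m3 : F * 17547 - q * 12683 ≤ M := by rw [hM]; simp
  have m4 : F * 21724 - q * 16384 ≤ M := by rw [hM]; simp
  have m5 : F * 43285 - q * 41937 ≤ M := by rw [hM]; simp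
  have main : F * hf D - q * D ≤ M / 25600 := by
    rcases le_total D (1364 / 25600) with c1 | c1
    · refine (seg (a := 0) (b := 1364 / 25600) (Ha := 0) (Hb := 1995 / 25600) (s := 14624 / 10000)
        (k := 0) (by norm_num) hD c1 (by linarith) (by norm_num) (by norm_num) hF).trans
        (max_le ?_ ?_) <;> linarith
    rcases le_total D (10679 / 25600) with c2 | c2
    · refine (seg (a := 1364 / 25600) (b := 10679 / 25600) (Ha := 1995 / 25600)
        (Hb := 15117 / 25600) (by norm_num) c1 c2 h2 (by norm_num) (by norm_num) hF).trans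
        (max_le ?_ ?_) <;> linarith
    rcases le_total D (12683 / 25600) with c3 | c3
    · refine (seg (a := 10679 / 25600) (b := 12683 / 25600) (Ha := 15117 / 25600)
        (Hb := 17547 / 25600) (by norm_num) c2 c3 h3 (by norm_num) (by norm_num) hF).trans
        (max_le ?_ ?_) <;> linarith
    rcases le_total D (16384 / 25600) with c4 | c4
    · refine (seg (a := 12683 / 25600) (b := 16384 / 25600) (Ha := 17547 / 25600)
        (Hb := 21724 / 25600) (by norm_num) c3 c4 h4 (by norm_num) (by norm_num) hF).trans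
        (max_le ?_ ?_) <;> linarith
    rcases le_total D (41937 / 25600) with c5 | c5
    · refine (seg (a := 16384 / 25600) (b := 41937 / 25600) (Ha := 21724 / 25600)
        (Hb := 43285 / 25600) (by norm_num) c4 c5 h5 (by norm_num) (by norm_num) hF).trans
        (max_le ?_ ?_) <;> linarith
    · have e1 : F * hf D ≤ F * (43285 / 25600) :=
        mul_le_mul_of_nonneg_left (le_trans h6 (by norm_num)) hF
      have e2 : q * (41937 / 25600) ≤ q * D := mul_le_mul_of_nonneg_left c5 hq0
      linarith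
  rw [h8]
  have : gn F κ = M / 25600 + max (-κ) 0 * (864 / 511) := by
    unfold gn; rw [hM]
  rw [this]
  linarith

end Pool.Agent.Lib.MP_f8fa1d_co.Num
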