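import Mathlib

/-!
# The slice inequality

`wt A = ∑_{i ∈ A} 2^{-i}` for finite sets of exponents.  We prove the upper bound `864/511` for sets
without three-term arithmetic progressions, and an inequality between the weights of three sets of
exponents `A0, A1, A2` with no `i ∈ A0, j ∈ A1, k ∈ A2`, `i + k = 2 j`.
-/

namespace Pool.Agent.Lib.MP_f8fa1d_co.Num

/-- The weight of a finite set of exponents. -/
noncomputable def wt (A : Finset ℕ) : ℝ := ∑ i ∈ A, (1 / 2 : ℝ) ^ i

/-- No three-term arithmetic progressions. -/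
def AF (A : Finset ℕ) : Prop := ∀ i ∈ A, ∀ j ∈ A, ∀ k ∈ A, i + k = 2 * j → i = j

/-- No progression `i, j, k` with `i ∈ A`, `j ∈ B`, `k ∈ C`. -/
def Cross (A B C : Finset ℕ) : Prop := ∀ i ∈ A, ∀ j ∈ B, ∀ k ∈ C, i + k ≠ 2 * j

/-! ### Boolean computations -/

/-- The pairs `(a, b)` with `a, b < 9` and `2 b - a ∈ [0, 9)`. -/
def prs : List (ℕ × ℕ) := [
  (0, 0), (0, 1), (0, 2), (0, 3), (0, 4), (1, 1), (1, 2), (1, 3), (1, 4), (2, 1), (2, 2), (2, 3),
  (2, 4), (2, 5), (3, 2), (3, 3), (3, 4), (3, 5), (4, 2), (4, 3), (4, 4), (4, 5), (4, 6), (5, 3),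
  (5, 4), (5, 5), (5, 6), (6, 3), (6, 4), (6, 5), (6, 6), (6, 7), (7, 4), (7, 5), (7, 6), (7, 7),
  (8, 4), (8, 5), (8, 6), (8, 7), (8, 8)]

/-- The nine-bit masks without three-term progressions, in decreasing order. -/
def afList : List ℕ := [
  432, 419, 418, 417, 416, 408, 404, 400, 397, 396, 395, 394, 393, 392, 390, 389, 388, 387, 386,
  385, 384, 360, 355, 354, 353, 352, 332, 330, 328, 326, 325, 324, 323, 322, 321, 320, 306, 304,
  297, 296, 291, 290, 289, 288, 282, 280, 278, 276, 274, 272, 269, 268, 267, 266, 265, 264, 262,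
  261, 260, 259, 258, 257, 256, 216, 209, 208, 204, 202, 200, 198, 197, 196, 195, 194, 193, 192,
  180, 177, 176, 166, 165, 164, 163, 162, 161, 160, 153, 152, 148, 145, 144, 141, 140, 139, 138,
  137, 136, 134, 133, 132, 131, 130, 129, 128, 108, 104, 102, 101, 100, 99, 98, 97, 96, 90, 88,
  83, 82, 81, 80, 76, 74, 72, 70, 69, 68, 67, 66, 65, 64, 54, 52, 51, 50, 49, 48, 45, 44, 41, 40,
  38, 37, 36, 35, 34, 33, 32, 27, 26, 25, 24, 22, 20, 19, 18, 17, 16, 13, 12, 11, 10, 9, 8, 6, 5,
  4, 3, 2, 1, 0]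

/-- Test for masks without progressions. -/
def afB (x : ℕ) : Bool :=
  prs.all fun q => !(x.testBit q.1 && x.testBit q.2 && x.testBit (2 * q.2 - q.1) && q.1 != q.2)

/-- The mask of all third terms of progressions starting in `x` with middle term in `y`. -/
def forb (x y : ℕ) : ℕ :=
  prs.foldl (fun f q => bif (x.testBit q.1 && y.testBit q.2) then f ||| 2 ^ (2 * q.2 - q.1) else f) 0

/-- The bound for the third weight (scaled by `10 ^ 4`). -/
def bd (dx dy : ℕ) : ℕ :=
  min (22500 * dx + 14624 * dy) (min (22500 * dx + 14087 * dy + 6876)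
    (min (22500 * dx + 12125 * dy + 214757) (min (22500 * dx + 11284 * dy + 320716)
      (22500 * dx + 8438 * dy + 784610))))

/-- The complete check. -/
def chk : Bool :=
  afList.all fun x => afList.all fun y =>
    (Nat.ble 4320000 (bd (432 - x) (432 - y))) ||
    (afList.all fun z => Nat.ble (z * 10000) (bd (432 - x) (432 - y)) ||
      (Nat.land z (forb x y) != 0))

theorem af_mem : ∀ x < 512, afB x = true → x ∈ afList := by decide +kernel

theorem af_le : ∀ x ∈ afList, x ≤ 432 := by decide +kernel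

theorem chk_true : chk = true := by decide +kernel

end Pool.Agent.Lib.MP_f8fa1d_co.Num
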