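import Pool.Agent.Lib.MP_f8fa1d_co.Num.Dfs

/-!
# Fast evaluation of the moment recursion, and a primality sieve
-/

namespace Pool.Agent.Lib.MP_f8fa1d_co.Num

open Pool.Agent.Lib.MP_f8fa1d_co

/-- Coefficient. -/
def kR (p : Nat) : Nat :=
  Nat.mul (Nat.mul (Nat.sub p 1) (Nat.add (Nat.pow p 4) (Nat.add (Nat.pow p 3) (Nat.add p 1))))
    (Nat.pow p 8)

/-- Coefficient. -/
def kb1 (p : Nat) : Nat :=
  Nat.mul (Nat.mul (Nat.sub p 1) (Nat.add (Nat.pow p 6) (Nat.add (Nat.pow p 3)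
    (Nat.add (Nat.pow p 2) (Nat.add p 1))))) (Nat.pow p 4)

/-- Coefficient. -/
def kb2 (p : Nat) : Nat :=
  Nat.mul (Nat.sub p 1) (Nat.add (Nat.pow p 9) (Nat.add (Nat.pow p 3)
    (Nat.pow (Nat.add (Nat.pow p 3) (Nat.add p 1)) 2)))

/-- Step for the zeroth moment. -/
def t0 (D R S0 : Nat) : Nat := cdiv (Nat.mul R S0) D

/-- Step for the first moment. -/
def t1 (D R b1 S0 M : Nat) : Nat := cdiv (Nat.add (Nat.mul (Nat.add R b1) M) (Nat.mul b1 S0)) D

/-- Step for the second moment. -/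
def t2 (D R b1 b2 S0 M V : Nat) : Nat :=
  cdiv (Nat.add (Nat.add (Nat.mul (Nat.add R (Nat.add (Nat.mul 2 b1) b2)) V)
    (Nat.mul (Nat.mul 2 (Nat.add b1 b2)) M)) (Nat.mul b2 S0)) D

/-- Step for the bound of `G`. -/
def t3 (p G : Nat) : Nat :=
  cdiv (Nat.mul (Nat.add (Nat.pow p 8) (Nat.add (Nat.pow p 6) (Nat.add (Nat.pow p 2) 1))) G)
    (Nat.pow p 8)

/-- Check of the moment recursion along a list. -/
noncomputable def chkT (s m v g : Nat) (l : List Nat) : Nat → Nat → Nat → Nat → Bool :=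
  @List.rec Nat (fun _ => Nat → Nat → Nat → Nat → Bool)
    (fun S0 M V G => @Bool.rec (fun _ => Bool) false (@Bool.rec (fun _ => Bool) false
      (@Bool.rec (fun _ => Bool) false (Nat.beq S0 s) (Nat.beq M m)) (Nat.beq V v)) (Nat.beq G g))
    (fun p _ ih S0 M V G => ih (t0 (Nat.pow p 13) (kR p) S0) (t1 (Nat.pow p 13) (kR p) (kb1 p) S0 M)
      (t2 (Nat.pow p 13) (kR p) (kb1 p) (kb2 p) S0 M V) (t3 p G)) l

theorem tstep_eq (p S0 M V G : ℕ) : tstep p ⟨S0, M, V, G⟩ =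
    ⟨t0 (Nat.pow p 13) (kR p) S0, t1 (Nat.pow p 13) (kR p) (kb1 p) S0 M,
      t2 (Nat.pow p 13) (kR p) (kb1 p) (kb2 p) S0 M V, t3 p G⟩ := by
  have e1 : kR p = (p - 1) * (p ^ 4 + p ^ 3 + p + 1) * p ^ 8 := by
    change (p - 1) * (p ^ 4 + (p ^ 3 + (p + 1))) * p ^ 8 = _
    ring
  have e2 : kb1 p = (p - 1) * (p ^ 6 + p ^ 3 + p ^ 2 + p + 1) * p ^ 4 := by
    change (p - 1) * (p ^ 6 + (p ^ 3 + (p ^ 2 + (p + 1)))) * p ^ 4 = _
    ring
  have e3 : kb2 p = (p - 1) * (p ^ 9 + p ^ 3 + (p ^ 3 + p + 1) ^ 2) := by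
    change (p - 1) * (p ^ 9 + (p ^ 3 + (p ^ 3 + (p + 1)) ^ 2)) = _
    ring
  have e4 : t3 p G = cdiv ((p ^ 8 + p ^ 6 + p ^ 2 + 1) * G) (p ^ 8) := by
    change cdiv ((p ^ 8 + (p ^ 6 + (p ^ 2 + 1))) * G) (p ^ 8) = _
    congr 1
    ring
  have e5 : t2 (Nat.pow p 13) (kR p) (kb1 p) (kb2 p) S0 M V =
      cdiv ((kR p + 2 * kb1 p + kb2 p) * V + 2 * (kb1 p + kb2 p) * M + kb2 p * S0) (p ^ 13) := by
    change cdiv ((kR p + (2 * kb1 p + kb2 p)) * V + 2 * (kb1 p + kb2 p) * M + kb2 p * S0)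
      (p ^ 13) = _
    congr 1
    ring
  rw [e4, e5]
  unfold tstep
  simp only [← e1, ← e2, ← e3]
  rfl

theorem chkT_spec {s m v g : ℕ} : ∀ (l : List ℕ) (L : List ℕ) (S0 M V G : ℕ),
    Big (l.reverse ++ L) → TB L ⟨S0, M, V, G⟩ → chkT s m v g l S0 M V G = true →
    TB (l.reverse ++ L) ⟨s, m, v, g⟩ := by
  intro l
  induction l with
  | nil =>
    intro L S0 M V G _ hT h
    have h1 : @Bool.rec (fun _ => Bool) false (@Bool.rec (fun _ => Bool) false
      (@Bool.rec (fun _ => Bool) false (Nat.beq S0 s) (Nat.beq M m)) (Nat.beq V v))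
      (Nat.beq G g) = true := h
    obtain ⟨a1, h1⟩ := band_aux h1
    obtain ⟨a2, h1⟩ := band_aux h1
    obtain ⟨a3, h1⟩ := band_aux h1
    rw [Nat.eq_of_beq_eq_true a1, Nat.eq_of_beq_eq_true a2, Nat.eq_of_beq_eq_true a3,
      Nat.eq_of_beq_eq_true h1] at hT
    exact hT
  | cons p l ih =>
    intro L S0 M V G hB hT h
    have h1 : chkT s m v g l (t0 (Nat.pow p 13) (kR p) S0)
      (t1 (Nat.pow p 13) (kR p) (kb1 p) S0 M)
      (t2 (Nat.pow p 13) (kR p) (kb1 p) (kb2 p) S0 M V) (t3 p G) = true := h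
    rw [List.reverse_cons, List.append_assoc, List.singleton_append] at hB ⊢
    have hp : 2 ≤ p := hB p (by simp)
    have hL : Big L := fun q hq => hB q (by simp [hq])
    have hT' := TB_step hp hL hT
    rw [tstep_eq] at hT'
    exact ih (p :: L) _ _ _ _ hB hT' h1

theorem Big.tail {p : ℕ} {L : List ℕ} (h : Big (p :: L)) : Big L := fun q hq => h q (by simp [hq])

theorem chkT_one {s m v g p : ℕ} {L : List ℕ} {S0 M V G : ℕ} (hB : Big (p :: L))
    (hT : TB L ⟨S0, M, V, G⟩) (h : chkT s m v g [p] S0 M V G = true) :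
    TB (p :: L) ⟨s, m, v, g⟩ :=
  chkT_spec [p] L S0 M V G (by simpa using hB) hT h

/-! ### Primes -/

/-- The primes up to `67`. -/
def sp : List ℕ := [2, 3, 5, 7, 11, 13, 17, 19, 23, 29, 31, 37, 41, 43, 47, 53, 59, 61, 67]

/-- Trial division by the primes up to `67`. -/
def tp (n : ℕ) : Bool :=
  Nat.ble 3 n && sp.all (fun q => !(Nat.beq (Nat.mod n q) 0) || Nat.beq n q)

theorem sp_spec : ∀ m < 71, m.Prime → m ∈ sp := by
  intro m hm hp
  interval_cases m <;> first | decide | (exfalso; revert hp; norm_num)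

theorem tp_iff {n : ℕ} (hn : n < 5000) : tp n = true ↔ n.Prime ∧ 3 ≤ n := by
  unfold tp
  rw [Bool.and_eq_true, List.all_eq_true]
  constructor
  · rintro ⟨h1, h2⟩
    have h3 : 3 ≤ n := Nat.le_of_ble_eq_true h1
    refine ⟨?_, h3⟩
    by_contra hnp
    have h4 : n.minFac ^ 2 ≤ n := Nat.minFac_sq_le_self (by omega) hnp
    have h5 : n.minFac.Prime := Nat.minFac_prime (by omega)
    have h6 : n.minFac < 71 := by
      by_contra h
      push Not at h
      have : 71 ^ 2 ≤ n.minFac ^ 2 := Nat.pow_le_pow_left h 2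
      omega
    have h7 := h2 _ (sp_spec _ h6 h5)
    have h8 : n % n.minFac = 0 := Nat.mod_eq_zero_of_dvd (Nat.minFac_dvd n)
    rw [Bool.or_eq_true] at h7
    rcases h7 with h7 | h7
    · have e : Nat.mod n n.minFac = 0 := h8
      rw [e] at h7
      simp at h7
    · have e := Nat.eq_of_beq_eq_true h7
      rw [← e] at h5
      exact hnp h5
  · rintro ⟨hp, h3⟩
    refine ⟨Nat.ble_eq_true_of_le h3, ?_⟩
    intro q hq
    have hq2 : 2 ≤ q := by
      revert q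
      decide
    rw [Bool.or_eq_true]
    by_cases h : n % q = 0
    · right
      have hd : q ∣ n := Nat.dvd_of_mod_eq_zero h
      rcases (Nat.dvd_prime hp).1 hd with h1 | h1
      · omega
      · rw [h1]; exact Nat.beq_refl n
    · left
      have hb : Nat.beq (Nat.mod n q) 0 = false := by
        cases hb : Nat.beq (Nat.mod n q) 0
        · rfl
        · exact absurd (Nat.eq_of_beq_eq_true hb) h
      rw [hb]
      rfl

end Pool.Agent.Lib.MP_f8fa1d_co.Num
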