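import Pool.Agent.Lib.MP_f8fa1d_co.Num.Run1
import Pool.Agent.Lib.MP_f8fa1d_co.Num.Run2
import Pool.Agent.Lib.MP_f8fa1d_co.Num.Run3
import Pool.Agent.Lib.MP_f8fa1d_co.Num.Run4
import Pool.Agent.Lib.MP_f8fa1d_co.Thin

/-!
# The numerical upper bound
-/

namespace Pool.Agent.Lib.MP_f8fa1d_co.Num

open Pool.Agent.Lib.MP_f8fa1d_co

theorem okE {w u v w' u' v' r : ℕ} (hw : w = w') (hu : u = u') (hv : v = v')
    (h : Nat.ble (run w' u' v') r = true) : Ok L2 w u v r := by
  subst hw hu hv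
  exact (dfs_ok T24 nodes L2 big2 valid w u v).mono (Nat.le_of_ble_eq_true h)

theorem step4' {p : ℕ} (hp : 2 ≤ p) {L : List ℕ} (hL : Big L) {w u v r0 r1 r3 r4 : ℕ}
    (h0 : Ok L (W0 p w) u (V0 p v) r0) (h1 : Ok L (W1 p w) (U1 p u) (V1 p v) r1)
    (h3 : Ok L (W3 p w) (U3 p u) (V3 p v) r3) (h4 : Ok L (W4 p w) (U4 p u) v r4) :
    Ok (p :: L) w u v (r0 + r1 + r3 + r4) :=
  step4 hp hL h0 h1 h3 h4

theorem ok0 : Ok L1 (W0 3 sc) sc (V0 3 sc) 1688709400927 :=
  (step4' (p := 5) (by norm_num) big2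
    (okE r00_w r00_u r00_v r00)
    (okE r01_w r01_u r01_v r01)
    (okE r03_w r03_u r03_v r03)
    (okE r04_w r04_u r04_v r04)).mono (by norm_num)

theorem ok1 : Ok L1 (W1 3 sc) (U1 3 sc) (V1 3 sc) 41579285973258 :=
  (step4' (p := 5) (by norm_num) big2
    (okE r10_w r10_u r10_v r10)
    (okE r11_w r11_u r11_v r11)
    (okE r13_w r13_u r13_v r13)
    (okE r14_w r14_u r14_v r14)).mono (by norm_num)

theorem ok3 : Ok L1 (W3 3 sc) (U3 3 sc) (V3 3 sc) 190756285965 :=
  (step4' (p := 5) (by norm_num) big2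
    (okE r30_w r30_u r30_v r30)
    (okE r31_w r31_u r31_v r31)
    (okE r33_w r33_u r33_v r33)
    (okE r34_w r34_u r34_v r34)).mono (by norm_num)

theorem ok4 : Ok L1 (W4 3 sc) (U4 3 sc) sc 3143057250262 :=
  (step4' (p := 5) (by norm_num) big2
    (okE r40_w r40_u r40_v r40)
    (okE r41_w r41_u r41_v r41)
    (okE r43_w r43_u r43_v r43)
    (okE r44_w r44_u r44_v r44)).mono (by norm_num)

theorem okAll : Ok L0 sc sc sc 46601808910412 :=
  (step4' (p := 3) (by norm_num) big1 ok0 ok1 ok3 ok4).mono (by norm_num)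

theorem ES_gn_le : ES L0 gn' ≤ 46601808910412 / 10 ^ 12 := by
  have h := okAll
  unfold Ok at h
  rw [div_self sc_pos.ne', one_mul] at h
  simp only [one_mul] at h
  have e : (sc : ℝ) = 10 ^ 12 := by unfold sc; norm_num
  rw [e] at h
  exact_mod_cast h

/-- Sum of the rounded ninth powers of the reciprocals. -/
noncomputable def s9 (l : List Nat) : Nat :=
  @List.rec Nat (fun _ => Nat) 0 (fun p _ ih => Nat.add ih (cdiv sc (Nat.pow p 9))) l

theorem s9_spec : ∀ l : List ℕ, Big l → l.Nodup →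
    ∑ q ∈ l.toFinset, (1 / (q : ℝ)) ^ 9 ≤ (s9 l : ℝ) / sc
  | [], _, _ => by simp [s9]
  | p :: l, hB, hn => by
    have hs := sc_pos
    have h1 : s9 (p :: l) = s9 l + cdiv sc (p ^ 9) := rfl
    have h2 := s9_spec l hB.tail (List.nodup_cons.1 hn).2
    have hp : 2 ≤ p := hB p (by simp)
    have hp0 : (0 : ℝ) < p := by exact_mod_cast (by omega : 0 < p)
    have h3 := le_cdiv sc (b := p ^ 9) (by positivity)
    rw [List.toFinset_cons, Finset.sum_insert (by
      rw [List.mem_toFinset]; exact (List.nodup_cons.1 hn).1), h1]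
    push_cast at h3 ⊢
    rw [add_div, add_comm]
    refine add_le_add h2 ?_
    rw [le_div_iff₀ hs]
    refine le_trans (le_of_eq ?_) h3
    field_simp

theorem s9_L0 : s9 L0 = 51343239 := by decide +kernel

theorem ES_psi (L : List ℕ) : ES L psi = 864 / 511 * m0 L + 1 / 25600 * ES L gn' := by
  unfold m0
  rw [← ES_mul, ← ES_mul, ← ES_add]
  congr 1
  funext F G
  unfold psi gn'
  ring

theorem sK_5000 : sK 5000 < 0.7207 := by
  have h1 := sK_le (K := 5000) (by norm_num) L0_nodup L0_mem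
  have h2 := s9_spec L0 big0 L0_nodup
  rw [s9_L0] at h2
  have h3 := ES_gn_le
  have h4 := tb0.h0
  have e : (sc : ℝ) = 10 ^ 12 := by unfold sc; norm_num
  rw [e] at h2 h4
  rw [ES_psi] at h1
  push_cast at h2 h4
  norm_num at h1 h2 h3 h4 ⊢
  linarith

theorem supDensity_lt : supDensity < 0.7207 := by
  rw [supDensity_eq]
  exact (sigma_le 5000).trans_lt sK_5000

end Pool.Agent.Lib.MP_f8fa1d_co.Num
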